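import Pool.Agent.SUC.Cat

set_option autoImplicit false

/-!
# The gap criterion with catalysts
-/

namespace Pool.Agent.SUC

open Pool.Agent.Helper60.Hit MvPolynomial Pool.Agent.CTL45 Pool.Agent.HitD5 Pool.Agent.HitAB

variable {n : ℕ}

/-- the alternatives of the gap criterion for the variable `i` -/
def Alt (c r : ℕ) (e0 : Fin n → ℕ) (i : Fin n) : Prop :=
  (∀ l, i ≤ l → e0 l % 2 ^ r = 2 ^ r - 1 ∨ e0 l < 2 ^ c) ∨
  (∀ l s, i < l → e0 l / 2 ^ s % 2 = 1 → e0 i / 2 ^ s % 2 = 1 ∨ e0 l < 2 ^ c) ∨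
  e0 i < 2 ^ c ∨ r ≤ c + 1

/-- the catalyst `l` for the variable `i` -/
def Ctl (c r : ℕ) (p : Fin n) (e0 : Fin n → ℕ) (i l : Fin n) : Prop :=
  (∀ j, (i < j ∧ j < l) ∨ (l < j ∧ j < i) → e0 j ≠ 2 ^ r - 1) ∧
    ((p < l ∧ (e0 l / 2 ^ c % 4 = 1 ∨ e0 l / 2 ^ c % 4 = 2)) ∨
      (l < p ∧ e0 l = 2 ^ (c + 1) - 1 ∧ ∀ j, l < j → j < p → e0 j < 2 ^ c))

theorem div_spike (c : ℕ) : (2 ^ (c + 2) - 1) / 2 ^ c = 3 := by
  have h := Nat.one_le_two_pow (n := c)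
  rw [pow_add, Nat.div_eq_iff (by omega)]
  omega

theorem div_half (c : ℕ) : (2 ^ (c + 1) - 1) / 2 ^ c = 1 := by
  have h := Nat.one_le_two_pow (n := c)
  rw [pow_succ, Nat.div_eq_iff (by omega)]
  omega

variable {w : ℕ → Fin (n + 1)} {r u : ℕ} {e e0 : Fin (n + 1) → ℕ}

/-- every gap satisfies the gap criterion or contains a catalyst -/
theorem Wk.cat (S : Wk w r u e e0) {c : ℕ}
    (ht : ∀ i, e0 i % 2 ^ c = 2 ^ c - 1 ∨ ∃ a ≤ c, e0 i = 2 ^ a - 1)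
    (hgap : ∀ j < u, (∀ i, w j < i → i < w (j + 1) → Alt c r e0 i) ∨
      (r = c + 2 ∧ ((∃ l, w j < l ∧ l < w (j + 1) ∧
          (e0 l / 2 ^ c % 4 = 1 ∨ e0 l / 2 ^ c % 4 = 2)) ∨
        (j = 0 ∧ ∃ l, l < w 0 ∧ e0 l = 2 ^ (c + 1) - 1 ∧ ∀ i, l < i → i < w 0 → e0 i < 2 ^ c))))
    (h : Adm e0) : Adm e := by
  classical
  have hu := S.hu
  obtain ⟨G, hG⟩ : ∃ G : ℕ → Prop,
      ∀ j, G j ↔ (j < u ∧ ¬ ∀ i, w j < i → i < w (j + 1) → Alt c r e0 i) := ⟨_, fun _ => Iff.rfl⟩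
  -- the catalysts
  have hex : ∀ j, ∃ l : Fin (n + 1), G j → r = c + 2 ∧
      ((w j < l ∧ l < w (j + 1) ∧ (e0 l / 2 ^ c % 4 = 1 ∨ e0 l / 2 ^ c % 4 = 2)) ∨
        (j = 0 ∧ l < w 0 ∧ e0 l = 2 ^ (c + 1) - 1 ∧ ∀ i, l < i → i < w 0 → e0 i < 2 ^ c)) := by
    intro j
    by_cases hj : G j
    · have h1 := (hG j).mp hj
      rcases hgap j h1.1 with h2 | ⟨h2, ⟨l, h3⟩ | ⟨h3, l, h4⟩⟩
      · exact absurd h2 h1.2
      · exact ⟨l, fun _ => ⟨h2, Or.inl h3⟩⟩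
      · exact ⟨l, fun _ => ⟨h2, Or.inr ⟨h3, h4⟩⟩⟩
    · exact ⟨w 0, fun h1 => absurd h1 hj⟩
  choose q hq using hex
  obtain ⟨U, hU⟩ : ∃ U : Fin (n + 1) → Prop,
      ∀ i, U i ↔ (if q 0 < w 0 then i < q 0 else i ≤ w 0) := ⟨_, fun _ => Iff.rfl⟩
  obtain ⟨Θ, hΘ⟩ : ∃ Θ : ℕ → (MvPolynomial (Fin (n + 1)) (ZMod 2) →ₗ[ZMod 2]
      MvPolynomial (Fin (n + 1)) (ZMod 2)),
      ∀ j, Θ j = if G j then thq (q j) (w (j + 1)) else LinearMap.id := ⟨_, fun _ => rfl⟩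
  have hw01 : ∀ j < u, w j < w (j + 1) := fun j hj => S.inc j (j + 1) (by omega) (by omega)
  have M : Ms (fun i => e0 i / 2 ^ c) w u U G Θ := by
    refine ⟨fun i j hij hj => S.inc i j hij (by omega), ?_, ?_, ?_⟩
    · intro i j hij hj
      rw [hU] at hj ⊢
      split_ifs at hj ⊢
      · exact hij.trans hj
      · exact le_of_lt (lt_of_lt_of_le hij hj)
    · intro j hj hGj
      obtain ⟨h1, h2⟩ := hq j hGj
      have htb : e0 (w (j + 1)) / 2 ^ c = 3 := by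
        rw [S.e0_w hj, h1, div_spike]
      rw [hΘ, if_pos hGj]
      rcases h2 with ⟨h2, h3, h4⟩ | ⟨h2, h3, h4, h5⟩
      · rcases Nat.eq_zero_or_pos j with rfl | hj0
        · have h5 : ¬ q 0 < w 0 := not_lt.mpr (le_of_lt h2)
          refine th_cat ?_ ?_ h3 htb h4
          · show ¬ U (q 0)
            rw [hU, if_neg h5]; exact not_le.mpr h2
          · show ¬ U (w (0 + 1))
            rw [hU, if_neg h5]; exact not_le.mpr (hw01 0 hj)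
        · obtain ⟨j', rfl⟩ : ∃ j', j = j' + 1 := ⟨j - 1, by omega⟩
          exact th_cat (not_le.mpr h2) (not_le.mpr (hw01 _ hj)) h3 htb h4
      · subst h2
        refine th_cat ?_ ?_ (h3.trans (hw01 0 hj)) htb (Or.inl ?_)
        · show ¬ U (q 0)
          rw [hU, if_pos h3]; exact lt_irrefl _
        · show ¬ U (w (0 + 1))
          rw [hU, if_pos h3]; exact not_lt.mpr (le_of_lt (h3.trans (hw01 0 hj)))
        · show e0 (q 0) / 2 ^ c % 4 = 1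
          rw [h4, div_half]
    · intro j _ hGj
      rw [hΘ, if_neg hGj]
  refine Wk.multi S ht M ?_ ?_ h
  · intro hG0 i hUi hi
    obtain ⟨h1, h2⟩ := hq 0 hG0
    have hpow := Nat.one_le_two_pow (n := c)
    have hpow2 : 2 ^ (c + 1) = 2 ^ c * 2 := pow_succ 2 c
    rw [hU] at hUi
    by_cases h3 : q 0 < w 0
    · rw [if_pos h3, not_lt] at hUi
      rcases h2 with ⟨h2, -⟩ | ⟨-, -, h4, h5⟩
      · exact absurd (h2.trans h3) (lt_irrefl _)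
      · rcases eq_or_lt_of_le hUi with h6 | h6
        · rw [← h6, h4]; omega
        · rcases eq_or_lt_of_le hi with h7 | h7
          · rw [h7, S.e0_eq_zero]; omega
          · have := h5 i h6 h7; omega
    · rw [if_neg h3] at hUi
      exact absurd hi hUi
  · intro j hj hGj i hi1 hi2
    have h1 : ∀ i, w j < i → i < w (j + 1) → Alt c r e0 i := by
      by_contra hcon
      exact hGj ((hG j).mpr ⟨hj, hcon⟩)
    exact h1 i hi1 hi2

/-- the criterion for the positions of the problem, with the gaps of the given `κ` -/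
theorem cat_main0 (p : Fin (n + 1)) (e0 : Fin (n + 1) → ℕ) (h0 : e0 p = 0)
    (r : ℕ) (κ : Fin r → Fin (n + 1)) (u : Fin r) (e : Fin (n + 1) → ℕ)
    (hκ : StrictMono κ) (hpκ : ∀ m, p < κ m) {c : ℕ}
    (hc : ∀ i, e0 i % 2 ^ c = 2 ^ c - 1 ∨ ∃ a ≤ c, e0 i = 2 ^ a - 1)
    (hgap : ∀ i m, p < i → m < u → i < κ m → (∀ m', i ≠ κ m') →
      Alt c r e0 i ∨ (r = c + 2 ∧ ∃ l, Ctl c r p e0 i l))
    (hlow : ∀ m : Fin r, m < u → e0 (κ m) = 2 ^ r - 1)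
    (hbu : ∀ m : Fin r, m ≤ u → e0 (κ u) / 2 ^ (r - 1 - (m : ℕ)) % 2 = 1)
    (hbm : ∀ m : Fin r, u < m → e0 (κ m) / 2 ^ (r - 1 - (m : ℕ)) % 2 = 1)
    (hep : e p = 2 ^ r - 1)
    (heu : e (κ u) + ∑ m ∈ Finset.range ((u : ℕ) + 1), 2 ^ (r - 1 - m) = e0 (κ u))
    (hem : ∀ m : Fin r, u < m → e (κ m) + 2 ^ (r - 1 - (m : ℕ)) = e0 (κ m))
    (heq : ∀ i, i ≠ p → (∀ m, u ≤ m → i ≠ κ m) → e i = e0 i) :
    (Adm e0 → Adm e) ∧ wt e = wt e0 ∧ ∑ i, e i = ∑ i, e0 i := by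
  classical
  have S : Wk (seqOf p κ) r (u : ℕ) e e0 :=
    wk_main p e0 h0 r κ u e hκ hpκ hlow hbu hbm hep heu hem heq
  refine ⟨Wk.cat S hc ?_, S.hwt.symm, S.sum_eq.symm⟩
  intro j hj
  have hu := u.2
  have hjr : j < r := by omega
  have e2 : seqOf p κ (j + 1) = κ ⟨j, hjr⟩ := seqOf_succ p κ ⟨j, hjr⟩
  have hpw : ∀ j' < (u : ℕ), p < seqOf p κ (j' + 1) := by
    intro j' hj'
    exact S.inc 0 (j' + 1) (by omega) (by omega)
  by_cases hall : ∀ i, seqOf p κ j < i → i < seqOf p κ (j + 1) → Alt c r e0 i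
  · exact Or.inl hall
  right
  push Not at hall
  obtain ⟨i, hi1, hi2, hi3⟩ := hall
  have hpi : p < i := lt_of_le_of_lt (S.inc.le (i := 0) (j := j) (Nat.zero_le _) (by omega)) hi1
  have hno : ∀ m', i ≠ κ m' := by
    rintro m' rfl
    rw [e2] at hi2
    have h3 : m' < ⟨j, hjr⟩ := hκ.lt_iff_lt.mp hi2
    rw [Fin.lt_def] at h3
    have h4 : seqOf p κ ((m' : ℕ) + 1) = κ m' := seqOf_succ p κ m'
    rw [← h4] at hi1
    have h5 : seqOf p κ ((m' : ℕ) + 1) ≤ seqOf p κ j := S.inc.le (by simpa using h3) (by omega)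
    exact absurd (lt_of_lt_of_le hi1 h5) (lt_irrefl _)
  rcases hgap i ⟨j, hjr⟩ hpi (by rw [Fin.lt_def]; exact hj) (by rw [← e2]; exact hi2) hno with
    h1 | ⟨h1, l, h2, h3⟩
  · exact absurd h1 hi3
  refine ⟨h1, ?_⟩
  have hspike : ∀ j' < (u : ℕ), e0 (seqOf p κ (j' + 1)) = 2 ^ r - 1 := fun j' hj' => S.e0_w hj'
  rcases h3 with ⟨h3, h4⟩ | ⟨h3, h4, h5⟩
  · left
    have hns : ∀ j' < (u : ℕ), l ≠ seqOf p κ (j' + 1) := by
      rintro j' hj' rfl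
      rw [hspike j' hj', h1, div_spike] at h4
      omega
    refine ⟨l, ?_, ?_, h4⟩
    · by_contra hcon
      rcases Nat.eq_zero_or_pos j with rfl | hj0
      · exact hcon h3
      · obtain ⟨j', rfl⟩ : ∃ j', j = j' + 1 := ⟨j - 1, by omega⟩
        have h6 : l < seqOf p κ (j' + 1) :=
          lt_of_le_of_ne (not_lt.mp hcon) (hns j' (by omega))
        exact h2 _ (Or.inr ⟨h6, hi1⟩) (hspike j' (by omega))
    · by_contra hcon
      have h6 : seqOf p κ (j + 1) < l :=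
        lt_of_le_of_ne (not_lt.mp hcon) (Ne.symm (hns j hj))
      exact h2 _ (Or.inl ⟨hi2, h6⟩) (hspike j hj)
  · right
    refine ⟨?_, l, h3, h4, h5⟩
    by_contra hj0
    obtain ⟨j', rfl⟩ : ∃ j', j = j' + 1 := ⟨j - 1, by omega⟩
    exact h2 _ (Or.inr ⟨h3.trans (hpw j' (by omega)), hi1⟩) (hspike j' (by omega))

/-- the gap criterion with catalysts: all exponents are `-1` modulo `2 ^ c` or small, and every
variable strictly between `x_p` and the last of the `κ m`, `m < u`, has exponent `2 ^ r - 1`, or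
satisfies one of the alternatives of the gap criterion, or `r = c + 2` and it has a catalyst -/
theorem cat_main (p : Fin (n + 1)) (e0 : Fin (n + 1) → ℕ) (h0 : e0 p = 0)
    (r : ℕ) (κ : Fin r → Fin (n + 1)) (u : Fin r) (e : Fin (n + 1) → ℕ)
    (hκ : StrictMono κ) (hpκ : ∀ m, p < κ m) {c : ℕ}
    (hc : ∀ i, i ≠ p → e0 i % 2 ^ c = 2 ^ c - 1 ∨ ∃ a ≤ c, e0 i = 2 ^ a - 1)
    (hgap : ∀ i m, p < i → m < u → i < κ m →
      e0 i = 2 ^ r - 1 ∨ Alt c r e0 i ∨ (r = c + 2 ∧ ∃ l, Ctl c r p e0 i l))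
    (hlow : ∀ m : Fin r, m < u → e0 (κ m) = 2 ^ r - 1)
    (hbu : ∀ m : Fin r, m ≤ u → e0 (κ u) / 2 ^ (r - 1 - (m : ℕ)) % 2 = 1)
    (hbm : ∀ m : Fin r, u < m → e0 (κ m) / 2 ^ (r - 1 - (m : ℕ)) % 2 = 1)
    (hep : e p = 2 ^ r - 1)
    (heu : e (κ u) + ∑ m ∈ Finset.range ((u : ℕ) + 1), 2 ^ (r - 1 - m) = e0 (κ u))
    (hem : ∀ m : Fin r, u < m → e (κ m) + 2 ^ (r - 1 - (m : ℕ)) = e0 (κ m))
    (heq : ∀ i, i ≠ p → (∀ m, u ≤ m → i ≠ κ m) → e i = e0 i) :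
    (Adm e0 → Adm e) ∧ wt e = wt e0 ∧ ∑ i, e i = ∑ i, e0 i := by
  obtain ⟨κ', k1, k2, k3, k4, k5⟩ := exists_first p e0 (2 ^ r - 1) r κ u hκ hpκ hlow
  refine cat_main0 p e0 h0 r κ' u e k1 k2 (c := c) ?_ ?_ (fun m hm => (k4 m hm).1) ?_ ?_ hep
    ?_ ?_ ?_
  · intro i
    rcases eq_or_ne i p with rfl | hi
    · exact Or.inr ⟨0, Nat.zero_le _, by rw [h0]; simp⟩
    · exact hc i hi
  · intro i m hpi hm him hno
    rcases hgap i m hpi hm (lt_of_lt_of_le him (k4 m hm).2) with h | h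
    · exact absurd h (k5 i m hpi hm him hno)
    · exact h
  · intro m hm
    rw [k3 u le_rfl]; exact hbu m hm
  · intro m hm
    rw [k3 m (le_of_lt hm)]; exact hbm m hm
  · rw [k3 u le_rfl]; exact heu
  · intro m hm
    rw [k3 m (le_of_lt hm)]; exact hem m hm
  · intro i hi h
    refine heq i hi (fun m hm => ?_)
    rw [← k3 m hm]; exact h m hm

end Pool.Agent.SUC
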