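import Pool.Agent.HitD5.Omega2

set_option autoImplicit false

/-!
# The operator C for any number of variables, part 1

The operators `gop b j` and `rop b J` preserve the hit polynomials up to small weight.
-/

namespace Pool.Agent.SUC

open Pool.Agent.Helper60.Hit MvPolynomial Pool.Agent.CTL45 Pool.Agent.HitD5

variable {n : ℕ}

/-! ### sums and weights -/

theorem sum_two {M : Type*} [AddCommMonoid M] {b j : Fin n} (hj : j ≠ b) (F : Fin n → M) :
    ∑ i, F i = F b + (F j + ∑ i ∈ (Finset.univ.erase b).erase j, F i) := by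
  rw [← Finset.add_sum_erase _ F (Finset.mem_univ b),
    ← Finset.add_sum_erase _ F (Finset.mem_erase.mpr ⟨hj, Finset.mem_univ j⟩)]

theorem wt_bt (z : Fin n → ℕ) : wt z = ∑ i, bt (z i) := by
  funext s
  rw [Finset.sum_apply]
  rfl

theorem wt_two {b j : Fin n} (hj : j ≠ b) {z y : Fin n → ℕ}
    (h : ∀ i, i ≠ b → i ≠ j → y i = z i) :
    ∃ R : ℕ → ℕ, wt z = bt (z b) + (bt (z j) + R) ∧ wt y = bt (y b) + (bt (y j) + R) := by
  refine ⟨∑ i ∈ (Finset.univ.erase b).erase j, bt (z i), ?_, ?_⟩
  · rw [wt_bt, sum_two hj (fun i => bt (z i))]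
  · have h1 : ∑ i ∈ (Finset.univ.erase b).erase j, bt (y i) =
        ∑ i ∈ (Finset.univ.erase b).erase j, bt (z i) := by
      refine Finset.sum_congr rfl fun i hi => ?_
      rw [Finset.mem_erase, Finset.mem_erase] at hi
      rw [h i hi.2.1 hi.1]
    rw [wt_bt, sum_two hj (fun i => bt (y i)), h1]

theorem wt0 (z : Fin n → ℕ) : wt z 0 = ∑ i, z i % 2 := by
  unfold wt
  simp

theorem wt_zero_le_pred {i : Fin n} {z : Fin n → ℕ} (h : z i % 2 = 0) : wt z 0 ≤ n - 1 := by
  rw [wt0, ← Finset.add_sum_erase _ _ (Finset.mem_univ i), h, zero_add]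
  have h1 : ∑ l ∈ Finset.univ.erase i, z l % 2 ≤ ∑ l ∈ Finset.univ.erase i, 1 :=
    Finset.sum_le_sum fun l _ => by omega
  rw [Finset.sum_const, smul_eq_mul, mul_one, Finset.card_erase_of_mem (Finset.mem_univ i),
    Finset.card_univ, Fintype.card_fin] at h1
  exact h1

theorem wt_zero_lt {i j : Fin n} (hij : i ≠ j) {z : Fin n → ℕ} (hi : z i % 2 = 0)
    (hj : z j % 2 = 0) : wt z 0 < n - 1 := by
  rw [wt0, sum_two hij (fun l => z l % 2)]
  have h1 : ∑ l ∈ (Finset.univ.erase j).erase i, z l % 2 ≤
      ∑ l ∈ (Finset.univ.erase j).erase i, 1 :=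
    Finset.sum_le_sum fun l _ => by omega
  rw [Finset.sum_const, smul_eq_mul, mul_one,
    Finset.card_erase_of_mem (Finset.mem_erase.mpr ⟨hij, Finset.mem_univ i⟩),
    Finset.card_erase_of_mem (Finset.mem_univ j), Finset.card_univ, Fintype.card_fin] at h1
  have h2 : 2 ≤ n := by
    have h3 := i.isLt
    have h4 := j.isLt
    have h5 : (i : ℕ) ≠ j := fun h => hij (Fin.ext h)
    omega
  omega

theorem wt_zero_pred {b : Fin n} {z : Fin n → ℕ} (hb : z b % 2 = 0)
    (h : ∀ i, i ≠ b → z i % 2 = 1) : wt z 0 = n - 1 := by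
  rw [wt0, ← Finset.add_sum_erase _ _ (Finset.mem_univ b), hb, zero_add,
    Finset.sum_congr rfl (g := fun _ => 1) (fun i hi => h i (Finset.mem_erase.mp hi).1),
    Finset.sum_const, smul_eq_mul, mul_one, Finset.card_erase_of_mem (Finset.mem_univ b),
    Finset.card_univ, Fintype.card_fin]

/-- exactly one even exponent -/
theorem exists_even {z : Fin n → ℕ} (hn : 0 < n) (h : wt z 0 = n - 1) :
    ∃ j, z j % 2 = 0 ∧ ∀ i, i ≠ j → z i % 2 = 1 := by
  by_cases hall : ∀ i, z i % 2 = 1
  · exfalso
    have h2 : wt z 0 = n := by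
      rw [wt0, Finset.sum_congr rfl (g := fun _ => 1) (fun i _ => hall i), Finset.sum_const,
        smul_eq_mul, mul_one, Finset.card_univ, Fintype.card_fin]
    omega
  · push Not at hall
    obtain ⟨j, hj⟩ := hall
    refine ⟨j, by omega, fun i hi => ?_⟩
    by_contra hcon
    have := wt_zero_lt hi (z := z) (by omega) (by omega)
    omega

/-! ### the operators -/

/-- `x_b ↦ v`, the other variables fixed -/
noncomputable def sbv (b : Fin n) (v : MvPolynomial (Fin n) (ZMod 2)) :
    MvPolynomial (Fin n) (ZMod 2) →ₐ[ZMod 2] MvPolynomial (Fin n) (ZMod 2) :=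
  aeval (fun i => if i = b then v else X i)

theorem sbv_mono (b : Fin n) (v : MvPolynomial (Fin n) (ZMod 2)) (z : Fin n → ℕ) :
    sbv b v (mono z) = v ^ z b * mono (Function.update z b 0) := by
  unfold sbv
  rw [aeval_mono, mono_eq_prod, ← Finset.mul_prod_erase _ _ (Finset.mem_univ b),
    ← Finset.mul_prod_erase Finset.univ
      (fun i => (X i : MvPolynomial (Fin n) (ZMod 2)) ^ (Function.update z b 0) i)
      (Finset.mem_univ b),
    if_pos rfl, Function.update_self, pow_zero, one_mul]
  congr 1
  refine Finset.prod_congr rfl fun j hj => ?_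
  rw [Finset.mem_erase] at hj
  rw [if_neg hj.1, Function.update_of_ne hj.1]

theorem sbv_zero_mono (b : Fin n) (z : Fin n → ℕ) :
    sbv b 0 (mono z) = if z b = 0 then mono z else 0 := by
  rw [sbv_mono]
  split_ifs with h
  · have h1 : Function.update z b 0 = z := by
      rw [← h, Function.update_eq_self]
    rw [h1, h, pow_zero, one_mul]
  · rw [zero_pow h, zero_mul]

theorem sbv_hits (b : Fin n) {v : MvPolynomial (Fin n) (ZMod 2)} (hv : Lin n v)
    {g : MvPolynomial (Fin n) (ZMod 2)} (hg : g ∈ hits n) : sbv b v g ∈ hits n := by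
  refine aeval_hits _ (fun i => ?_) hg
  split_ifs
  · exact hv
  · exact lin_X i

/-- `G_j`: monomials without `x_b` and with odd exponents elsewhere go to `x_b f / x_j` -/
noncomputable def gop (b j : Fin n) :
    MvPolynomial (Fin n) (ZMod 2) →ₗ[ZMod 2] MvPolynomial (Fin n) (ZMod 2) :=
  lin (fun z => if z b = 0 ∧ ∀ i, i ≠ b → z i % 2 = 1 then
    mono (Function.update (Function.update z j (z j - 1)) b 1) else 0)

/-- `Z` -/
noncomputable def zop (b : Fin n) (J : Finset (Fin n)) :
    MvPolynomial (Fin n) (ZMod 2) →ₗ[ZMod 2] MvPolynomial (Fin n) (ZMod 2) :=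
  ∑ j ∈ J, gop b j ∘ₗ (sbv b (X j)).toLinearMap

/-- `1 - Omega` -/
noncomputable def rop (b : Fin n) (J : Finset (Fin n)) :
    MvPolynomial (Fin n) (ZMod 2) →ₗ[ZMod 2] MvPolynomial (Fin n) (ZMod 2) :=
  (sbv b 0).toLinearMap + zop b J ∘ₗ (LinearMap.id + (sbv b 0).toLinearMap)

theorem gop_mono (b j : Fin n) (z : Fin n → ℕ) :
    gop b j (mono z) = if z b = 0 ∧ ∀ i, i ≠ b → z i % 2 = 1 then
      mono (Function.update (Function.update z j (z j - 1)) b 1) else 0 :=
  lin_mono _ z

theorem sum_upd {b j : Fin n} (hj : j ≠ b) {z : Fin n → ℕ} (h1 : z b = 0) (h2 : z j % 2 = 1) :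
    ∑ i, (Function.update (Function.update z j (z j - 1)) b 1) i = ∑ i, z i := by
  rw [sum_two hj, sum_two hj z]
  have h3 : ∑ i ∈ (Finset.univ.erase b).erase j,
      (Function.update (Function.update z j (z j - 1)) b 1) i =
      ∑ i ∈ (Finset.univ.erase b).erase j, z i := by
    refine Finset.sum_congr rfl fun i hi => ?_
    rw [Finset.mem_erase, Finset.mem_erase] at hi
    rw [Function.update_of_ne hi.2.1, Function.update_of_ne hi.1]
  rw [h3, Function.update_self, Function.update_of_ne hj, Function.update_self, h1]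
  omega

theorem hc_gop {b j : Fin n} (hj : j ≠ b) (m : ℕ) (g : MvPolynomial (Fin n) (ZMod 2)) :
    gop b j (homogeneousComponent m g) = homogeneousComponent m (gop b j g) := by
  have h : ∀ g : MvPolynomial (Fin n) (ZMod 2),
      (gop b j ∘ₗ homogeneousComponent m + homogeneousComponent m ∘ₗ gop b j) g ∈
        (⊥ : Submodule (ZMod 2) (MvPolynomial (Fin n) (ZMod 2))) := by
    intro g
    refine map_msp _ ⊥ (Q := fun _ => True) (fun y _ => ?_) (mem_msp_top g)
    rw [LinearMap.add_apply, LinearMap.comp_apply, LinearMap.comp_apply, hc_mono, gop_mono]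
    by_cases hc : y b = 0 ∧ ∀ i, i ≠ b → y i % 2 = 1
    · rw [if_pos hc, hc_mono, sum_upd hj hc.1 (hc.2 j hj)]
      by_cases hm : m = ∑ i, y i
      · rw [if_pos hm, if_pos hm, gop_mono, if_pos hc, CharTwo.add_self_eq_zero]
        exact Submodule.zero_mem _
      · rw [if_neg hm, if_neg hm, map_zero, add_zero]
        exact Submodule.zero_mem _
    · rw [if_neg hc, map_zero, add_zero]
      by_cases hm : m = ∑ i, y i
      · rw [if_pos hm, gop_mono, if_neg hc]
        exact Submodule.zero_mem _
      · rw [if_neg hm, map_zero]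
        exact Submodule.zero_mem _
  have h1 := h g
  rw [Submodule.mem_bot, LinearMap.add_apply, LinearMap.comp_apply, LinearMap.comp_apply] at h1
  exact CharTwo.add_eq_zero.mp h1

theorem gop_eq_zero {b j : Fin n} {z : Fin n → ℕ} (h : wt z 0 ≠ n - 1) :
    gop b j (mono z) = 0 := by
  rw [gop_mono, if_neg (fun hc => h (wt_zero_pred (by rw [hc.1]) hc.2))]

/-- the exponent vector `η'` without `x_j` and with `x_b` -/
def et (b j : Fin n) (η : Fin n → ℕ) : Fin n → ℕ :=
  Function.update (Function.update η j 0) b 1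

theorem gop_frob {b j : Fin n} {η : Fin n → ℕ} (h1 : η b = 0)
    (h2 : ∀ i, i ≠ b → η i = 1) (g : MvPolynomial (Fin n) (ZMod 2)) :
    gop b j (frob 1 η g) = frob 1 (et b j η) (sbv b 0 g) := by
  have h : ∀ g : MvPolynomial (Fin n) (ZMod 2),
      (gop b j ∘ₗ frob 1 η + frob 1 (et b j η) ∘ₗ (sbv b 0).toLinearMap) g ∈
        (⊥ : Submodule (ZMod 2) (MvPolynomial (Fin n) (ZMod 2))) := by
    intro g
    refine map_msp _ ⊥ (Q := fun _ => True) (fun y _ => ?_) (mem_msp_top g)
    rw [LinearMap.add_apply, LinearMap.comp_apply, LinearMap.comp_apply, frob_mono,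
      AlgHom.toLinearMap_apply, sbv_zero_mono, gop_mono]
    by_cases hy : y b = 0
    · have hc : ex 1 η y b = 0 ∧ ∀ i, i ≠ b → ex 1 η y i % 2 = 1 := by
        refine ⟨by unfold ex; rw [h1, hy]; rfl, fun i hi => ?_⟩
        unfold ex
        rw [h2 i hi]
        omega
      rw [if_pos hc, if_pos hy, frob_mono]
      have e : Function.update (Function.update (ex 1 η y) j (ex 1 η y j - 1)) b 1 =
          ex 1 (et b j η) y := by
        funext i
        unfold ex et
        by_cases hi : i = b
        · subst hi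
          rw [Function.update_self, Function.update_self, hy]
          rfl
        · rw [Function.update_of_ne hi, Function.update_of_ne hi]
          by_cases hij : i = j
          · subst hij
            rw [Function.update_self, Function.update_self, h2 i hi]
            omega
          · rw [Function.update_of_ne hij, Function.update_of_ne hij]
      rw [e, CharTwo.add_self_eq_zero]
      exact Submodule.zero_mem _
    · rw [if_neg hy, map_zero, add_zero, if_neg]
      · exact Submodule.zero_mem _
      · rintro ⟨hc, -⟩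
        unfold ex at hc
        omega
  have h3 := h g
  rw [Submodule.mem_bot, LinearMap.add_apply, LinearMap.comp_apply, LinearMap.comp_apply,
    AlgHom.toLinearMap_apply] at h3
  exact CharTwo.add_eq_zero.mp h3

theorem gop_frob_zero {b j : Fin n} {η : Fin n → ℕ} {i : Fin n} (hi : i ≠ b) (h : η i = 0)
    (g : MvPolynomial (Fin n) (ZMod 2)) : gop b j (frob 1 η g) = 0 := by
  have h1 : (gop b j ∘ₗ frob 1 η) g ∈
      (⊥ : Submodule (ZMod 2) (MvPolynomial (Fin n) (ZMod 2))) := by
    refine map_msp _ ⊥ (Q := fun _ => True) (fun y _ => ?_) (mem_msp_top g)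
    rw [LinearMap.comp_apply, frob_mono, gop_mono, if_neg]
    · exact Submodule.zero_mem _
    · rintro ⟨-, hc⟩
      have := hc i hi
      unfold ex at this
      rw [h] at this
      omega
  rwa [Submodule.mem_bot, LinearMap.comp_apply] at h1

theorem sq_split (k : ℕ) (η v : Fin n → ℕ) :
    Sq n (mono (ex k η v)) + mono (ex k η v) =
      (Sq n (mono η) + mono η) * (Sq n (mono v)) ^ (2 ^ k) +
        frob k η (Sq n (mono v) + mono v) := by
  rw [map_add, frob_mono, frob_apply]
  have e1 : Sq n (mono (ex k η v)) = Sq n (mono η) * (Sq n (mono v)) ^ (2 ^ k) := by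
    rw [← frob_mono, frob_apply, map_mul, map_pow]
  rw [e1, add_mul]
  have : ∀ A B C : MvPolynomial (Fin n) (ZMod 2), A + C = A + B + (B + C) := by
    intro A B C
    have h : A + B + (B + C) = A + C + (B + B) := by ring
    rw [h, CharTwo.add_self_eq_zero, add_zero]
  exact this _ _ _

theorem gop_hits {b j : Fin n} (hj : j ≠ b) {g : MvPolynomial (Fin n) (ZMod 2)}
    (hg : g ∈ hits n) : gop b j g ∈ hits n ⊔ msp (fun z => wt z 0 < n - 1) := by
  refine map_hits (gop b j) _ (graded_hm _) (fun m => Or.inl ⟨m, hc_gop hj m⟩) ?_ hg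
  intro z
  by_cases hz : z b = 0
  · obtain ⟨η, hη⟩ : ∃ η : Fin n → ℕ, η = fun i => z i % 2 := ⟨_, rfl⟩
    obtain ⟨v, hv⟩ : ∃ v : Fin n → ℕ, v = fun i => z i / 2 := ⟨_, rfl⟩
    have hz2 : z = ex 1 η v := by
      funext i
      unfold ex
      rw [hη, hv]
      simp only [pow_one]
      omega
    have hη2 : ∀ i, η i < 2 ^ 1 := by
      intro i
      rw [hη]
      simp only [pow_one]
      omega
    have hη1 : η b = 0 := by
      rw [hη]
      simp only [hz]
    rw [hz2, sq_split, map_add]
    refine Submodule.add_mem _ ?_ ?_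
    · have h1 := low_mul_pow (sq_low hη2) (Sq n (mono v))
      have h2 : gop b j ((Sq n (mono η) + mono η) * Sq n (mono v) ^ 2 ^ 1) ∈
          (⊥ : Submodule (ZMod 2) (MvPolynomial (Fin n) (ZMod 2))) := by
        refine map_msp (gop b j) ⊥ (fun y hy => ?_) h1
        obtain ⟨s, hs, -, h3⟩ := hy
        have hs0 : s = 0 := by omega
        rw [hs0] at h3
        have h4 : wt η 0 ≤ n - 1 := wt_zero_le_pred (i := b) (by rw [hη1])
        rw [gop_eq_zero (by omega)]
        exact Submodule.zero_mem _
      rw [Submodule.mem_bot] at h2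
      rw [h2]
      exact Submodule.zero_mem _
    · by_cases hall : ∀ i, i ≠ b → η i = 1
      · rw [gop_frob hη1 hall, frob_apply]
        have h5 : ∀ i, et b j η i < 2 ^ 1 := by
          intro i
          unfold et
          by_cases hi : i = b
          · subst hi
            rw [Function.update_self]
            norm_num
          · rw [Function.update_of_ne hi]
            by_cases hij : i = j
            · subst hij
              rw [Function.update_self]
              norm_num
            · rw [Function.update_of_ne hij]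
              exact hη2 i
        have h6 := mono_mul_hit h5 (sbv_hits b lin_zero (sq_add_mem' v))
        refine sup_le_sup_left (msp_mono fun y hy => ?_) _ h6
        obtain ⟨s, hs, -, h3⟩ := hy
        have hs0 : s = 0 := by omega
        rw [hs0] at h3
        have h7 : wt (et b j η) 0 ≤ n - 1 := by
          refine wt_zero_le_pred (i := j) ?_
          unfold et
          rw [Function.update_of_ne hj, Function.update_self]
        exact lt_of_lt_of_le h3 h7
      · push Not at hall
        obtain ⟨i, hi, hi2⟩ := hall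
        rw [gop_frob_zero hi (by have := hη2 i; omega)]
        exact Submodule.zero_mem _
  · have h2 : gop b j (Sq n (mono z) + mono z) ∈
        (⊥ : Submodule (ZMod 2) (MvPolynomial (Fin n) (ZMod 2))) := by
      refine map_msp (gop b j) ⊥ (fun y hy => ?_) (sq_add_mono_mem z)
      obtain ⟨c, rfl, -, -⟩ := hy
      rw [gop_mono, if_neg]
      · exact Submodule.zero_mem _
      · rintro ⟨h3, -⟩
        rw [Pi.add_apply] at h3
        omega
    rw [Submodule.mem_bot] at h2
    rw [h2]
    exact Submodule.zero_mem _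

theorem zop_apply (b : Fin n) (J : Finset (Fin n)) (g : MvPolynomial (Fin n) (ZMod 2)) :
    zop b J g = ∑ j ∈ J, gop b j (sbv b (X j) g) := by
  unfold zop
  rw [LinearMap.sum_apply]
  rfl

theorem zop_hits {b : Fin n} {J : Finset (Fin n)} (hJ : b ∉ J)
    {g : MvPolynomial (Fin n) (ZMod 2)} (hg : g ∈ hits n) :
    zop b J g ∈ hits n ⊔ msp (fun z => wt z 0 < n - 1) := by
  rw [zop_apply]
  refine Submodule.sum_mem _ fun j hj => ?_
  exact gop_hits (ne_of_mem_of_not_mem hj hJ) (sbv_hits b (lin_X j) hg)

theorem rop_apply (b : Fin n) (J : Finset (Fin n)) (f : MvPolynomial (Fin n) (ZMod 2)) :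
    rop b J f = sbv b 0 f + zop b J (f + sbv b 0 f) := rfl

theorem rop_hits {b : Fin n} {J : Finset (Fin n)} (hJ : b ∉ J)
    {g : MvPolynomial (Fin n) (ZMod 2)} (hg : g ∈ hits n) :
    rop b J g ∈ hits n ⊔ msp (fun z => wt z 0 < n - 1) := by
  rw [rop_apply]
  have h := sbv_hits b lin_zero hg
  exact Submodule.add_mem _ (Submodule.mem_sup_left h) (zop_hits hJ (Submodule.add_mem _ hg h))

end Pool.Agent.SUC
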