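import Pool.Agent.SUC.Multi2
import Pool.Agent.SUC.OmegaA

set_option autoImplicit false

/-!
# The correction given by one variable with exponent `1` or `2` modulo `4`
-/

namespace Pool.Agent.SUC

open Pool.Agent.Helper60.Hit MvPolynomial Pool.Agent.CTL45 Pool.Agent.HitD5 Pool.Agent.HitAB

variable {n : ℕ}

/-- `m` units are moved from `q` to `b` -/
def mvq (q b : Fin n) (z : Fin n → ℕ) (m : ℕ) : Fin n → ℕ :=
  Function.update (Function.update z q (z q - m)) b (z b + m)

theorem mvq_b (q b : Fin n) (z : Fin n → ℕ) (m : ℕ) : mvq q b z m b = z b + m := by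
  unfold mvq
  rw [Function.update_self]

theorem mvq_q {q b : Fin n} (h : q ≠ b) (z : Fin n → ℕ) (m : ℕ) : mvq q b z m q = z q - m := by
  unfold mvq
  rw [Function.update_of_ne h, Function.update_self]

theorem mvq_other {q b i : Fin n} (h1 : i ≠ q) (h2 : i ≠ b) (z : Fin n → ℕ) (m : ℕ) :
    mvq q b z m i = z i := by
  unfold mvq
  rw [Function.update_of_ne h2, Function.update_of_ne h1]

/-- two vectors which agree outside two places and at these places -/
theorem eq_of_two {q b : Fin n} {y z : Fin n → ℕ} (hq : y q = z q) (hb : y b = z b)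
    (h : ∀ i, i ≠ q → i ≠ b → y i = z i) : y = z := by
  funext i
  by_cases h1 : i = q
  · rw [h1]; exact hq
  · by_cases h2 : i = b
    · rw [h2]; exact hb
    · exact h i h1 h2

/-- the operator `1 + tau`, `tau : x_q ↦ x_q + x_b` -/
noncomputable def dtq (q b : Fin n) :
    MvPolynomial (Fin n) (ZMod 2) →ₗ[ZMod 2] MvPolynomial (Fin n) (ZMod 2) :=
  LinearMap.id + (sbv q (X q + X b)).toLinearMap

theorem dtq_apply (q b : Fin n) (f : MvPolynomial (Fin n) (ZMod 2)) :
    dtq q b f = f + sbv q (X q + X b) f := rfl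

theorem dtq_hits (q b : Fin n) {g : MvPolynomial (Fin n) (ZMod 2)} (hg : g ∈ hits n) :
    dtq q b g ∈ hits n := by
  rw [dtq_apply]
  exact Submodule.add_mem _ hg (sbv_hits q (lin_add (lin_X q) (lin_X b)) hg)

theorem dtq_mono {q b : Fin n} (h : q ≠ b) (z : Fin n → ℕ) :
    dtq q b (mono z) = ∑ m ∈ Finset.range (z q),
      (((z q).choose (m + 1) : ℕ) : MvPolynomial (Fin n) (ZMod 2)) * mono (mvq q b z (m + 1)) := by
  have h1 : ∀ m ∈ Finset.range (z q + 1),
      ((X b : MvPolynomial (Fin n) (ZMod 2)) ^ m * X q ^ (z q - m) *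
        (((z q).choose m : ℕ) : MvPolynomial (Fin n) (ZMod 2))) * mono (Function.update z q 0) =
      (((z q).choose m : ℕ) : MvPolynomial (Fin n) (ZMod 2)) * mono (mvq q b z m) := by
    intro m hm
    have h2 : mvq q b z m = Pi.single b m + Pi.single q (z q - m) + Function.update z q 0 := by
      funext i
      rw [Pi.add_apply, Pi.add_apply]
      by_cases hi : i = q
      · subst hi
        rw [mvq_q h, Pi.single_eq_of_ne h, Pi.single_eq_same, Function.update_self]
        omega
      · by_cases hib : i = b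
        · subst hib
          rw [mvq_b, Pi.single_eq_same, Pi.single_eq_of_ne hi, Function.update_of_ne hi]
          omega
        · rw [mvq_other hi hib, Pi.single_eq_of_ne hib, Pi.single_eq_of_ne hi,
            Function.update_of_ne hi]
          omega
    rw [h2, mono_add, mono_add, X_pow_eq_mono, X_pow_eq_mono]
    ring
  have h3 : mvq q b z 0 = z := eq_of_two (by rw [mvq_q h, Nat.sub_zero])
    (by rw [mvq_b, Nat.add_zero]) (fun i hi hib => mvq_other hi hib z 0)
  rw [dtq_apply, sbv_mono, add_comm (X q) (X b), add_pow, Finset.sum_mul,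
    Finset.sum_congr rfl h1, Finset.sum_range_succ', h3, Nat.choose_zero_right, Nat.cast_one,
    one_mul, add_comm, add_assoc, CharTwo.add_self_eq_zero, add_zero]

theorem mvq_le {q b : Fin n} (h : q ≠ b) {z : Fin n → ℕ} {m : ℕ}
    (hc : (z q).choose m % 2 = 1) : LexLE (wt (mvq q b z m)) (wt z) := by
  obtain ⟨R, e1, e2⟩ := wt_two h (z := z) (y := mvq q b z m)
    (fun i hi hiq => mvq_other hiq hi z m)
  have hs : bt (z q) = bt m + bt (z q - m) := by
    obtain ⟨_, hb⟩ := lucas_bits (z q) m hc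
    funext s
    rw [Pi.add_apply]
    exact hb s
  rw [e1, e2, mvq_b, mvq_q h, hs]
  have h1 := LexLE.add_right (bt_add_le (z b) m) (bt (z q - m) + R)
  have e3 : bt (z b) + bt m + (bt (z q - m) + R) =
      bt (z b) + (bt m + bt (z q - m) + R) := by abel
  rw [e3] at h1
  exact h1

/-- a sum of terms with coefficients -/
theorem nat_mul_mem (N : Submodule (ZMod 2) (MvPolynomial (Fin n) (ZMod 2))) {a : ℕ}
    {f : MvPolynomial (Fin n) (ZMod 2)} (h : a % 2 = 1 → f ∈ N) :
    ((a : ℕ) : MvPolynomial (Fin n) (ZMod 2)) * f ∈ N := by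
  rcases Nat.mod_two_eq_zero_or_one a with h1 | h1
  · have h2 : ((a : ℕ) : MvPolynomial (Fin n) (ZMod 2)) = 0 := by
      rw [CharP.cast_eq_zero_iff (MvPolynomial (Fin n) (ZMod 2)) 2]
      exact Nat.dvd_of_mod_eq_zero h1
    rw [h2, zero_mul]
    exact Submodule.zero_mem _
  · have h2 : ((a : ℕ) : MvPolynomial (Fin n) (ZMod 2)) = 1 := by
      rw [← Nat.div_add_mod a 2, h1]
      push_cast
      rw [show (2 : MvPolynomial (Fin n) (ZMod 2)) = 0 from CharTwo.two_eq_zero, zero_mul, zero_add]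
    rw [h2, one_mul]
    exact h h1

/-- all terms of `(1 + tau) z` -/
theorem dtq_mem {q b : Fin n} (h : q ≠ b) (z : Fin n → ℕ)
    (N : Submodule (ZMod 2) (MvPolynomial (Fin n) (ZMod 2)))
    (hN : ∀ m, 0 < m → (z q).choose m % 2 = 1 → mono (mvq q b z m) ∈ N) :
    dtq q b (mono z) ∈ N := by
  rw [dtq_mono h]
  exact Submodule.sum_mem _ fun m _ => nat_mul_mem N fun h1 => hN _ (Nat.succ_pos m) h1

/-- the correction operator -/
noncomputable def thq (q b : Fin (n + 1)) :
    MvPolynomial (Fin (n + 1)) (ZMod 2) →ₗ[ZMod 2] MvPolynomial (Fin (n + 1)) (ZMod 2) :=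
  dtq q b ∘ₗ CM b {b, q}

theorem thq_mono (q b : Fin (n + 1)) (z : Fin (n + 1) → ℕ) :
    thq q b (mono z) = dtq q b (Cr {b, q} (z b) * mono (Function.update z b 0)) := by
  unfold thq
  rw [LinearMap.comp_apply, CM_mono]

theorem thq_hits (q b : Fin (n + 1)) {g : MvPolynomial (Fin (n + 1)) (ZMod 2)}
    (hg : g ∈ hits (n + 1)) : thq q b g ∈ hits (n + 1) := by
  unfold thq
  rw [LinearMap.comp_apply]
  exact dtq_hits q b (CM_hits _ _ hg)

theorem thq_kill {q b : Fin (n + 1)} (h : q ≠ b) {z : Fin (n + 1) → ℕ} (hz : z b < 3) :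
    thq q b (mono z) = 0 := by
  rw [thq_mono, Cr_eq_zero, zero_mul, map_zero]
  rw [Finset.card_pair (Ne.symm h)]
  norm_num
  exact hz

/-- the terms of the cross effect -/
theorem cm_term {q b : Fin (n + 1)} (h : q ≠ b) {z c' : Fin (n + 1) → ℕ}
    (hc : Good {b, q} (z b) c') :
    LexLE (wt (c' + Function.update z b 0)) (wt z) ∧
      ∀ i, i ≠ q → i ≠ b → (c' + Function.update z b 0) i = z i := by
  have hother : ∀ i, i ≠ q → i ≠ b → (c' + Function.update z b 0) i = z i := by
    intro i hi hib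
    have h1 : c' i = 0 := by
      by_contra hne
      have h2 := (hc.1 i).mp hne
      rw [Finset.mem_insert, Finset.mem_singleton] at h2
      rcases h2 with h2 | h2
      · exact hib h2
      · exact hi h2
    rw [Pi.add_apply, h1, Function.update_of_ne hib, zero_add]
  refine ⟨?_, hother⟩
  obtain ⟨R, e1, e2⟩ := wt_two h (z := z) (y := c' + Function.update z b 0)
    (fun i hi hiq => hother i hiq hi)
  have e3 : bt (z b) = bt (c' b) + bt (c' q) := by
    funext s
    have h1 := hc.2.2 s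
    have h2 : wt c' = ∑ i, bt (c' i) := wt_bt c'
    have h3 : ∑ i ∈ (Finset.univ.erase b).erase q, bt (c' i) = 0 := by
      refine Finset.sum_eq_zero fun i hi => ?_
      rw [Finset.mem_erase, Finset.mem_erase] at hi
      have h1 : c' i = 0 := by
        by_contra hne
        have h2 := (hc.1 i).mp hne
        rw [Finset.mem_insert, Finset.mem_singleton] at h2
        rcases h2 with h2 | h2
        · exact hi.2.1 h2
        · exact hi.1 h2
      rw [h1]
      funext s
      show 0 / 2 ^ s % 2 = 0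
      simp
    rw [sum_two h (fun i => bt (c' i)), h3, add_zero] at h2
    rw [← h2, h1]
    rfl
  have e4 : (c' + Function.update z b 0) b = c' b := by
    rw [Pi.add_apply, Function.update_self, add_zero]
  have e5 : (c' + Function.update z b 0) q = c' q + z q := by
    rw [Pi.add_apply, Function.update_of_ne h]
  rw [e1, e2, e3, e4, e5]
  have h1 := LexLE.add_right (bt_add_le (c' q) (z q)) (bt (c' b) + R)
  have e6 : bt (c' q + z q) + (bt (c' b) + R) = bt (c' b) + (bt (c' q + z q) + R) := by abel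
  have e7 : bt (c' q) + bt (z q) + (bt (c' b) + R) =
      bt (c' b) + bt (c' q) + (bt (z q) + R) := by abel
  rw [e6, e7] at h1
  exact h1

theorem thq_gen {q b : Fin (n + 1)} (h : q ≠ b) (z : Fin (n + 1) → ℕ) :
    thq q b (mono z) ∈ msp (fun z' => LexLE (wt z') (wt z) ∧
      ∀ i, i ≠ q → i ≠ b → z' i = z i) := by
  rw [thq_mono]
  refine map_msp (dtq q b) _ (Q := fun z' => LexLE (wt z') (wt z) ∧
    ∀ i, i ≠ q → i ≠ b → z' i = z i) (fun y hy => ?_) (summand_mem fun c' hc => cm_term h hc)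
  refine dtq_mem h y _ fun m _ hm => mono_mem_msp ⟨LexLE.trans (mvq_le h hm) hy.1, ?_⟩
  intro i hi hib
  rw [mvq_other hi hib, hy.2 i hi hib]

theorem Cr_pair_three {q b : Fin (n + 1)} (h : q ≠ b) :
    Cr {b, q} 3 = (X b ^ 2 * X q + X b * X q ^ 2 : MvPolynomial (Fin (n + 1)) (ZMod 2)) := by
  have h0 : b ∉ ({q} : Finset (Fin (n + 1))) := by
    rw [Finset.mem_singleton]; exact Ne.symm h
  have hps : ({q} : Finset (Fin (n + 1))).powerset = {∅, {q}} := by
    ext s
    rw [Finset.mem_powerset, Finset.subset_singleton_iff, Finset.mem_insert,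
      Finset.mem_singleton]
  unfold Cr
  rw [Finset.sum_powerset_insert h0, hps, Finset.sum_pair (by
    exact (Finset.singleton_ne_empty q).symm), Finset.sum_pair (by
    exact (Finset.singleton_ne_empty q).symm)]
  rw [Finset.sum_empty, Finset.sum_singleton, Finset.sum_insert h0, Finset.sum_singleton,
    insert_empty_eq, Finset.sum_singleton]
  have h2 : (2 : MvPolynomial (Fin (n + 1)) (ZMod 2)) = 0 := CharTwo.two_eq_zero
  linear_combination (X q ^ 3 + X b ^ 3 + X b ^ 2 * X q + X b * X q ^ 2) * h2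

/-- smaller than `z` at `q` -/
def Rq (q b : Fin n) (z z' : Fin n → ℕ) : Prop :=
  LexLT (wt z') (wt z) ∨
    (LexLE (wt z') (wt z) ∧ (∀ i, i ≠ q → i ≠ b → z' i = z i) ∧ z' q < z q)

theorem thq_three {q b : Fin (n + 1)} (h : q ≠ b) {z : Fin (n + 1) → ℕ} (hz : z b = 3) :
    thq q b (mono z) + ((z q + 1 + (z q + 2).choose 2 : ℕ) :
      MvPolynomial (Fin (n + 1)) (ZMod 2)) * mono z ∈ msp (Rq q b z) := by
  have hbq : b ≠ q := Ne.symm h
  -- the two terms of the cross effect
  obtain ⟨A, hA⟩ : ∃ A : Fin (n + 1) → ℕ, A = Function.update (Function.update z q (z q + 1)) b 2 :=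
    ⟨_, rfl⟩
  obtain ⟨B, hB⟩ : ∃ B : Fin (n + 1) → ℕ, B = Function.update (Function.update z q (z q + 2)) b 1 :=
    ⟨_, rfl⟩
  have hAb : A b = 2 := by rw [hA, Function.update_self]
  have hAq : A q = z q + 1 := by rw [hA, Function.update_of_ne h, Function.update_self]
  have hAo : ∀ i, i ≠ q → i ≠ b → A i = z i := fun i hi hib => by
    rw [hA, Function.update_of_ne hib, Function.update_of_ne hi]
  have hBb : B b = 1 := by rw [hB, Function.update_self]
  have hBq : B q = z q + 2 := by rw [hB, Function.update_of_ne h, Function.update_self]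
  have hBo : ∀ i, i ≠ q → i ≠ b → B i = z i := fun i hi hib => by
    rw [hB, Function.update_of_ne hib, Function.update_of_ne hi]
  have hbt1 : bt 3 = bt 1 + bt 2 := by
    funext s
    have := (lucas_bits 3 1 (by decide)).2 s
    exact this
  have hwA : LexLE (wt A) (wt z) := by
    obtain ⟨R, e1, e2⟩ := wt_two h (z := z) (y := A) (fun i hi hiq => hAo i hiq hi)
    rw [e1, e2, hz, hAb, hAq, hbt1]
    have h1 := LexLE.add_right (bt_add_le (z q) 1) (bt 2 + R)
    have e3 : bt (z q + 1) + (bt 2 + R) = bt 2 + (bt (z q + 1) + R) := by abel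
    have e4 : bt (z q) + bt 1 + (bt 2 + R) = bt 1 + bt 2 + (bt (z q) + R) := by abel
    rw [e3, e4] at h1
    exact h1
  have hwB : LexLE (wt B) (wt z) := by
    obtain ⟨R, e1, e2⟩ := wt_two h (z := z) (y := B) (fun i hi hiq => hBo i hiq hi)
    rw [e1, e2, hz, hBb, hBq, hbt1]
    have h1 := LexLE.add_right (bt_add_le (z q) 2) (bt 1 + R)
    have e3 : bt (z q + 2) + (bt 1 + R) = bt 1 + (bt (z q + 2) + R) := by abel
    have e4 : bt (z q) + bt 2 + (bt 1 + R) = bt 1 + bt 2 + (bt (z q) + R) := by abel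
    rw [e3, e4] at h1
    exact h1
  have hlA : z q % 2 = 1 → LexLT (wt A) (wt z) := by
    intro hodd
    refine ⟨0, fun l hl => absurd hl (Nat.not_lt_zero l), ?_⟩
    obtain ⟨R, e1, e2⟩ := wt_two h (z := z) (y := A) (fun i hi hiq => hAo i hiq hi)
    rw [e1, e2, hz, hAb, hAq]
    show 2 / 2 ^ 0 % 2 + ((z q + 1) / 2 ^ 0 % 2 + R 0) < 3 / 2 ^ 0 % 2 + (z q / 2 ^ 0 % 2 + R 0)
    omega
  have e0 : thq q b (mono z) = dtq q b (mono A) + dtq q b (mono B) := by
    rw [thq_mono, hz, Cr_pair_three h, ← map_add]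
    congr 1
    have h1 : A = Pi.single b 2 + Pi.single q 1 + Function.update z b 0 :=
      eq_of_two (q := q) (b := b)
        (by rw [Pi.add_apply, Pi.add_apply, Pi.single_eq_of_ne h, Pi.single_eq_same,
          Function.update_of_ne h, hAq]; omega)
        (by rw [Pi.add_apply, Pi.add_apply, Pi.single_eq_same, Pi.single_eq_of_ne hbq,
          Function.update_self, hAb, add_zero, add_zero])
        (fun i hi hib => by
          rw [Pi.add_apply, Pi.add_apply, Pi.single_eq_of_ne hi, Pi.single_eq_of_ne hib,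
            Function.update_of_ne hib, hAo i hi hib]; omega)
    have h2 : B = Pi.single b 1 + Pi.single q 2 + Function.update z b 0 :=
      eq_of_two (q := q) (b := b)
        (by rw [Pi.add_apply, Pi.add_apply, Pi.single_eq_of_ne h, Pi.single_eq_same,
          Function.update_of_ne h, hBq]; omega)
        (by rw [Pi.add_apply, Pi.add_apply, Pi.single_eq_same, Pi.single_eq_of_ne hbq,
          Function.update_self, hBb, add_zero, add_zero])
        (fun i hi hib => by
          rw [Pi.add_apply, Pi.add_apply, Pi.single_eq_of_ne hi, Pi.single_eq_of_ne hib,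
            Function.update_of_ne hib, hBo i hi hib]; omega)
    rw [h1, h2, mono_add, mono_add, mono_add, mono_add, ← X_pow_eq_mono, ← X_pow_eq_mono,
      ← X_pow_eq_mono, ← X_pow_eq_mono]
    ring
  have hmA : mvq q b A 1 = z := eq_of_two (by rw [mvq_q h, hAq, Nat.add_sub_cancel])
    (by rw [mvq_b, hAb, hz]) (fun i hi hib => by rw [mvq_other hi hib, hAo i hi hib])
  have hmB1 : mvq q b B 1 = A := eq_of_two (q := q) (b := b)
    (by rw [mvq_q h, hBq, hAq]; omega)
    (by rw [mvq_b, hBb, hAb]) (fun i hi hib => by rw [mvq_other hi hib, hBo i hi hib, hAo i hi hib])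
  have hmB2 : mvq q b B 2 = z := eq_of_two (by rw [mvq_q h, hBq, Nat.add_sub_cancel])
    (by rw [mvq_b, hBb, hz]) (fun i hi hib => by rw [mvq_other hi hib, hBo i hi hib])
  have dA : dtq q b (mono A) + ((z q + 1 : ℕ) : MvPolynomial (Fin (n + 1)) (ZMod 2)) * mono z ∈
      msp (Rq q b z) := by
    rw [dtq_mono h, hAq, Finset.sum_range_succ', zero_add, Nat.choose_one_right, hmA, add_assoc,
      CharTwo.add_self_eq_zero, add_zero]
    refine Submodule.sum_mem _ fun m hm => nat_mul_mem _ fun hodd => mono_mem_msp (Or.inr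
      ⟨LexLE.trans (mvq_le h (by rw [hAq]; exact hodd)) hwA, fun i hi hib => ?_, ?_⟩)
    · rw [mvq_other hi hib, hAo i hi hib]
    · rw [Finset.mem_range] at hm
      rw [mvq_q h, hAq]
      omega
  have dB : dtq q b (mono B) + (((z q + 2).choose 2 : ℕ) :
      MvPolynomial (Fin (n + 1)) (ZMod 2)) * mono z ∈ msp (Rq q b z) := by
    rw [dtq_mono h, hBq, Finset.sum_range_succ', Finset.sum_range_succ']
    have e1 : 0 + 1 + 1 = 2 := rfl
    rw [e1, hmB2, zero_add, hmB1, Nat.choose_one_right]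
    have e2 : ∀ P Q S : MvPolynomial (Fin (n + 1)) (ZMod 2), P + Q + S + Q = P + S := by
      intro P Q S
      have : P + Q + S + Q = P + S + (Q + Q) := by ring
      rw [this, CharTwo.add_self_eq_zero, add_zero]
    rw [e2]
    refine Submodule.add_mem _ (Submodule.sum_mem _ fun m hm => nat_mul_mem _ fun hodd =>
      mono_mem_msp (Or.inr ⟨LexLE.trans (mvq_le h (by rw [hBq]; exact hodd)) hwB,
        fun i hi hib => ?_, ?_⟩)) (nat_mul_mem _ fun hodd => mono_mem_msp (Or.inl (hlA ?_)))
    · rw [mvq_other hi hib, hBo i hi hib]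
    · rw [Finset.mem_range] at hm
      rw [mvq_q h, hBq]
      omega
    · omega
  have h1 := Submodule.add_mem _ dA dB
  rw [e0]
  have e3 : ∀ P Q S T Z : MvPolynomial (Fin (n + 1)) (ZMod 2),
      P + S * Z + (Q + T * Z) = P + Q + (S + T) * Z := by
    intro P Q S T Z
    ring
  rw [e3] at h1
  have e4 : ((z q + 1 + (z q + 2).choose 2 : ℕ) : MvPolynomial (Fin (n + 1)) (ZMod 2)) =
      ((z q + 1 : ℕ) : MvPolynomial (Fin (n + 1)) (ZMod 2)) +
        (((z q + 2).choose 2 : ℕ) : MvPolynomial (Fin (n + 1)) (ZMod 2)) := by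
    rw [Nat.cast_add]
  rw [e4]
  exact h1

theorem coeff_odd {x : ℕ} (h : x % 4 = 1 ∨ x % 4 = 2) : (x + 1 + (x + 2).choose 2) % 2 = 1 := by
  have key : ∀ y : ℕ, (y + 2).choose 2 * 2 = (y + 2) * (y + 1) := by
    intro y
    rw [Nat.choose_two_right, Nat.div_mul_cancel]
    · rfl
    · exact (Nat.even_mul_pred_self (y + 2)).two_dvd
  rcases h with h | h
  · obtain ⟨k, hk⟩ : ∃ k, x = 4 * k + 1 := ⟨x / 4, by omega⟩
    have h1 := key x
    rw [hk] at h1 ⊢
    have h2 : (4 * k + 1 + 2).choose 2 = 2 * (4 * k * k + 5 * k + 1) + 1 := by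
      have h3 : (4 * k + 1 + 2) * (4 * k + 1 + 1) = (2 * (4 * k * k + 5 * k + 1) + 1) * 2 := by
        ring
      omega
    omega
  · obtain ⟨k, hk⟩ : ∃ k, x = 4 * k + 2 := ⟨x / 4, by omega⟩
    have h1 := key x
    rw [hk] at h1 ⊢
    have h2 : (4 * k + 2 + 2).choose 2 = 2 * ((k + 1) * (4 * k + 3)) := by
      have h3 : (4 * k + 2 + 2) * (4 * k + 2 + 1) = (2 * ((k + 1) * (4 * k + 3))) * 2 := by
        ring
      omega
    omega

/-- the correction operator for a variable with exponent `1` or `2` modulo `4` -/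
theorem th_cat {t : Fin (n + 1) → ℕ} {U : Fin (n + 1) → Prop} {q b : Fin (n + 1)}
    (hUq : ¬ U q) (hUb : ¬ U b) (hqb : q < b) (htb : t b = 3)
    (htq : t q % 4 = 1 ∨ t q % 4 = 2) : Th t U b (thq q b) := by
  have hne : q ≠ b := ne_of_lt hqb
  -- terms
  have hR : ∀ z z' : Fin (n + 1) → ℕ, LexLE (wt z) (wt t) → (∀ i ≤ q, z i = t i) → Rq q b z z' →
      Aft t U z' := by
    intro z z' hw hz hR
    rcases hR with h1 | ⟨h1, h2, h3⟩
    · exact Or.inl (h1.trans_le hw)
    · refine Or.inr ⟨LexLE.trans h1 hw, q, hUq, fun i hi => ?_, ?_⟩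
      · rw [h2 i (ne_of_lt hi) (ne_of_lt (hi.trans hqb)), hz i (le_of_lt hi)]
      · rw [← hz q le_rfl]; exact h3
  refine ⟨fun g hg => thq_hits q b hg, fun z hz => ?_, fun z => ?_, fun z hw hz => ?_,
    fun z hw f hUf hfb hf hf' hzb => ?_⟩
  · rw [htb] at hz
    exact thq_kill hne hz
  · refine msp_mono (fun z' hz' => ⟨hz'.1, fun i hi => hz'.2 i ?_ ?_⟩) (thq_gen hne z)
    · rintro rfl; exact hUq hi
    · rintro rfl; exact hUb hi
  · have h1 := thq_three hne (z := z) (by rw [hz b le_rfl, htb])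
    have h2 : ((z q + 1 + (z q + 2).choose 2 : ℕ) : MvPolynomial (Fin (n + 1)) (ZMod 2)) = 1 := by
      have h3 := coeff_odd (x := z q) (by rw [hz q (le_of_lt hqb)]; exact htq)
      rw [← Nat.div_add_mod (z q + 1 + (z q + 2).choose 2) 2, h3]
      push_cast
      rw [show (2 : MvPolynomial (Fin (n + 1)) (ZMod 2)) = 0 from CharTwo.two_eq_zero, zero_mul,
        zero_add]
    rw [h2, one_mul] at h1
    exact msp_mono (fun z' hz' => hR z z' hw (fun i hi => hz i (hi.trans (le_of_lt hqb))) hz') h1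
  · have h1 := thq_three hne (z := z) (by rw [hzb, htb])
    have h2 : ((z q + 1 + (z q + 2).choose 2 : ℕ) : MvPolynomial (Fin (n + 1)) (ZMod 2)) *
        mono z ∈ msp (Aft t U) :=
      nat_mul_mem _ fun _ => mono_mem_msp (Or.inr ⟨hw, f, hUf, hf, hf'⟩)
    have h3 : msp (Rq q b z) ≤ msp (Aft t U) := by
      refine msp_mono fun z' hz' => ?_
      rcases hz' with h4 | ⟨h4, h5, h6⟩
      · exact Or.inl (h4.trans_le hw)
      · have h7 : ∀ i < q, z' i = z i := fun i hi =>
          h5 i (ne_of_lt hi) (ne_of_lt (hi.trans hqb))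
        rcases lt_trichotomy f q with h8 | h8 | h8
        · refine Or.inr ⟨LexLE.trans h4 hw, f, hUf, fun i hi => ?_, ?_⟩
          · rw [h7 i (hi.trans h8), hf i hi]
          · rw [h7 f h8]; exact hf'
        · subst h8
          exact Or.inr ⟨LexLE.trans h4 hw, f, hUf, fun i hi => by rw [h7 i hi, hf i hi],
            h6.trans hf'⟩
        · exact Or.inr ⟨LexLE.trans h4 hw, q, hUq,
            fun i hi => by rw [h7 i hi, hf i (hi.trans h8)], by rw [← hf q h8]; exact h6⟩
    have h4 := Submodule.add_mem _ (h3 h1) h2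
    rw [add_assoc, CharTwo.add_self_eq_zero, add_zero] at h4
    exact h4

end Pool.Agent.SUC
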