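import Pool.Agent.HitAB.Gap2

set_option autoImplicit false

/-!
# Correcting several gaps at once

The `j`-th gap is the set of positions strictly between `w j` and `w (j + 1)`.  A gap is either
harmless (as in the gap criterion) or it carries an operator `Θ j` which kills all monomials with a
deficient exponent at `w (j + 1)` and changes the other ones only by smaller terms.
-/

namespace Pool.Agent.SUC

open Pool.Agent.Helper60.Hit MvPolynomial Pool.Agent.CTL45 Pool.Agent.HitD5 Pool.Agent.HitAB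

variable {n : ℕ}

/-- smaller than `t` with first difference outside `U`, or of smaller weight -/
def Aft (t : Fin n → ℕ) (U : Fin n → Prop) (z : Fin n → ℕ) : Prop :=
  LexLT (wt z) (wt t) ∨ (LexLE (wt z) (wt t) ∧ ∃ f, ¬ U f ∧ (∀ i < f, z i = t i) ∧ z f < t f)

/-- an operator for the positions between the initial segment `U` and `b` -/
structure Th (t : Fin n → ℕ) (U : Fin n → Prop) (b : Fin n)
    (Θ : MvPolynomial (Fin n) (ZMod 2) →ₗ[ZMod 2] MvPolynomial (Fin n) (ZMod 2)) : Prop where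
  hits : ∀ g ∈ hits n, Θ g ∈ hits n
  kill : ∀ z : Fin n → ℕ, z b < t b → Θ (mono z) = 0
  gen : ∀ z : Fin n → ℕ,
    Θ (mono z) ∈ msp (fun z' => LexLE (wt z') (wt z) ∧ ∀ i, U i → z' i = z i)
  full : ∀ z : Fin n → ℕ, LexLE (wt z) (wt t) → (∀ i ≤ b, z i = t i) →
    Θ (mono z) + mono z ∈ msp (Aft t U)
  low : ∀ z : Fin n → ℕ, LexLE (wt z) (wt t) → ∀ f, ¬ U f → f < b → (∀ i < f, z i = t i) →
    z f < t f → z b = t b → Θ (mono z) ∈ msp (Aft t U)

/-- the composition of the first `m` operators -/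
noncomputable def piop
    (Θ : ℕ → (MvPolynomial (Fin n) (ZMod 2) →ₗ[ZMod 2] MvPolynomial (Fin n) (ZMod 2))) :
    ℕ → (MvPolynomial (Fin n) (ZMod 2) →ₗ[ZMod 2] MvPolynomial (Fin n) (ZMod 2))
  | 0 => LinearMap.id
  | m + 1 => piop Θ m ∘ₗ Θ m

/-- the initial segments: `U` for the first gap, the positions up to `w j` for the `j`-th one -/
def UU (U : Fin n → Prop) (w : ℕ → Fin n) : ℕ → Fin n → Prop
  | 0 => U
  | j + 1 => fun i => i ≤ w (j + 1)

/-- the data: `w` increasing, for every `j < u` an operator or nothing -/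
structure Ms (t : Fin n → ℕ) (w : ℕ → Fin n) (u : ℕ) (U : Fin n → Prop) (G : ℕ → Prop)
    (Θ : ℕ → (MvPolynomial (Fin n) (ZMod 2) →ₗ[ZMod 2] MvPolynomial (Fin n) (ZMod 2))) :
    Prop where
  inc : ∀ i j, i < j → j ≤ u → w i < w j
  ini : ∀ i j, i < j → U j → U i
  th : ∀ j < u, G j → Th t (UU U w j) (w (j + 1)) (Θ j)
  no : ∀ j < u, ¬ G j → Θ j = LinearMap.id

section core

variable {t : Fin n → ℕ} {w : ℕ → Fin n} {u : ℕ} {U : Fin n → Prop} {G : ℕ → Prop}
  {Θ : ℕ → (MvPolynomial (Fin n) (ZMod 2) →ₗ[ZMod 2] MvPolynomial (Fin n) (ZMod 2))}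

theorem Ms.le (M : Ms t w u U G Θ) {i j : ℕ} (hij : i ≤ j) (hj : j ≤ u) : w i ≤ w j := by
  rcases Nat.lt_or_ge i j with h | h
  · exact le_of_lt (M.inc i j h hj)
  · rw [show i = j by omega]

theorem Ms.hits (M : Ms t w u U G Θ) {m : ℕ} (hm : m ≤ u) {g : MvPolynomial (Fin n) (ZMod 2)}
    (hg : g ∈ hits n) : piop Θ m g ∈ Pool.Agent.Helper60.Hit.hits n := by
  induction m generalizing g with
  | zero => exact hg
  | succ m ih =>
    show piop Θ m (Θ m g) ∈ _
    refine ih (by omega) ?_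
    by_cases h : G m
    · exact (M.th m (by omega) h).hits g hg
    · rw [M.no m (by omega) h]; exact hg

/-- lower weight stays lower -/
theorem Ms.low (M : Ms t w u U G Θ) {m : ℕ} (hm : m ≤ u) {z : Fin n → ℕ}
    (hz : LexLT (wt z) (wt t)) : piop Θ m (mono z) ∈ msp (fun y => NLT y t) := by
  induction m generalizing z with
  | zero => exact mono_mem_msp (Or.inl hz)
  | succ m ih =>
    show piop Θ m (Θ m (mono z)) ∈ _
    by_cases h : G m
    · exact map_msp (piop Θ m) _ (fun z' hz' => ih (by omega) (hz'.1.trans_lt hz))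
        ((M.th m (by omega) h).gen z)
    · rw [M.no m (by omega) h]; exact ih (by omega) hz

/-- a monomial with a first difference -/
theorem Ms.dif (M : Ms t w u U G Θ) {m : ℕ} (hm : m ≤ u) {z : Fin n → ℕ} {f : Fin n}
    (hw : LexLE (wt z) (wt t)) (hf : ∀ i < f, z i = t i) (hf' : z f < t f)
    (hU : G 0 → ¬ U f → w 0 < f)
    (hV : ∀ i < m, G i → w i < f → z (w (i + 1)) = t (w (i + 1))) :
    piop Θ m (mono z) ∈ msp (fun y => NLT y t) := by
  induction m generalizing z f with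
  | zero =>
    rcases hw with hw | hw
    · exact mono_mem_msp (Or.inr ⟨hw, f, hf, hf'⟩)
    · exact mono_mem_msp (Or.inl hw)
  | succ m ih =>
    have hmu : m < u := by omega
    have hlt : w m < w (m + 1) := M.inc m (m + 1) (by omega) (by omega)
    show piop Θ m (Θ m (mono z)) ∈ _
    by_cases h : G m
    · have T := M.th m hmu h
      -- the terms with first difference outside `U`
      have haft : ∀ z', Aft t (UU U w m) z' → piop Θ m (mono z') ∈ msp (fun y => NLT y t) := by
        intro z' hz'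
        rcases hz' with h1 | ⟨h1, f', h2, h3, h4⟩
        · exact M.low (by omega) h1
        · rcases Nat.eq_zero_or_pos m with rfl | hm0
          · rcases h1 with h1 | h1
            · exact mono_mem_msp (Or.inr ⟨h1, f', h3, h4⟩)
            · exact mono_mem_msp (Or.inl h1)
          · obtain ⟨m', rfl⟩ : ∃ m', m = m' + 1 := ⟨m - 1, by omega⟩
            have h5 : w (m' + 1) < f' := not_le.mp h2
            refine ih (f := f') (by omega) h1 h3 h4 (fun _ _ => ?_) fun i hi _ _ => ?_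
            · exact lt_of_le_of_lt (M.le (by omega) (by omega)) h5
            · exact h3 _ (lt_of_le_of_lt (M.le (by omega) (by omega)) h5)
      by_cases h1 : UU U w m f
      · refine map_msp (piop Θ m) _ (fun z' hz' => ?_) (T.gen z)
        have hini : ∀ i < f, UU U w m i := by
          intro i hi
          rcases Nat.eq_zero_or_pos m with rfl | hm0
          · exact M.ini i f hi h1
          · obtain ⟨m', rfl⟩ : ∃ m', m = m' + 1 := ⟨m - 1, by omega⟩
            exact le_of_lt (lt_of_lt_of_le hi h1)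
        refine ih (f := f) (by omega) (LexLE.trans hz'.1 hw) (fun i hi => ?_) ?_ hU
          fun i hi hG hwi => ?_
        · rw [hz'.2 i (hini i hi)]; exact hf i hi
        · rw [hz'.2 f h1]; exact hf'
        · rw [hz'.2 _ ?_]
          · exact hV i (by omega) hG hwi
          · obtain ⟨m', rfl⟩ : ∃ m', m = m' + 1 := ⟨m - 1, by omega⟩
            exact M.le (by omega) (by omega)
      · have h0 : w m < f := by
          rcases Nat.eq_zero_or_pos m with rfl | hm0
          · exact hU h h1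
          · obtain ⟨m', rfl⟩ : ∃ m', m = m' + 1 := ⟨m - 1, by omega⟩
            exact not_le.mp h1
        have h2 := hV m (by omega) h h0
        rcases lt_trichotomy f (w (m + 1)) with h3 | h3 | h3
        · exact map_msp (piop Θ m) _ haft (T.low z hw f h1 h3 hf hf' h2)
        · rw [h3, h2] at hf'; exact absurd hf' (lt_irrefl _)
        · have h4 := T.full z hw (fun i hi => hf i (lt_of_le_of_lt hi h3))
          have h5 := map_msp (piop Θ m) _ haft h4
          have h6 := ih (by omega) hw hf hf' hU (fun i hi => hV i (by omega))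
          have h7 := Submodule.add_mem _ h5 h6
          have h8 : ∀ A B : MvPolynomial (Fin n) (ZMod 2), A + B + B = A := by
            intro A B
            rw [add_assoc, CharTwo.add_self_eq_zero, add_zero]
          rw [map_add, h8] at h7
          exact h7
    · rw [M.no m hmu h]
      exact ih (by omega) hw hf hf' hU (fun i hi => hV i (by omega))

/-- a monomial which agrees with `t` up to `w m` -/
theorem Ms.agree (M : Ms t w u U G Θ) {m : ℕ} (hm : m ≤ u) {z : Fin n → ℕ}
    (hw : LexLE (wt z) (wt t)) (hz : ∀ i ≤ w m, z i = t i) :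
    piop Θ m (mono z) + mono z ∈ msp (fun y => NLT y t) := by
  induction m with
  | zero =>
    show mono z + mono z ∈ _
    rw [CharTwo.add_self_eq_zero]; exact Submodule.zero_mem _
  | succ m ih =>
    have hmu : m < u := by omega
    have hlt : w m < w (m + 1) := M.inc m (m + 1) (by omega) (by omega)
    have h1 := ih (by omega) (fun i hi => hz i (hi.trans (le_of_lt hlt)))
    show piop Θ m (Θ m (mono z)) + mono z ∈ _
    by_cases h : G m
    · have T := M.th m hmu h
      have h2 := map_msp (piop Θ m) (msp (fun y => NLT y t)) (fun z' hz' => ?_) (T.full z hw hz)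
      · rw [map_add] at h2
        have h3 := Submodule.add_mem _ h2 h1
        have h4 : ∀ A B C : MvPolynomial (Fin n) (ZMod 2), A + B + (B + C) = A + C := by
          intro A B C
          have : A + B + (B + C) = A + (B + B) + C := by ring
          rw [this, CharTwo.add_self_eq_zero, add_zero]
        rw [h4] at h3
        exact h3
      · rcases hz' with h3 | ⟨h3, f', h4, h5, h6⟩
        · exact M.low (by omega) h3
        · rcases Nat.eq_zero_or_pos m with rfl | hm0
          · rcases h3 with h3 | h3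
            · exact mono_mem_msp (Or.inr ⟨h3, f', h5, h6⟩)
            · exact mono_mem_msp (Or.inl h3)
          · obtain ⟨m', rfl⟩ : ∃ m', m = m' + 1 := ⟨m - 1, by omega⟩
            have h7 : w (m' + 1) < f' := not_le.mp h4
            refine M.dif (by omega) h3 h5 h6 (fun _ _ => ?_) fun i hi _ _ => ?_
            · exact lt_of_le_of_lt (M.le (by omega) (by omega)) h7
            · exact h5 _ (lt_of_le_of_lt (M.le (by omega) (by omega)) h7)
    · rw [M.no m hmu h]; exact h1

/-- a deficient exponent is killed -/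
theorem Ms.kill (M : Ms t w u U G Θ) {j m : ℕ} (hjm : j < m) (hm : m ≤ u) (hG : G j)
    {z : Fin n → ℕ} (hz : z (w (j + 1)) < t (w (j + 1))) : piop Θ m (mono z) = 0 := by
  induction m generalizing z with
  | zero => exact absurd hjm (Nat.not_lt_zero _)
  | succ m ih =>
    show piop Θ m (Θ m (mono z)) = 0
    rcases Nat.lt_or_ge j m with h1 | h1
    · by_cases h : G m
      · have h2 := map_msp (piop Θ m) ⊥ (fun z' hz' => ?_) ((M.th m (by omega) h).gen z)
        · rwa [Submodule.mem_bot] at h2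
        · rw [Submodule.mem_bot]
          refine ih h1 (by omega) ?_
          rw [hz'.2 _ ?_]
          · exact hz
          · obtain ⟨m', rfl⟩ : ∃ m', m = m' + 1 := ⟨m - 1, by omega⟩
            exact M.le (by omega) (by omega)
      · rw [M.no m (by omega) h]; exact ih h1 (by omega) hz
    · have h2 : j = m := by omega
      subst h2
      rw [(M.th j (by omega) hG).kill z hz, map_zero]

end core

/-! ### the sieve -/

theorem wlt_div (k : ℕ) {y v : Fin n → ℕ} (hyv : ∀ i, y i % 2 ^ k = v i % 2 ^ k)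
    (h : LexLT (wt y) (wt v)) : LexLT (wt (fun i => y i / 2 ^ k)) (wt (fun i => v i / 2 ^ k)) := by
  have h1 := nlt_div k hyv (Or.inl h)
  rcases h1 with h1 | ⟨h1, -⟩
  · exact h1
  · exfalso
    obtain ⟨s, h2, h3⟩ := h
    rcases Nat.lt_or_ge s k with h4 | h4
    · have h5 : wt y s = wt v s := by
        unfold wt
        refine Finset.sum_congr rfl fun i _ => ?_
        have h6 : ∀ x : ℕ, x / 2 ^ s % 2 = x % 2 ^ k / 2 ^ s % 2 := by
          intro x
          have h7 : (x % 2 ^ k).testBit s = x.testBit s := by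
            rw [Nat.testBit_mod_two_pow]; simp [h4]
          rw [Nat.testBit_eq_decide_div_mod_eq, Nat.testBit_eq_decide_div_mod_eq] at h7
          have h8 := decide_eq_decide.mp h7
          omega
        rw [h6 (y i), h6 (v i), hyv i]
      omega
    · obtain ⟨s', rfl⟩ : ∃ s', s = k + s' := ⟨s - k, by omega⟩
      have h5 := congrFun h1 s'
      rw [wt_div, wt_div] at h5
      omega

theorem wle_div (k : ℕ) {y v : Fin n → ℕ} (hyv : ∀ i, y i % 2 ^ k = v i % 2 ^ k)
    (h : LexLE (wt y) (wt v)) : LexLE (wt (fun i => y i / 2 ^ k)) (wt (fun i => v i / 2 ^ k)) := by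
  rcases h with h | h
  · left
    funext s
    rw [wt_div, wt_div, h]
  · exact Or.inr (wlt_div k hyv h)

theorem div_lt_div_of_mod (k : ℕ) {a b : ℕ} (h : a % 2 ^ k = b % 2 ^ k) (hlt : a < b) :
    a / 2 ^ k < b / 2 ^ k := by
  have h3 := Nat.div_add_mod a (2 ^ k)
  have h4 := Nat.div_add_mod b (2 ^ k)
  rw [h] at h3
  have h5 : 2 ^ k * (a / 2 ^ k) < 2 ^ k * (b / 2 ^ k) := by omega
  exact Nat.lt_of_mul_lt_mul_left h5

/-- the monomials kept by the sieve of `e0` -/
def Kp (c : ℕ) (e0 z : Fin n → ℕ) : Prop :=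
  (∀ i, z i % 2 ^ c = e0 i % 2 ^ c ∧ (e0 i < 2 ^ c → z i = e0 i)) ∧
    ∀ b, e0 b / 2 ^ c ≠ 0 → z b / 2 ^ c ≠ 0

/-- the sieve as an operator -/
structure Sg (c : ℕ) (e0 : Fin n → ℕ)
    (Λ : MvPolynomial (Fin n) (ZMod 2) →ₗ[ZMod 2] MvPolynomial (Fin n) (ZMod 2)) : Prop where
  hits : ∀ g ∈ hits n, Λ g ∈ hits n
  pos : ∀ z : Fin n → ℕ, Kp c e0 z → Λ (mono z) = mono (fun i => z i / 2 ^ c)
  neg : ∀ z : Fin n → ℕ, ¬ Kp c e0 z → Λ (mono z) = 0

theorem exists_sg (c : ℕ) (e0 : Fin n → ℕ)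
    (ht : ∀ i, e0 i % 2 ^ c = 2 ^ c - 1 ∨ ∃ a ≤ c, e0 i = 2 ^ a - 1) : ∃ Λ, Sg c e0 Λ := by
  classical
  obtain ⟨Φ, hΦ, hΦm⟩ := exists_sieve c e0 ht
  obtain ⟨K, hK, hKm⟩ := exists_keep (Finset.univ.filter (fun b => e0 b / 2 ^ c ≠ 0))
  have hcomp : ∀ z, (K ∘ₗ Φ) (mono z) =
      if Kp c e0 z then mono (fun i => z i / 2 ^ c) else 0 := by
    intro z
    rw [LinearMap.comp_apply, hΦm]
    by_cases h1 : ∀ i, z i % 2 ^ c = e0 i % 2 ^ c ∧ (e0 i < 2 ^ c → z i = e0 i)
    · rw [if_pos h1, hKm]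
      by_cases h2 : ∀ b, e0 b / 2 ^ c ≠ 0 → z b / 2 ^ c ≠ 0
      · have h2' : ∀ b ∈ Finset.univ.filter (fun b => e0 b / 2 ^ c ≠ 0), z b / 2 ^ c ≠ 0 :=
          fun b hb => h2 b (Finset.mem_filter.mp hb).2
        rw [if_pos h2', if_pos ⟨h1, h2⟩]
      · have h2' : ¬ ∀ b ∈ Finset.univ.filter (fun b => e0 b / 2 ^ c ≠ 0), z b / 2 ^ c ≠ 0 :=
          fun h3 => h2 fun b hb => h3 b (Finset.mem_filter.mpr ⟨Finset.mem_univ _, hb⟩)
        rw [if_neg h2', if_neg (fun h3 => h2 h3.2)]
    · rw [if_neg h1, map_zero, if_neg (fun h3 => h1 h3.1)]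
  refine ⟨K ∘ₗ Φ, fun g hg => hK _ (hΦ _ hg), fun z hz => ?_, fun z hz => ?_⟩
  · rw [hcomp, if_pos hz]
  · rw [hcomp, if_neg hz]

section sieve

variable {c u : ℕ} {e0 : Fin n → ℕ} {w : ℕ → Fin n} {U : Fin n → Prop} {G : ℕ → Prop}
  {Θ : ℕ → (MvPolynomial (Fin n) (ZMod 2) →ₗ[ZMod 2] MvPolynomial (Fin n) (ZMod 2))}
  {Λ : MvPolynomial (Fin n) (ZMod 2) →ₗ[ZMod 2] MvPolynomial (Fin n) (ZMod 2)}

theorem sv_low (L : Sg c e0 Λ) (M : Ms (fun i => e0 i / 2 ^ c) w u U G Θ) {m : ℕ} (hm : m ≤ u)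
    {z : Fin n → ℕ} (hz : LexLT (wt z) (wt e0)) :
    piop Θ m (Λ (mono z)) ∈ msp (fun y => NLT y (fun i => e0 i / 2 ^ c)) := by
  by_cases h : Kp c e0 z
  · rw [L.pos z h]
    exact M.low hm (wlt_div c (fun i => (h.1 i).1) hz)
  · rw [L.neg z h, map_zero]; exact Submodule.zero_mem _

theorem sv_dif (L : Sg c e0 Λ) (M : Ms (fun i => e0 i / 2 ^ c) w u U G Θ) {m : ℕ} (hm : m ≤ u)
    {z : Fin n → ℕ} {f : Fin n} (hw : LexLE (wt z) (wt e0)) (hf : ∀ i < f, z i = e0 i)
    (hf' : z f < e0 f) (hU : G 0 → Kp c e0 z → ¬ U f → w 0 < f)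
    (hV : ∀ i < m, G i → w i < f → z (w (i + 1)) = e0 (w (i + 1))) :
    piop Θ m (Λ (mono z)) ∈ msp (fun y => NLT y (fun i => e0 i / 2 ^ c)) := by
  by_cases h : Kp c e0 z
  · rw [L.pos z h]
    refine M.dif (f := f) hm (wle_div c (fun i => (h.1 i).1) hw) (fun i hi => ?_) ?_
      (fun h1 h2 => hU h1 h h2) fun i hi hG hwi => ?_
    · show z i / 2 ^ c = e0 i / 2 ^ c
      rw [hf i hi]
    · exact div_lt_div_of_mod c (h.1 f).1 hf'
    · show z (w (i + 1)) / 2 ^ c = e0 (w (i + 1)) / 2 ^ c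
      rw [hV i hi hG hwi]
  · rw [L.neg z h, map_zero]; exact Submodule.zero_mem _

theorem sv_agree (L : Sg c e0 Λ) (M : Ms (fun i => e0 i / 2 ^ c) w u U G Θ) {m : ℕ} (hm : m ≤ u)
    {z : Fin n → ℕ} (hw : LexLE (wt z) (wt e0)) (hz : ∀ i ≤ w m, z i = e0 i) :
    piop Θ m (Λ (mono z)) + Λ (mono z) ∈ msp (fun y => NLT y (fun i => e0 i / 2 ^ c)) := by
  by_cases h : Kp c e0 z
  · rw [L.pos z h]
    refine M.agree hm (wle_div c (fun i => (h.1 i).1) hw) fun i hi => ?_
    show z i / 2 ^ c = e0 i / 2 ^ c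
    rw [hz i hi]
  · rw [L.neg z h, map_zero, add_zero]; exact Submodule.zero_mem _

theorem sv_kill (L : Sg c e0 Λ) (M : Ms (fun i => e0 i / 2 ^ c) w u U G Θ) {j m : ℕ} (hjm : j < m)
    (hm : m ≤ u) (hG : G j) {z : Fin n → ℕ} (hz : z (w (j + 1)) < e0 (w (j + 1))) :
    piop Θ m (Λ (mono z)) = 0 := by
  by_cases h : Kp c e0 z
  · rw [L.pos z h]
    exact M.kill hjm hm hG (div_lt_div_of_mod c (h.1 _).1 hz)
  · rw [L.neg z h, map_zero]

theorem sg_nlt (L : Sg c e0 Λ) {f : MvPolynomial (Fin n) (ZMod 2)}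
    (hf : f ∈ msp (fun z => NLT z e0)) :
    Λ f ∈ msp (fun y => NLT y (fun i => e0 i / 2 ^ c)) := by
  refine map_msp Λ _ (fun z hz => ?_) hf
  by_cases h : Kp c e0 z
  · rw [L.pos z h]
    exact mono_mem_msp (nlt_div c (fun i => (h.1 i).1) hz)
  · rw [L.neg z h]; exact Submodule.zero_mem _

end sieve

end Pool.Agent.SUC
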