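import Pool.Agent.SUC.Multi

set_option autoImplicit false

/-!
# The gap criterion with corrections
-/

namespace Pool.Agent.SUC

open Pool.Agent.Helper60.Hit MvPolynomial Pool.Agent.CTL45 Pool.Agent.HitD5 Pool.Agent.HitAB

variable {n : ℕ} {w : ℕ → Fin (n + 1)} {r u : ℕ} {e e0 : Fin (n + 1) → ℕ}

/-- the `l`-th summand of the operator -/
noncomputable def tl (w : ℕ → Fin (n + 1)) (r l : ℕ) :
    MvPolynomial (Fin (n + 1)) (ZMod 2) →ₗ[ZMod 2] MvPolynomial (Fin (n + 1)) (ZMod 2) :=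
  CM (w 0) (MM w r l) ∘ₗ PP w l

theorem tl_mono (h : Inc w r) {l : ℕ} (hl : l ≤ r) (y : Fin (n + 1) → ℕ) :
    tl w r l (mono y) = Cr (MM w r l) (y (w l)) * mono (bs w l y) := by
  unfold tl
  rw [LinearMap.comp_apply, PP_mono, CM_mono, (cyc_spec h y l hl).1]
  rfl

theorem tl_hits {l : ℕ} {g : MvPolynomial (Fin (n + 1)) (ZMod 2)} (hg : g ∈ hits (n + 1)) :
    tl w r l g ∈ hits (n + 1) := by
  unfold tl
  rw [LinearMap.comp_apply]
  exact CM_hits _ _ (PP_hits w l hg)

theorem TS_tl (f : MvPolynomial (Fin (n + 1)) (ZMod 2)) :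
    TS w r u f = ∑ l ∈ Finset.range (u + 1), tl w r l f := by
  unfold TS tl
  rw [LinearMap.sum_apply]

/-- transport of a property of the terms of `tl` -/
theorem tl_map (h : Inc w r) {l : ℕ} (hl : l ≤ r) (y : Fin (n + 1) → ℕ)
    (F : MvPolynomial (Fin (n + 1)) (ZMod 2) →ₗ[ZMod 2] MvPolynomial (Fin (n + 1)) (ZMod 2))
    (N : Submodule (ZMod 2) (MvPolynomial (Fin (n + 1)) (ZMod 2)))
    (hN : ∀ c, Good (MM w r l) (y (w l)) c → F (mono (c + bs w l y)) ∈ N) :
    F (tl w r l (mono y)) ∈ N := by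
  rw [tl_mono h hl]
  exact map_msp F N (Q := fun z => ∃ c, Good (MM w r l) (y (w l)) c ∧ z = c + bs w l y)
    (by rintro z ⟨c, hc, rfl⟩; exact hN c hc) (summand_mem fun c hc => ⟨c, hc, rfl⟩)

/-- a term of the `l`-th summand agrees with `e0` up to `w j`, for `j ≤ l` -/
theorem term_agree (S : Wk w r u e e0) {y c : Fin (n + 1) → ℕ} {l j : ℕ} (hl : l ≤ u)
    (hj : j ≤ l) (hy : ∀ i < w j, y i = e i) (hc : Good (MM w r l) (y (w l)) c) :
    ∀ i ≤ w j, (c + bs w l y) i = e0 i := by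
  have hu := S.hu
  intro i hi
  have hil : i ∉ MM w r l := by
    intro hmem
    exact absurd (lt_of_lt_of_le (S.inc.lt_of_mem hj hmem) hi) (lt_irrefl _)
  have hiu : i ∉ MM w r u := by
    intro hmem
    exact absurd (lt_of_lt_of_le (S.inc.lt_of_mem (by omega : j ≤ u) hmem) hi) (lt_irrefl _)
  rw [Pi.add_apply, good_zero hc hil, zero_add]
  rcases lt_or_eq_of_le hi with h2 | h2
  · rw [S.bs_eq hl (fun k hk => hy k (lt_of_le_of_lt hk h2)), S.e0_upd hiu]
  · subst h2
    rcases Nat.eq_zero_or_pos j with rfl | hj0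
    · rw [bs_zero, S.e0_eq_zero]
    · obtain ⟨j', rfl⟩ : ∃ j', j = j' + 1 := ⟨j - 1, by omega⟩
      rw [bs_succ S.inc y (by omega) (by omega : j' < l),
        hy _ (S.inc j' (j' + 1) (by omega) (by omega)), S.he j' (by omega),
        S.e0_w (by omega)]

/-- a term of the `l`-th summand has the same first difference -/
theorem term_dif (S : Wk w r u e e0) {y c : Fin (n + 1) → ℕ} {l : ℕ} {f : Fin (n + 1)}
    (hl : l ≤ u) (hf : ∀ j < f, y j = e j) (hf' : y f < e f) (hfl : f < w (l + 1))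
    (hfw : ∀ j ≤ l, f ≠ w j) (hc : Good (MM w r l) (y (w l)) c) :
    (∀ i < f, (c + bs w l y) i = e0 i) ∧ (c + bs w l y) f < e0 f := by
  have hu := S.hu
  have hnot : ∀ i ≤ f, ∀ l' ≥ l, i ∉ MM w r l' := by
    intro i hi l' hl' hmem
    rw [mem_MM] at hmem
    obtain ⟨j, h1, h2, rfl⟩ := hmem
    exact absurd (lt_of_lt_of_le (lt_of_le_of_lt hi hfl) (S.inc.le (by omega) h2))
      (lt_irrefl _)
  constructor
  · intro i hi
    rw [Pi.add_apply, good_zero hc (hnot i (le_of_lt hi) l le_rfl), zero_add,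
      S.bs_eq hl (fun j hj => hf j (lt_of_le_of_lt hj hi)),
      S.e0_upd (hnot i (le_of_lt hi) u hl)]
  · rw [Pi.add_apply, good_zero hc (hnot f le_rfl l le_rfl), zero_add,
      bs_other S.inc y (by omega) hfw, S.e0_upd (hnot f le_rfl u hl),
      Function.update_of_ne (hfw 0 (Nat.zero_le l))]
    exact hf'

/-- the entry at `w (j + 1)` of a term -/
theorem term_next (S : Wk w r u e e0) {y c : Fin (n + 1) → ℕ} {l j : ℕ} (hl : l ≤ u)
    (hj : j < l) (hc : Good (MM w r l) (y (w l)) c) : (c + bs w l y) (w (j + 1)) = y (w j) := by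
  have hu := S.hu
  rw [Pi.add_apply, good_zero hc (S.inc.notMem (by omega : j + 1 ≤ l) (by omega)), zero_add,
    bs_succ S.inc y (by omega) hj]

/-- the partial sum at the first deficient position -/
theorem part_sum (S : Wk w r u e e0) {y : Fin (n + 1) → ℕ} (hsum : ∑ i, y i = ∑ i, e i)
    (hle : LexLE (wt y) (wt e)) {j : ℕ} (hj : j ≤ u) (hf : ∀ i < w j, y i = e i)
    (hf' : y (w j) < 2 ^ r - 1) :
    ∑ l ∈ Finset.range (j + 1), tl w r l (mono y) ∈ msp (fun z => NLT z e0) := by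
  have hu := S.hu
  have hin : ∀ z, MonLT z e0 → NLT z e0 := fun z hz => hz.2
  rcases Nat.eq_zero_or_pos j with rfl | hj0
  · rw [Finset.sum_range_one, tl_mono S.inc (by omega), Cr_eq_zero, zero_mul]
    · exact Submodule.zero_mem _
    · rw [S.inc.card_MM, Nat.sub_zero]; exact hf'
  · obtain ⟨i, rfl⟩ : ∃ i, j = i + 1 := ⟨j - 1, by omega⟩
    rw [Finset.sum_range_succ, Finset.sum_range_succ, add_assoc]
    refine Submodule.add_mem _ (Submodule.sum_mem _ fun l hl => ?_) ?_
    · rw [Finset.mem_range] at hl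
      rw [tl_mono S.inc (by omega)]
      refine summand_mem fun c hc => hin _ (S.carry_case (by omega) hsum hle ?_ ?_ hc)
      · rw [hf _ (S.inc l (i + 1) (by omega) (by omega)), S.he l (by omega)]
      · rw [hf _ (S.inc (l + 1) (i + 1) (by omega) (by omega)), S.he (l + 1) (by omega)]
    · rw [tl_mono S.inc (by omega), tl_mono S.inc (by omega)]
      exact msp_mono hin (S.pair (by omega) hsum hle hf hf')

/-- no bad monomials if the first difference is not one of the `w j` -/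
theorem no_bad (S : Wk w r u e e0) {y z : Fin (n + 1) → ℕ} {f : Fin (n + 1)}
    (hf : ∀ j < f, y j = e j) (hf' : y f < e f) (hfw : ∀ j ≤ u, f ≠ w j) :
    ¬ BadY w r u e0 y z := by
  have hu := S.hu
  rintro ⟨-, j, hj, -, -, h1, h2⟩
  rcases lt_trichotomy f (w j) with h3 | h3 | h3
  · rcases h2 f h3 with h4 | ⟨m, hm, h4⟩
    · rw [S.e0_of_notMem (fun hmem => absurd (h3.trans (S.inc.lt_of_mem (by omega : j ≤ u) hmem))
        (lt_irrefl _)) (hfw 0 (Nat.zero_le _))] at h4
      omega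
    · exact hfw m (by omega) h4
  · exact hfw j (by omega) h3
  · rw [hf _ h3, S.he j (by omega)] at h1
    exact absurd h1 (lt_irrefl _)

/-- the argument of the gap criterion -/
theorem gap_dif {c : ℕ} {j : ℕ} (hj : j < u) (S : Wk w r u e e0)
    (halt : ∀ i, w j < i → i < w (j + 1) →
      (∀ l, i ≤ l → e0 l % 2 ^ r = 2 ^ r - 1 ∨ e0 l < 2 ^ c) ∨
      (∀ l s, i < l → e0 l / 2 ^ s % 2 = 1 → e0 i / 2 ^ s % 2 = 1 ∨ e0 l < 2 ^ c) ∨
      e0 i < 2 ^ c ∨ r ≤ c + 1)
    {z : Fin (n + 1) → ℕ} (hK : Kp c e0 z) (hwt : wt z = wt e0) (hpre : ∀ i ≤ w j, z i = e0 i)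
    (hlt : z (w (j + 1)) < 2 ^ r - 1) :
    ∃ f, w j < f ∧ f ≤ w (j + 1) ∧ (∀ i < f, z i = e0 i) ∧ z f < e0 f := by
  classical
  have hpow := Nat.one_le_two_pow (n := c)
  have hmod : ∀ i, z i % 2 ^ c = e0 i % 2 ^ c := fun i => (hK.1 i).1
  have hne : z (w (j + 1)) ≠ e0 (w (j + 1)) := by rw [S.e0_w hj]; exact ne_of_lt hlt
  obtain ⟨f, hf, hfmin⟩ : ∃ f : Fin (n + 1), z f ≠ e0 f ∧ ∀ i < f, z i = e0 i := by
    obtain ⟨f, hf, hmin⟩ := Finset.exists_min_image
      (Finset.univ.filter (fun i => z i ≠ e0 i)) id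
      ⟨w (j + 1), by rw [Finset.mem_filter]; exact ⟨Finset.mem_univ _, hne⟩⟩
    rw [Finset.mem_filter] at hf
    refine ⟨f, hf.2, fun i hi => ?_⟩
    by_contra hcon
    have := hmin i (by rw [Finset.mem_filter]; exact ⟨Finset.mem_univ _, hcon⟩)
    exact absurd (lt_of_lt_of_le hi this) (lt_irrefl _)
  have hge : ∀ l, z l ≠ e0 l → f ≤ l := by
    intro l hl
    by_contra hcon
    exact hl (hfmin l (not_le.mp hcon))
  have hbig : ∀ l, z l ≠ e0 l → ¬ e0 l < 2 ^ c := fun l hl h2 => hl ((hK.1 l).2 h2)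
  have hf1 : w j < f := by
    by_contra hcon
    exact hf (hpre f (not_lt.mp hcon))
  have hf2 : f ≤ w (j + 1) := hge _ hne
  refine ⟨f, hf1, hf2, hfmin, ?_⟩
  rcases eq_or_lt_of_le hf2 with h2 | h2
  · rw [h2, S.e0_w hj]; exact hlt
  · rcases halt f hf1 h2 with h3 | h3 | h3 | h3
    · exfalso
      have h4 := full_of_full' (r := r) hwt (fun l hl =>
        (h3 l (hge l hl)).resolve_right (hbig l hl)) hne
      omega
    · refine lt_of_le_of_ne (le_of_dominating' hwt hf fun l s hl hs => ?_) hf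
      rcases eq_or_lt_of_le (hge l hl) with h4 | h4
      · rw [h4]; exact hs
      · exact (h3 l s h4 hs).resolve_right (hbig l hl)
    · exact absurd h3 (hbig f hf)
    · exfalso
      have h4 : e0 (w (j + 1)) = 2 ^ r - 1 := S.e0_w hj
      have h5 := hbig _ hne
      have h6 := Nat.one_le_two_pow (n := r)
      have h7 : 2 ^ r ≤ 2 ^ (c + 1) := Nat.pow_le_pow_right (by norm_num) h3
      rw [pow_succ] at h7
      have h8 : e0 (w (j + 1)) / 2 ^ c ≠ 0 := by
        intro h9
        rw [Nat.div_eq_zero_iff] at h9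
        omega
      have h9 := hK.2 _ h8
      have h10 : 2 ^ c ≤ z (w (j + 1)) := by
        by_contra hcon
        exact h9 (Nat.div_eq_of_lt (by omega))
      have h11 := hmod (w (j + 1))
      have h12 := Nat.div_add_mod (z (w (j + 1))) (2 ^ c)
      have h13 := Nat.div_add_mod (e0 (w (j + 1))) (2 ^ c)
      have h14 : z (w (j + 1)) / 2 ^ c = 1 := by
        rw [Nat.div_eq_iff (by omega)]
        omega
      have h15 : e0 (w (j + 1)) / 2 ^ c = 1 := by
        rw [Nat.div_eq_iff (by omega)]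
        omega
      rw [h14] at h12
      rw [h15] at h13
      omega

section main

variable {c : ℕ} {U : Fin (n + 1) → Prop} {G : ℕ → Prop}
  {Θ : ℕ → (MvPolynomial (Fin (n + 1)) (ZMod 2) →ₗ[ZMod 2] MvPolynomial (Fin (n + 1)) (ZMod 2))}
  {Λ : MvPolynomial (Fin (n + 1)) (ZMod 2) →ₗ[ZMod 2] MvPolynomial (Fin (n + 1)) (ZMod 2)}

/-- the operator -/
noncomputable def psim (w : ℕ → Fin (n + 1)) (r u : ℕ)
    (Θ : ℕ → (MvPolynomial (Fin (n + 1)) (ZMod 2) →ₗ[ZMod 2]
      MvPolynomial (Fin (n + 1)) (ZMod 2)))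
    (Λ : MvPolynomial (Fin (n + 1)) (ZMod 2) →ₗ[ZMod 2] MvPolynomial (Fin (n + 1)) (ZMod 2)) :
    MvPolynomial (Fin (n + 1)) (ZMod 2) →ₗ[ZMod 2] MvPolynomial (Fin (n + 1)) (ZMod 2) :=
  ∑ l ∈ Finset.range (u + 1), piop Θ l ∘ₗ Λ ∘ₗ tl w r l

theorem psim_apply (f : MvPolynomial (Fin (n + 1)) (ZMod 2)) :
    psim w r u Θ Λ f = ∑ l ∈ Finset.range (u + 1), piop Θ l (Λ (tl w r l f)) := by
  unfold psim
  rw [LinearMap.sum_apply]
  rfl

theorem psim_split (f : MvPolynomial (Fin (n + 1)) (ZMod 2)) :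
    psim w r u Θ Λ f = Λ (TS w r u f) +
      ∑ l ∈ Finset.range (u + 1), (piop Θ l (Λ (tl w r l f)) + Λ (tl w r l f)) := by
  rw [psim_apply, TS_tl, map_sum, Finset.sum_add_distrib]
  have h : ∀ A B : MvPolynomial (Fin (n + 1)) (ZMod 2), A = B + (A + B) := by
    intro A B
    have : B + (A + B) = A + (B + B) := by ring
    rw [this, CharTwo.add_self_eq_zero, add_zero]
  exact h _ _

theorem psim_full (S : Wk w r u e e0) (L : Sg c e0 Λ)
    (M : Ms (fun i => e0 i / 2 ^ c) w u U G Θ) :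
    psim w r u Θ Λ (mono e) + mono (fun i => e0 i / 2 ^ c) ∈
      msp (fun y => NLT y (fun i => e0 i / 2 ^ c)) := by
  have hu := S.hu
  have hk : Kp c e0 e0 := ⟨fun i => ⟨rfl, fun _ => rfl⟩, fun b hb => hb⟩
  rw [psim_split, ← L.pos e0 hk, add_right_comm, ← map_add]
  refine Submodule.add_mem _ (sg_nlt L S.full) (Submodule.sum_mem _ fun l hl => ?_)
  rw [Finset.mem_range] at hl
  refine tl_map S.inc (by omega) e (piop Θ l ∘ₗ Λ + Λ) _ fun c' hc => ?_
  refine sv_agree L M (by omega) ?_ (term_agree S (by omega) le_rfl (fun _ _ => rfl) hc)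
  rw [S.hwt]
  exact term_le S.inc (by omega) hc

theorem psim_low (S : Wk w r u e e0) (L : Sg c e0 Λ)
    (M : Ms (fun i => e0 i / 2 ^ c) w u U G Θ)
    (hU0 : G 0 → ∀ i, ¬ U i → i ≤ w 0 → e0 i < 2 ^ (c + 1))
    (hgap : ∀ j < u, ¬ G j → ∀ i, w j < i → i < w (j + 1) →
      (∀ l, i ≤ l → e0 l % 2 ^ r = 2 ^ r - 1 ∨ e0 l < 2 ^ c) ∨
      (∀ l s, i < l → e0 l / 2 ^ s % 2 = 1 → e0 i / 2 ^ s % 2 = 1 ∨ e0 l < 2 ^ c) ∨
      e0 i < 2 ^ c ∨ r ≤ c + 1)
    {y : Fin (n + 1) → ℕ} (hy : MonLT y e) :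
    psim w r u Θ Λ (mono y) ∈ msp (fun y => NLT y (fun i => e0 i / 2 ^ c)) := by
  have hu := S.hu
  obtain ⟨hsum, hcase⟩ := id hy
  rcases hcase with hlt | ⟨hwt, f, hf, hf'⟩
  · -- lower weight
    rw [psim_apply]
    refine Submodule.sum_mem _ fun l hl => ?_
    rw [Finset.mem_range] at hl
    refine tl_map S.inc (by omega) y (piop Θ l ∘ₗ Λ) _ fun c' hc => ?_
    refine sv_low L M (by omega) ?_
    rw [S.hwt]
    exact (term_le S.inc (by omega) hc).trans_lt hlt
  have hle : LexLE (wt y) (wt e) := Or.inl hwt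
  have hterm : ∀ l ≤ u, ∀ c', Good (MM w r l) (y (w l)) c' →
      LexLE (wt (c' + bs w l y)) (wt e0) := by
    intro l hl c' hc
    rw [S.hwt]
    exact LexLE.trans (term_le S.inc (by omega) hc) hle
  have hkp : ∀ (z : Fin (n + 1) → ℕ) (f : Fin (n + 1)), z f < e0 f → G 0 → Kp c e0 z →
      ¬ U f → w 0 < f := by
    intro z f hzf hG hK hUf
    by_contra hcon
    have h1 := hU0 hG f hUf (not_lt.mp hcon)
    have h2 := (hK.1 f).1
    rcases Nat.lt_or_ge (e0 f) (2 ^ c) with h3 | h3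
    · have h4 := (hK.1 f).2 h3
      omega
    · have hpow := Nat.one_le_two_pow (n := c)
      rw [pow_succ] at h1
      have h4 : e0 f / 2 ^ c = 1 := by
        rw [Nat.div_eq_iff (by omega)]
        omega
      have h5 := hK.2 f (by rw [h4]; norm_num)
      have h6 := div_lt_div_of_mod c h2 hzf
      rw [h4] at h6
      exact h5 (Nat.lt_one_iff.mp h6)
  -- a summand all of whose terms have the first difference `f`
  have hdif : ∀ l ≤ u, ∀ m ≤ l, f < w (l + 1) → (∀ j ≤ l, f ≠ w j) →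
      piop Θ m (Λ (tl w r l (mono y))) ∈ msp (fun y => NLT y (fun i => e0 i / 2 ^ c)) := by
    intro l hl m hm hfl hfw
    refine tl_map S.inc (by omega) y (piop Θ m ∘ₗ Λ) _ fun c' hc => ?_
    obtain ⟨h1, h2⟩ := term_dif S hl hf hf' hfl hfw hc
    refine sv_dif L M (by omega) (hterm l hl c' hc) h1 h2 (hkp _ f h2) fun i hi _ hwi => ?_
    rw [term_next S hl (by omega) hc, hf _ hwi, S.he i (by omega), S.e0_w (by omega)]
  by_cases hex : ∃ j ≤ u, f = w j
  · obtain ⟨j, hj, rfl⟩ := hex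
    rw [S.he j hj] at hf'
    have h0 : psim w r u Θ Λ (mono y) =
        Λ (∑ l ∈ Finset.range (j + 1), tl w r l (mono y)) +
          ∑ l ∈ Finset.range (j + 1), (piop Θ l (Λ (tl w r l (mono y))) + Λ (tl w r l (mono y))) +
          ∑ l ∈ Finset.Ico (j + 1) (u + 1), piop Θ l (Λ (tl w r l (mono y))) := by
      rw [psim_apply, ← Finset.sum_range_add_sum_Ico _ (by omega : j + 1 ≤ u + 1), map_sum,
        Finset.sum_add_distrib]
      congr 1
      have h : ∀ A B : MvPolynomial (Fin (n + 1)) (ZMod 2), A = B + (A + B) := by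
        intro A B
        have : B + (A + B) = A + (B + B) := by ring
        rw [this, CharTwo.add_self_eq_zero, add_zero]
      exact h _ _
    rw [h0]
    refine Submodule.add_mem _ (Submodule.add_mem _
      (sg_nlt L (part_sum S hsum hle hj hf hf')) (Submodule.sum_mem _ fun l hl => ?_))
      (Submodule.sum_mem _ fun l hl => ?_)
    · rw [Finset.mem_range] at hl
      refine tl_map S.inc (by omega) y (piop Θ l ∘ₗ Λ + Λ) _ fun c' hc => ?_
      refine sv_agree L M (by omega) (hterm l (by omega) c' hc)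
        (term_agree S (by omega) le_rfl (fun i hi => ?_) hc)
      exact hf i (lt_of_lt_of_le hi (S.inc.le (by omega) (by omega)))
    · rw [Finset.mem_Ico] at hl
      refine tl_map S.inc (by omega) y (piop Θ l ∘ₗ Λ) _ fun c' hc => ?_
      have h1 := term_agree S (by omega : l ≤ u) (by omega : j ≤ l) hf hc
      have h2 := term_next S (by omega : l ≤ u) (by omega : j < l) hc
      show piop Θ l (Λ (mono (c' + bs w l y))) ∈ _
      rcases hterm l (by omega) c' hc with h3 | h3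
      swap
      · exact sv_low L M (by omega) h3
      by_cases hG : G j
      · rw [sv_kill L M (by omega : j < l) (by omega) hG (by
          rw [h2, S.e0_w (by omega)]; exact hf')]
        exact Submodule.zero_mem _
      · by_cases hK : Kp c e0 (c' + bs w l y)
        · obtain ⟨f', h4, h5, h6, h7⟩ := gap_dif (by omega : j < u) S
            (hgap j (by omega) hG) hK h3 h1 (by rw [h2]; exact hf')
          refine sv_dif L M (by omega) (Or.inl h3) h6 h7 (hkp _ f' h7) fun i hi hGi hwi => ?_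
          have h8 : i < j := by
            rcases Nat.lt_trichotomy i j with h9 | h9 | h9
            · exact h9
            · rw [h9] at hGi; exact absurd hGi hG
            · exfalso
              have h10 : w (j + 1) ≤ w i := S.inc.le (by omega) (by omega)
              exact absurd (lt_of_lt_of_le hwi (h5.trans h10)) (lt_irrefl _)
          exact h1 _ (S.inc.le (by omega) (by omega))
        · rw [L.neg _ hK, map_zero]; exact Submodule.zero_mem _
  · -- the first difference is not one of the `w j`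
    have hfw : ∀ j ≤ u, f ≠ w j := fun j hj h => hex ⟨j, hj, h⟩
    rw [psim_split]
    refine Submodule.add_mem _ (sg_nlt L (msp_mono (fun z hz => ?_) (S.TAY hy)))
      (Submodule.sum_mem _ fun l hl => ?_)
    · rcases hz with hz | hz
      · exact hz
      · exact absurd hz (no_bad S hf hf' hfw)
    · rw [Finset.mem_range] at hl
      rcases lt_or_ge f (w l) with h1 | h1
      · have h2 : f < w (l + 1) := h1.trans (S.inc l (l + 1) (by omega) (by omega))
        have h3 : ∀ j ≤ l, f ≠ w j := fun j hj => hfw j (by omega)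
        exact Submodule.add_mem _ (hdif l (by omega) l le_rfl h2 h3)
          (hdif l (by omega) 0 (Nat.zero_le _) h2 h3)
      · refine tl_map S.inc (by omega) y (piop Θ l ∘ₗ Λ + Λ) _ fun c' hc => ?_
        refine sv_agree L M (by omega) (hterm l (by omega) c' hc)
          (term_agree S (by omega) le_rfl (fun i hi => ?_) hc)
        exact hf i (lt_of_lt_of_le hi h1)

/-- the gap criterion with corrections: each gap satisfies the gap criterion or carries an
operator -/
theorem Wk.multi (S : Wk w r u e e0) {c : ℕ}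
    (ht : ∀ i, e0 i % 2 ^ c = 2 ^ c - 1 ∨ ∃ a ≤ c, e0 i = 2 ^ a - 1)
    (M : Ms (fun i => e0 i / 2 ^ c) w u U G Θ)
    (hU0 : G 0 → ∀ i, ¬ U i → i ≤ w 0 → e0 i < 2 ^ (c + 1))
    (hgap : ∀ j < u, ¬ G j → ∀ i, w j < i → i < w (j + 1) →
      (∀ l, i ≤ l → e0 l % 2 ^ r = 2 ^ r - 1 ∨ e0 l < 2 ^ c) ∨
      (∀ l s, i < l → e0 l / 2 ^ s % 2 = 1 → e0 i / 2 ^ s % 2 = 1 ∨ e0 l < 2 ^ c) ∨
      e0 i < 2 ^ c ∨ r ≤ c + 1)
    (h : Adm e0) : Adm e := by
  obtain ⟨Λ, L⟩ := exists_sg c e0 ht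
  refine adm_transport (psim w r u Θ Λ) (fun g hg => ?_) ?_ (fun y hy => ?_) (adm_halfk c h)
  · rw [psim_apply]
    refine Submodule.mem_sup_left (Submodule.sum_mem _ fun l hl => ?_)
    rw [Finset.mem_range] at hl
    exact M.hits (by omega) (L.hits _ (tl_hits hg))
  · exact Submodule.mem_sup_right (psim_full S L M)
  · exact Submodule.mem_sup_right (psim_low S L M hU0 hgap hy)

end main

end Pool.Agent.SUC
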