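import Pool.Agent.SUC.OmegaA

set_option autoImplicit false

/-!
# The operator C for any number of variables, part 2: `rop` on monomials
-/

namespace Pool.Agent.SUC

open Pool.Agent.Helper60.Hit MvPolynomial Pool.Agent.CTL45 Pool.Agent.HitD5

variable {n : ℕ}

/-- the exponent vector of the `j`-term of `Z` -/
def zz (b j : Fin n) (z : Fin n → ℕ) : Fin n → ℕ :=
  Function.update (Function.update z j (z j + z b - 1)) b 1

theorem zz_b (b j : Fin n) (z : Fin n → ℕ) : zz b j z b = 1 := by
  unfold zz
  rw [Function.update_self]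

theorem zz_self {b j : Fin n} (hj : j ≠ b) (z : Fin n → ℕ) : zz b j z j = z j + z b - 1 := by
  unfold zz
  rw [Function.update_of_ne hj, Function.update_self]

theorem zz_other {b j i : Fin n} (hi : i ≠ b) (hij : i ≠ j) (z : Fin n → ℕ) :
    zz b j z i = z i := by
  unfold zz
  rw [Function.update_of_ne hi, Function.update_of_ne hij]

theorem zz_eq_self {b j : Fin n} (hj : j ≠ b) {z : Fin n → ℕ} (h : z b = 1) : zz b j z = z := by
  funext i
  by_cases hi : i = b
  · subst hi; rw [zz_b, h]
  · by_cases hij : i = j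
    · subst hij; rw [zz_self hj, h]; rfl
    · rw [zz_other hi hij]

theorem gterm {b j : Fin n} (hj : j ≠ b) (z : Fin n → ℕ) :
    gop b j (sbv b (X j) (mono z)) =
      if (∀ i, i ≠ b → (if i = j then z j + z b else z i) % 2 = 1) then mono (zz b j z)
        else 0 := by
  have h1 : sbv b (X j) (mono z) = mono (Function.update z b 0 + Pi.single j (z b)) := by
    rw [sbv_mono, X_pow_eq_mono, mono_add, mul_comm]
  have hwb : (Function.update z b 0 + Pi.single j (z b) : Fin n → ℕ) b = 0 := by
    rw [Pi.add_apply, Function.update_self, Pi.single_eq_of_ne hj.symm, add_zero]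
  have hwi : ∀ i, i ≠ b → (Function.update z b 0 + Pi.single j (z b) : Fin n → ℕ) i =
      if i = j then z j + z b else z i := by
    intro i hi
    rw [Pi.add_apply, Function.update_of_ne hi]
    by_cases hij : i = j
    · subst hij; rw [Pi.single_eq_same, if_pos rfl]
    · rw [Pi.single_eq_of_ne hij, if_neg hij, add_zero]
  rw [h1, gop_mono]
  by_cases hc : ∀ i, i ≠ b → (if i = j then z j + z b else z i) % 2 = 1
  · rw [if_pos hc, if_pos ⟨hwb, fun i hi => by rw [hwi i hi]; exact hc i hi⟩]
    congr 1
    funext i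
    by_cases hi1 : i = b
    · subst hi1; rw [Function.update_self, zz_b]
    · rw [Function.update_of_ne hi1]
      by_cases hij : i = j
      · subst hij
        rw [Function.update_self, zz_self hj, hwi i hj, if_pos rfl]
      · rw [Function.update_of_ne hij, zz_other hi1 hij, hwi i hi1, if_neg hij]
  · rw [if_neg hc, if_neg]
    rintro ⟨-, h⟩
    apply hc
    intro i hi
    rw [← hwi i hi]
    exact h i hi

theorem rop_zero {b : Fin n} {J : Finset (Fin n)} {z : Fin n → ℕ} (h : z b = 0) :
    rop b J (mono z) = mono z := by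
  rw [rop_apply, sbv_zero_mono, if_pos h, CharTwo.add_self_eq_zero, map_zero, add_zero]

theorem rop_pos {b : Fin n} {J : Finset (Fin n)} {z : Fin n → ℕ} (h : z b ≠ 0) :
    rop b J (mono z) = zop b J (mono z) := by
  rw [rop_apply, sbv_zero_mono, if_neg h, add_zero, zero_add]

theorem wt_zz {b j : Fin n} (hj : j ≠ b) {z : Fin n → ℕ} (h1 : z b ≠ 0)
    (h : z b % 2 = 1 ∨ z j % 2 = 1) : LexLE (wt (zz b j z)) (wt z) := by
  have key := bt_merge (a := z j) (s := z b) (by omega) h
  obtain ⟨R, e1, e2⟩ := wt_two hj (z := z) (y := zz b j z) (fun i hi hij => zz_other hi hij z)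
  rw [e1, e2, zz_b, zz_self hj]
  have h2 := LexLE.add_right key R
  rwa [add_assoc, add_assoc] at h2

/-- a term of `Z` -/
theorem gterm_mem {b j : Fin n} (hj : j ≠ b) {z : Fin n → ℕ} (h1 : z b ≠ 0) :
    gop b j (sbv b (X j) (mono z)) ∈
      msp (fun y => LexLE (wt y) (wt z) ∧ ∀ i, i ≠ b → i ≠ j → y i = z i) := by
  rw [gterm hj]
  split_ifs with hc
  · refine mono_mem_msp ⟨wt_zz hj h1 ?_, fun i hi hij => zz_other hi hij z⟩
    have := hc j hj
    rw [if_pos rfl] at this
    omega
  · exact Submodule.zero_mem _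

/-- `rop` does not raise the weight vector -/
theorem rop_le {b : Fin n} {J : Finset (Fin n)} (hJ : b ∉ J) (z : Fin n → ℕ) :
    rop b J (mono z) ∈
      msp (fun y => LexLE (wt y) (wt z) ∧ ∀ i, i ≠ b → i ∉ J → y i = z i) := by
  by_cases h1 : z b = 0
  · rw [rop_zero h1]
    exact mono_mem_msp ⟨Or.inl rfl, fun _ _ _ => rfl⟩
  · rw [rop_pos h1, zop_apply]
    refine Submodule.sum_mem _ fun j hj => ?_
    refine msp_mono (fun y hy => ⟨hy.1, fun i hi hiJ => hy.2 i hi ?_⟩)
      (gterm_mem (ne_of_mem_of_not_mem hj hJ) h1)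
    rintro rfl
    exact hiJ hj

/-- small weight stays small under `rop` -/
theorem rop_lt {b : Fin n} {J : Finset (Fin n)} (hJ : b ∉ J) {t z : Fin n → ℕ}
    (h : LexLT (wt z) (wt t)) : rop b J (mono z) ∈ msp (fun y => NLT y t) :=
  msp_mono (fun _ hy => Or.inl (hy.1.trans_lt h)) (rop_le hJ z)

/-- a first difference at a place which `rop` does not touch -/
theorem rop_front {b : Fin n} {J : Finset (Fin n)} (hJ : b ∉ J) {t z : Fin n → ℕ}
    (hle : LexLE (wt z) (wt t)) {f : Fin n} (hf : ∀ i < f, z i = t i) (hf' : z f < t f)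
    (hfJ : ∀ i ≤ f, i ≠ b ∧ i ∉ J) : rop b J (mono z) ∈ msp (fun y => NLT y t) := by
  refine msp_mono (fun y hy => ?_) (rop_le hJ z)
  rcases LexLE.trans hy.1 hle with h | h
  · refine Or.inr ⟨h, f, fun i hi => ?_, ?_⟩
    · rw [hy.2 i (hfJ i (le_of_lt hi)).1 (hfJ i (le_of_lt hi)).2]
      exact hf i hi
    · rw [hy.2 f (hfJ f le_rfl).1 (hfJ f le_rfl).2]
      exact hf'
  · exact Or.inl h

/-- `Z` on a monomial with odd exponent at `b` and exactly one even exponent -/
theorem zop_single {b j0 : Fin n} {J : Finset (Fin n)} (hJ : b ∉ J) {z : Fin n → ℕ}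
    (hj0 : j0 ≠ b) (hzb : z b % 2 = 1) (he : z j0 % 2 = 0) (ho : ∀ i, i ≠ j0 → z i % 2 = 1) :
    zop b J (mono z) = if j0 ∈ J then mono (zz b j0 z) else 0 := by
  rw [zop_apply]
  have h : ∀ j ∈ J, gop b j (sbv b (X j) (mono z)) =
      if j = j0 then mono (zz b j0 z) else 0 := by
    intro j hj
    have hjb : j ≠ b := ne_of_mem_of_not_mem hj hJ
    rw [gterm hjb]
    by_cases hjj : j = j0
    · subst hjj
      rw [if_pos rfl, if_pos]
      intro i hi
      by_cases h : i = j
      · rw [if_pos h]; omega
      · rw [if_neg h]; exact ho i h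
    · rw [if_neg hjj, if_neg]
      intro h
      have := h j0 hj0
      rw [if_neg (fun h => hjj h.symm)] at this
      omega
  rw [Finset.sum_congr rfl h]
  exact Finset.sum_ite_eq' J j0 (fun _ => mono (zz b j0 z))

theorem rop_small {b : Fin n} {J : Finset (Fin n)} (hJ : b ∉ J) {t z : Fin n → ℕ}
    (hn : wt t 0 = n - 1) (h1 : z b < 3) (hw : wt z = wt t)
    (hpre : ∀ i, i ≠ b → i ∉ J → z i % 4 = 3) :
    mono z + rop b J (mono z) ∈ hits n ⊔ msp (fun y => NLT y t) := by
  have hnpos : 0 < n := lt_of_le_of_lt (Nat.zero_le _) b.isLt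
  obtain ⟨j0, he, ho⟩ := exists_even hnpos (z := z) (by rw [hw]; exact hn)
  have h01 : z b = 0 ∨ z b = 1 ∨ z b = 2 := by omega
  rcases h01 with h01 | h01 | h01
  · rw [rop_zero h01, CharTwo.add_self_eq_zero]
    exact Submodule.zero_mem _
  · have hj0 : j0 ≠ b := by
      rintro rfl
      omega
    rw [rop_pos (by omega), zop_single hJ hj0 (by omega) he ho, if_pos, zz_eq_self hj0 h01,
      CharTwo.add_self_eq_zero]
    · exact Submodule.zero_mem _
    · by_contra hcon
      have := hpre j0 hj0 hcon
      omega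
  · have hb : j0 = b := by
      by_contra hcon
      have := ho b (fun h => hcon h.symm)
      omega
    subst hb
    have hodd : ∀ i, (Function.update z j0 1) i % 2 = 1 := by
      intro i
      by_cases hi : i = j0
      · subst hi; rw [Function.update_self]
      · rw [Function.update_of_ne hi]
        exact ho i hi
    have hsq := sq1_odd_mem hodd
    have e1 : Function.update z j0 1 + Pi.single j0 1 = z := by
      funext i
      rw [Pi.add_apply]
      by_cases hi : i = j0
      · subst hi; rw [Function.update_self, Pi.single_eq_same, h01]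
      · rw [Function.update_of_ne hi, Pi.single_eq_of_ne hi, add_zero]
    have e2 : ∀ j : Fin n, j ≠ j0 → Function.update z j0 1 + Pi.single j 1 = zz j0 j z := by
      intro j hj
      funext i
      rw [Pi.add_apply]
      by_cases hi : i = j0
      · subst hi; rw [Function.update_self, Pi.single_eq_of_ne hj.symm, zz_b, add_zero]
      · rw [Function.update_of_ne hi]
        by_cases hij : i = j
        · subst hij; rw [Pi.single_eq_same, zz_self hj, h01]; rfl
        · rw [Pi.single_eq_of_ne hij, zz_other hi hij, add_zero]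
    have hsub : J ⊆ Finset.univ.erase j0 := by
      intro j hj
      rw [Finset.mem_erase]
      exact ⟨ne_of_mem_of_not_mem hj hJ, Finset.mem_univ j⟩
    rw [← Finset.add_sum_erase _ _ (Finset.mem_univ j0), e1, ← Finset.sum_sdiff hsub] at hsq
    have hR : rop j0 J (mono z) =
        ∑ j ∈ J, mono (Function.update z j0 1 + Pi.single j 1) := by
      rw [rop_pos (by omega), zop_apply]
      refine Finset.sum_congr rfl fun j hj => ?_
      have hjb : j ≠ j0 := ne_of_mem_of_not_mem hj hJ
      rw [gterm hjb, if_pos, e2 j hjb]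
      intro i hi
      by_cases h : i = j
      · rw [if_pos h]
        have := ho j hjb
        omega
      · rw [if_neg h]
        exact ho i hi
    rw [hR]
    have hrest : ∑ j ∈ Finset.univ.erase j0 \ J,
        mono (Function.update z j0 1 + Pi.single j 1) ∈ msp (fun y => NLT y t) := by
      refine Submodule.sum_mem _ fun j hj => mono_mem_msp ?_
      rw [Finset.mem_sdiff, Finset.mem_erase] at hj
      have hjb := hj.1.1
      have h4 := hpre j hjb hj.2
      rw [e2 j hjb]
      left
      rw [← hw]
      obtain ⟨R, f1, f2⟩ := wt_two hjb (z := z) (y := zz j0 j z)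
        (fun i hi hij => zz_other hi hij z)
      rw [f1, f2, zz_b, zz_self hjb, h01]
      refine ⟨1, fun l hl => ?_, ?_⟩
      · have hl0 : l = 0 := by omega
        subst hl0
        simp only [Pi.add_apply, bt, pow_zero, Nat.div_one]
        omega
      · simp only [Pi.add_apply, bt, pow_one]
        omega
    generalize ∑ j ∈ Finset.univ.erase j0 \ J,
      mono (Function.update z j0 1 + Pi.single j 1) = A at hsq hrest
    generalize ∑ j ∈ J, mono (Function.update z j0 1 + Pi.single j 1) = B at hsq
    have e3 : mono z + B = (mono z + (A + B)) + A := by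
      have : (mono z + (A + B)) + A = mono z + B + (A + A) := by abel
      rw [this, CharTwo.add_self_eq_zero, add_zero]
    rw [e3]
    exact Submodule.add_mem_sup hsq hrest

theorem rop_three {b : Fin n} {J : Finset (Fin n)} (hJ : b ∉ J) {t z : Fin n → ℕ}
    (hn : wt t 0 = n - 1) (htb : t b = 3)
    (ht : ∀ i < b, t i % 4 = 3 ∨ (t i = 1 ∧ z i ≠ 0)) (hzb : z b = 3)
    (hpre : (∀ i < b, z i = t i) ∨ ∃ f < b, (∀ i < f, z i = t i) ∧ z f < t f)
    (hw : wt z = wt t) : rop b J (mono z) ∈ msp (fun y => NLT y t) := by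
  have hnpos : 0 < n := lt_of_le_of_lt (Nat.zero_le _) b.isLt
  obtain ⟨j0, he, ho⟩ := exists_even hnpos (z := z) (by rw [hw]; exact hn)
  have hj0 : j0 ≠ b := by
    rintro rfl
    omega
  rw [rop_pos (by omega), zop_single hJ hj0 (by omega) he ho]
  split_ifs with hj0J
  swap
  · exact Submodule.zero_mem _
  refine mono_mem_msp ?_
  rcases wt_zz hj0 (z := z) (by omega) (Or.inl (by omega)) with heq | hlt
  swap
  · left; rw [← hw]; exact hlt
  rcases lt_trichotomy j0 b with hj | hj | hj
  · have htj := ht j0 hj
    rcases hpre with hpre | ⟨f, hfb, hf, hf'⟩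
    · have := hpre j0 hj
      omega
    · rcases lt_trichotomy f j0 with h | h | h
      · refine Or.inr ⟨heq.trans hw, f, fun i hi => ?_, ?_⟩
        · rw [zz_other (ne_of_lt (hi.trans hfb)) (ne_of_lt (hi.trans h))]
          exact hf i hi
        · rw [zz_other (ne_of_lt hfb) (ne_of_lt h)]
          exact hf'
      · subst h
        have htj2 : t f % 4 = 3 := by
          rcases htj with htj | ⟨htj, hzj⟩
          · exact htj
          · omega
        clear htj
        rcases (show z f % 4 = 0 ∨ z f % 4 = 2 by omega) with h4 | h4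
        · refine Or.inr ⟨heq.trans hw, f, fun i hi => ?_, ?_⟩
          · rw [zz_other (ne_of_lt (hi.trans hfb)) (ne_of_lt hi)]
            exact hf i hi
          · rw [zz_self hj0, hzb]
            omega
        · left
          rw [← hw]
          obtain ⟨R, f1, f2⟩ := wt_two hj0 (z := z) (y := zz b f z)
            (fun i hi hij => zz_other hi hij z)
          rw [f1, f2, zz_b, zz_self hj0, hzb]
          refine ⟨1, fun l hl => ?_, ?_⟩
          · have hl0 : l = 0 := by omega
            subst hl0
            simp only [Pi.add_apply, bt, pow_zero, Nat.div_one]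
            omega
          · simp only [Pi.add_apply, bt, pow_one]
            omega
      · have := hf j0 h
        omega
  · exact absurd hj hj0
  · rcases hpre with hpre | ⟨f, hfb, hf, hf'⟩
    · refine Or.inr ⟨heq.trans hw, b, fun i hi => ?_, ?_⟩
      · rw [zz_other (ne_of_lt hi) (ne_of_lt (hi.trans hj))]
        exact hpre i hi
      · rw [zz_b, htb]
        norm_num
    · refine Or.inr ⟨heq.trans hw, f, fun i hi => ?_, ?_⟩
      · rw [zz_other (ne_of_lt (hi.trans hfb)) (ne_of_lt (hi.trans (hfb.trans hj)))]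
        exact hf i hi
      · rw [zz_other (ne_of_lt hfb) (ne_of_lt (hfb.trans hj))]
        exact hf'

end Pool.Agent.SUC
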