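import Pool.Agent.SUC.OmegaB

set_option autoImplicit false

/-!
# The substitution `x_a ↦ x_b + x_a` and the corrected operator for an even exponent in the gap
-/

namespace Pool.Agent.SUC

open Pool.Agent.Helper60.Hit MvPolynomial Pool.Agent.CTL45 Pool.Agent.HitD5

variable {n : ℕ}

/-- `x_a ↦ x_b + x_a`, the other variables fixed -/
noncomputable def tau (a b : Fin n) :
    MvPolynomial (Fin n) (ZMod 2) →ₗ[ZMod 2] MvPolynomial (Fin n) (ZMod 2) :=
  (sbv a (X b + X a)).toLinearMap

theorem tau_hits (a b : Fin n) {g : MvPolynomial (Fin n) (ZMod 2)} (hg : g ∈ hits n) :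
    tau a b g ∈ hits n := by
  unfold tau
  rw [AlgHom.toLinearMap_apply]
  exact sbv_hits a (lin_add (lin_X b) (lin_X a)) hg

/-- the exponent vector of a term of `tau a b (mono z)` -/
def tt (a b : Fin n) (z : Fin n → ℕ) (i : ℕ) : Fin n → ℕ :=
  Function.update (Function.update z a (z a - i)) b (z b + i)

theorem tt_b (a b : Fin n) (z : Fin n → ℕ) (i : ℕ) : tt a b z i b = z b + i := by
  unfold tt
  rw [Function.update_self]

theorem tt_a {a b : Fin n} (h : a ≠ b) (z : Fin n → ℕ) (i : ℕ) : tt a b z i a = z a - i := by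
  unfold tt
  rw [Function.update_of_ne h, Function.update_self]

theorem tt_other {a b l : Fin n} (hb : l ≠ b) (ha : l ≠ a) (z : Fin n → ℕ) (i : ℕ) :
    tt a b z i l = z l := by
  unfold tt
  rw [Function.update_of_ne hb, Function.update_of_ne ha]

theorem tt_zero {a b : Fin n} (h : a ≠ b) (z : Fin n → ℕ) : tt a b z 0 = z := by
  funext l
  by_cases hb : l = b
  · subst hb; rw [tt_b, add_zero]
  · by_cases ha : l = a
    · subst ha; rw [tt_a h, Nat.sub_zero]
    · rw [tt_other hb ha]

theorem tau_sum {a b : Fin n} (h : a ≠ b) (z : Fin n → ℕ) :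
    tau a b (mono z) = ∑ i ∈ Finset.range (z a + 1),
      (((z a).choose i : ℕ) : MvPolynomial (Fin n) (ZMod 2)) * mono (tt a b z i) := by
  unfold tau
  rw [AlgHom.toLinearMap_apply, sbv_mono, add_pow, Finset.sum_mul]
  refine Finset.sum_congr rfl fun i _ => ?_
  have h1 : mono (tt a b z i) = mono (Pi.single b i : Fin n → ℕ) *
      mono (Pi.single a (z a - i) : Fin n → ℕ) * mono (Function.update z a 0) := by
    rw [← mono_add, ← mono_add]
    congr 1
    funext l
    rw [Pi.add_apply, Pi.add_apply]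
    by_cases hb : l = b
    · subst hb
      rw [tt_b, Pi.single_eq_same, Pi.single_eq_of_ne h.symm, Function.update_of_ne h.symm]
      omega
    · by_cases ha : l = a
      · subst ha
        rw [tt_a h, Pi.single_eq_of_ne hb, Pi.single_eq_same, Function.update_self]
        omega
      · rw [tt_other hb ha, Pi.single_eq_of_ne hb, Pi.single_eq_of_ne ha,
          Function.update_of_ne ha]
        omega
  rw [h1, X_pow_eq_mono, X_pow_eq_mono]
  ring

theorem tt_wt {a b : Fin n} (h : a ≠ b) {z : Fin n → ℕ} {i : ℕ}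
    (hodd : (z a).choose i % 2 = 1) : LexLE (wt (tt a b z i)) (wt z) := by
  obtain ⟨R, e1, e2⟩ := wt_two h (z := z) (y := tt a b z i)
    (fun l hl hl' => tt_other hl hl' z i)
  rw [e1, e2, tt_b, tt_a h]
  have h1 : bt (z a) = bt i + bt (z a - i) := by
    funext s
    exact (lucas_bits _ _ hodd).2 s
  have h2 := LexLE.add_right (bt_add_le (z b) i) (bt (z a - i) + R)
  have h3 : bt (z b) + bt i + (bt (z a - i) + R) = bt (z b) + (bt (z a) + R) := by
    rw [h1]; abel
  rwa [h3] at h2

/-- `tau` keeps the monomials below `t` -/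
theorem tau_nlt {a b : Fin n} (h : a < b) {t z : Fin n → ℕ} (hz : NLT z t) :
    tau a b (mono z) ∈ msp (fun y => NLT y t) := by
  have hne := ne_of_lt h
  rw [tau_sum hne]
  refine Submodule.sum_mem _ fun i hi => natCast_mul_mem _ fun hodd => mono_mem_msp ?_
  have hle := (lucas_bits _ _ hodd).1
  have hwt := tt_wt hne (z := z) hodd
  rcases hz with hlt | ⟨hw, f, hf, hf'⟩
  · exact Or.inl (hwt.trans_lt hlt)
  · rcases hwt with heq | hlt
    · rcases Nat.eq_zero_or_pos i with hi0 | hi0
      · rw [hi0, tt_zero hne]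
        exact Or.inr ⟨hw, f, hf, hf'⟩
      · rcases lt_trichotomy f a with hfa | hfa | hfa
        · refine Or.inr ⟨heq.trans hw, f, fun l hl => ?_, ?_⟩
          · rw [tt_other (ne_of_lt ((hl.trans hfa).trans h)) (ne_of_lt (hl.trans hfa))]
            exact hf l hl
          · rw [tt_other (ne_of_lt (hfa.trans h)) (ne_of_lt hfa)]
            exact hf'
        · subst hfa
          refine Or.inr ⟨heq.trans hw, f, fun l hl => ?_, ?_⟩
          · rw [tt_other (ne_of_lt (hl.trans h)) (ne_of_lt hl)]
            exact hf l hl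
          · rw [tt_a hne]
            omega
        · refine Or.inr ⟨heq.trans hw, a, fun l hl => ?_, ?_⟩
          · rw [tt_other (ne_of_lt (hl.trans h)) (ne_of_lt hl)]
            exact hf l (hl.trans hfa)
          · rw [tt_a hne, ← hf a hfa]
            omega
    · left
      rw [← hw]
      exact hlt

theorem tau_mem {a b : Fin n} (h : a < b) {t : Fin n → ℕ}
    {f : MvPolynomial (Fin n) (ZMod 2)} (hf : f ∈ hits n ⊔ msp (fun y => NLT y t)) :
    tau a b f ∈ hits n ⊔ msp (fun y => NLT y t) := by
  rw [Submodule.mem_sup] at hf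
  obtain ⟨g, hg, k, hk, rfl⟩ := hf
  rw [map_add]
  exact Submodule.add_mem_sup (tau_hits a b hg) (map_msp (tau a b) _ (fun y hy => tau_nlt h hy) hk)

/-- `tau` of a monomial which agrees with `t` up to `a` -/
theorem tau_self {a b : Fin n} (h : a < b) {t z : Fin n → ℕ} (hw : wt z = wt t)
    (hz : ∀ i ≤ a, z i = t i) :
    tau a b (mono z) + mono z ∈ msp (fun y => NLT y t) := by
  have hne := ne_of_lt h
  rw [tau_sum hne, Finset.sum_range_succ', Nat.choose_zero_right, Nat.cast_one, one_mul,
    tt_zero hne, add_assoc, CharTwo.add_self_eq_zero, add_zero]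
  refine Submodule.sum_mem _ fun i hi => natCast_mul_mem _ fun hodd => mono_mem_msp ?_
  rw [Finset.mem_range] at hi
  rcases tt_wt hne (z := z) hodd with heq | hlt
  · refine Or.inr ⟨heq.trans hw, a, fun l hl => ?_, ?_⟩
    · rw [tt_other (ne_of_lt (hl.trans h)) (ne_of_lt hl)]
      exact hz l (le_of_lt hl)
    · rw [tt_a hne, ← hz a le_rfl]
      omega
  · left
    rw [← hw]
    exact hlt

/-- `tau` of the term of `Z` at `a` -/
theorem tau_zz {a b : Fin n} (h : a < b) {t z : Fin n → ℕ} (hw : wt z = wt t)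
    (hz : ∀ i ≤ a, z i = t i) (hzb : z b = 3) (hza : z a % 4 = 0) :
    tau a b (mono (zz b a z)) + mono (zz b a z) + mono z ∈ msp (fun y => NLT y t) := by
  have hne := ne_of_lt h
  obtain ⟨v, hv⟩ : ∃ v, v = zz b a z := ⟨_, rfl⟩
  have hva : v a = z a + 2 := by rw [hv, zz_self hne, hzb]; rfl
  have hvb : v b = 1 := by rw [hv, zz_b]
  have hvo : ∀ l, l ≠ b → l ≠ a → v l = z l := fun l h1 h2 => by rw [hv, zz_other h1 h2]
  have hvw : LexLE (wt v) (wt t) := by
    rw [hv, ← hw]
    exact wt_zz hne (by omega) (Or.inl (by omega))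
  rw [← hv]
  have hsum := tau_sum hne v
  have e2 : tt a b v 2 = z := by
    funext l
    by_cases hb : l = b
    · subst hb; rw [tt_b, hvb, hzb]
    · by_cases ha : l = a
      · subst ha; rw [tt_a hne, hva]; rfl
      · rw [tt_other hb ha, hvo l hb ha]
  have c1 : (((v a).choose 1 : ℕ) : MvPolynomial (Fin n) (ZMod 2)) = 0 := by
    rw [Nat.choose_one_right, CharP.cast_eq_zero_iff (MvPolynomial (Fin n) (ZMod 2)) 2, hva]
    omega
  have c2 : (((v a).choose 2 : ℕ) : MvPolynomial (Fin n) (ZMod 2)) = 1 := by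
    refine odd_natCast _ ?_
    obtain ⟨j, hj⟩ : ∃ j, z a = 4 * j := ⟨z a / 4, by omega⟩
    have h5 : (4 * j + 2).choose 2 = (2 * j + 1) * (4 * j + 1) := by
      rw [Nat.choose_two_right]
      have h6 : (4 * j + 2) * (4 * j + 2 - 1) = 2 * ((2 * j + 1) * (4 * j + 1)) := by
        have : 4 * j + 2 - 1 = 4 * j + 1 := by omega
        rw [this]; ring
      rw [h6]
      omega
    rw [hva, hj, h5, Nat.mul_mod]
    have h7 : (2 * j + 1) % 2 = 1 := by omega
    have h8 : (4 * j + 1) % 2 = 1 := by omega
    rw [h7, h8]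
  have e3 : v a + 1 = z a + 1 + 1 + 1 := by omega
  rw [e3, Finset.sum_range_succ', Finset.sum_range_succ', Finset.sum_range_succ'] at hsum
  rw [Nat.choose_zero_right, Nat.cast_one, one_mul, tt_zero hne] at hsum
  have e4 : (0 : ℕ) + 1 = 1 := rfl
  have e5 : (0 : ℕ) + 1 + 1 = 2 := rfl
  rw [e5, e4, c1, c2, e2, zero_mul, add_zero, one_mul] at hsum
  rw [hsum]
  have hR : ∑ i ∈ Finset.range (z a), (((v a).choose (i + 1 + 1 + 1) : ℕ) :
      MvPolynomial (Fin n) (ZMod 2)) * mono (tt a b v (i + 1 + 1 + 1)) ∈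
        msp (fun y => NLT y t) := by
    refine Submodule.sum_mem _ fun i hi => natCast_mul_mem _ fun hodd => mono_mem_msp ?_
    have h5 := (lucas_bits _ _ hodd).2 0
    rw [pow_zero, Nat.div_one, Nat.div_one, Nat.div_one] at h5
    have h6 := (lucas_bits _ _ hodd).1
    rcases LexLE.trans (tt_wt hne (z := v) hodd) hvw with heq | hlt
    · refine Or.inr ⟨heq, a, fun l hl => ?_, ?_⟩
      · rw [tt_other (ne_of_lt (hl.trans h)) (ne_of_lt hl),
          hvo l (ne_of_lt (hl.trans h)) (ne_of_lt hl)]
        exact hz l (le_of_lt hl)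
      · rw [tt_a hne, ← hz a le_rfl]
        omega
    · exact Or.inl hlt
  generalize ∑ i ∈ Finset.range (z a), (((v a).choose (i + 1 + 1 + 1) : ℕ) :
      MvPolynomial (Fin n) (ZMod 2)) * mono (tt a b v (i + 1 + 1 + 1)) = R at hR
  have e6 : R + mono z + mono v + mono v + mono z = R := by
    have : R + mono z + mono v + mono v + mono z =
        R + (mono v + mono v) + (mono z + mono z) := by abel
    rw [this, CharTwo.add_self_eq_zero, CharTwo.add_self_eq_zero, add_zero, add_zero]
  rw [e6]
  exact hR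

/-- the corrected operator -/
noncomputable def rop3 (a b : Fin n) (J : Finset (Fin n)) :
    MvPolynomial (Fin n) (ZMod 2) →ₗ[ZMod 2] MvPolynomial (Fin n) (ZMod 2) :=
  rop b J + tau a b ∘ₗ (LinearMap.id + rop b J)

theorem rop3_apply (a b : Fin n) (J : Finset (Fin n)) (f : MvPolynomial (Fin n) (ZMod 2)) :
    rop3 a b J f = rop b J f + tau a b (f + rop b J f) := rfl

theorem rop3_mem {a b : Fin n} (h : a < b) {J : Finset (Fin n)} {t : Fin n → ℕ}
    {f : MvPolynomial (Fin n) (ZMod 2)} (h1 : f ∈ hits n ⊔ msp (fun y => NLT y t))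
    (h2 : rop b J f ∈ hits n ⊔ msp (fun y => NLT y t)) :
    rop3 a b J f ∈ hits n ⊔ msp (fun y => NLT y t) := by
  rw [rop3_apply]
  exact Submodule.add_mem _ h2 (tau_mem h (Submodule.add_mem _ h1 h2))

theorem rop3_small {a b : Fin n} (h : a < b) {J : Finset (Fin n)} {t : Fin n → ℕ}
    {f : MvPolynomial (Fin n) (ZMod 2)}
    (h1 : f + rop b J f ∈ hits n ⊔ msp (fun y => NLT y t)) :
    f + rop3 a b J f ∈ hits n ⊔ msp (fun y => NLT y t) := by
  rw [rop3_apply, ← add_assoc]
  exact Submodule.add_mem _ h1 (tau_mem h h1)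

/-- `rop3` on a monomial with exponent `3` at `b`, the target has an even exponent at `a` -/
theorem rop3_three {a b : Fin n} (hab : a < b) {J : Finset (Fin n)} (hJ : b ∉ J) (haJ : a ∈ J)
    {t z : Fin n → ℕ} (hn : wt t 0 = n - 1) (hta : t a % 4 = 0)
    (ht : ∀ i < a, t i % 4 = 3 ∨ (t i = 1 ∧ z i ≠ 0)) (hzb : z b = 3)
    (hpre : (∀ i < b, z i = t i) ∨ ∃ f < b, (∀ i < f, z i = t i) ∧ z f < t f)
    (hw : wt z = wt t) : rop3 a b J (mono z) ∈ hits n ⊔ msp (fun y => NLT y t) := by
  have hnpos : 0 < n := lt_of_le_of_lt (Nat.zero_le _) b.isLt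
  obtain ⟨j0, he, ho⟩ := exists_even hnpos (z := z) (by rw [hw]; exact hn)
  have hj0 : j0 ≠ b := by
    rintro rfl
    omega
  have hzne : z b ≠ 0 := by omega
  have hrop := zop_single hJ hj0 (z := z) (by omega) he ho
  by_cases hA : ∀ i ≤ a, z i = t i
  · -- `z` agrees with `t` up to `a`
    have hza : z a % 4 = 0 := by rw [hA a le_rfl]; exact hta
    have hja : j0 = a := by
      by_contra hcon
      have := ho a (fun h => hcon h.symm)
      omega
    subst hja
    rw [if_pos haJ] at hrop
    rw [rop3_apply, rop_pos hzne, hrop, map_add]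
    have h1 := tau_self hab hw hA
    have h2 := tau_zz hab hw hA hzb hza
    refine Submodule.mem_sup_right ?_
    generalize tau j0 b (mono z) = T1 at h1
    generalize tau j0 b (mono (zz b j0 z)) = T2 at h2
    generalize mono (zz b j0 z) = v at h2
    have e : v + (T1 + T2) = (T1 + mono z) + (T2 + v + mono z) := by
      have : (T1 + mono z) + (T2 + v + mono z) = v + (T1 + T2) + (mono z + mono z) := by abel
      rw [this, CharTwo.add_self_eq_zero, add_zero]
    rw [e]
    exact Submodule.add_mem _ h1 h2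
  · -- `z` is below `t`
    rcases hpre with hpre | ⟨f, hfb, hf, hf'⟩
    · exact absurd (fun i hi => hpre i (lt_of_le_of_lt hi hab)) hA
    have hfa : f ≤ a := by
      by_contra hcon
      push Not at hcon
      exact hA fun i hi => hf i (lt_of_le_of_lt hi hcon)
    refine rop3_mem hab (Submodule.mem_sup_right (mono_mem_msp (Or.inr ⟨hw, f, hf, hf'⟩)))
      (Submodule.mem_sup_right ?_)
    rw [rop_pos hzne, hrop]
    split_ifs with hj0J
    swap
    · exact Submodule.zero_mem _
    refine mono_mem_msp ?_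
    rcases wt_zz hj0 (z := z) hzne (Or.inl (by omega)) with heq | hlt
    swap
    · left; rw [← hw]; exact hlt
    rcases lt_trichotomy f j0 with h | h | h
    · refine Or.inr ⟨heq.trans hw, f, fun i hi => ?_, ?_⟩
      · rw [zz_other (ne_of_lt (hi.trans hfb)) (ne_of_lt (hi.trans h))]
        exact hf i hi
      · rw [zz_other (ne_of_lt hfb) (ne_of_lt h)]
        exact hf'
    · subst h
      have h44 : z f % 4 = 2 ∨ z f + 2 < t f := by
        rcases (show z f % 4 = 0 ∨ z f % 4 = 2 by omega) with h4 | h4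
        · right
          by_cases hfa2 : f = a
          · rw [← hfa2] at hta
            omega
          · rcases ht f (lt_of_le_of_ne hfa hfa2) with htj | ⟨htj, hzj⟩
            · omega
            · omega
        · exact Or.inl h4
      rcases h44 with h4 | h4
      · left
        rw [← hw]
        obtain ⟨R, f1, f2⟩ := wt_two hj0 (z := z) (y := zz b f z)
          (fun i hi hij => zz_other hi hij z)
        rw [f1, f2, zz_b, zz_self hj0, hzb]
        refine ⟨1, fun l hl => ?_, ?_⟩
        · have hl0 : l = 0 := by omega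
          subst hl0
          simp only [Pi.add_apply, bt, pow_zero, Nat.div_one]
          omega
        · simp only [Pi.add_apply, bt, pow_one]
          omega
      · refine Or.inr ⟨heq.trans hw, f, fun i hi => ?_, ?_⟩
        · rw [zz_other (ne_of_lt (hi.trans hfb)) (ne_of_lt hi)]
          exact hf i hi
        · rw [zz_self hj0, hzb]
          omega
    · exfalso
      have h5 := hf j0 h
      rcases ht j0 (lt_of_lt_of_le h hfa) with htj | ⟨htj, -⟩
      · omega
      · omega

end Pool.Agent.SUC
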