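import Pool.Agent.HitD5.OpC

set_option autoImplicit false

/-!
# Halving, where the variables with exponent zero are dropped

Exponents `2 ^ a - 1` with `a ≤ k` are dropped during the `k`-fold halving.
-/

namespace Pool.Agent.SUC

open Pool.Agent.Helper60.Hit MvPolynomial Pool.Agent.CTL45 Pool.Agent.HitD5

section del

variable {n m : ℕ} {ι : Fin m → Fin n}

open Classical in
/-- `x_(ι j) ↦ x_j`, the other variables go to `0` -/
noncomputable def dele (ι : Fin m → Fin n) :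
    MvPolynomial (Fin n) (ZMod 2) →ₐ[ZMod 2] MvPolynomial (Fin m) (ZMod 2) :=
  aeval (fun i => if h : ∃ j, ι j = i then X h.choose else 0)

theorem dele_hits {g : MvPolynomial (Fin n) (ZMod 2)} (hg : g ∈ hits n) :
    dele ι g ∈ hits m := by
  refine aeval_hits _ (fun i => ?_) hg
  split_ifs
  · exact lin_X _
  · exact lin_zero

theorem dele_mono_pos (hι : Function.Injective ι) {z : Fin n → ℕ}
    (h : ∀ i, (∀ j, ι j ≠ i) → z i = 0) : dele ι (mono z) = mono (fun j => z (ι j)) := by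
  classical
  unfold dele
  rw [aeval_mono, mono_eq_prod]
  symm
  refine Fintype.prod_of_injective ι hι _ _ ?_ ?_
  · intro i hi
    rw [h i (fun j hj => hi ⟨j, hj⟩), pow_zero]
  · intro j
    have h1 : ∃ j', ι j' = ι j := ⟨j, rfl⟩
    rw [dif_pos h1, hι h1.choose_spec]

theorem dele_mono_neg {z : Fin n → ℕ} {i : Fin n} (hi : ∀ j, ι j ≠ i) (h : z i ≠ 0) :
    dele ι (mono z) = 0 := by
  classical
  unfold dele
  rw [aeval_mono]
  refine Finset.prod_eq_zero (Finset.mem_univ i) ?_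
  rw [dif_neg (fun ⟨j, hj⟩ => hi j hj), zero_pow h]

/-- `x_j ↦ x_(ι j)` -/
noncomputable def incl2 (ι : Fin m → Fin n) :
    MvPolynomial (Fin m) (ZMod 2) →ₐ[ZMod 2] MvPolynomial (Fin n) (ZMod 2) :=
  aeval (fun j => X (ι j))

open Classical in
/-- the exponents of `incl2 ι (mono y)` -/
noncomputable def ext (ι : Fin m → Fin n) (y : Fin m → ℕ) : Fin n → ℕ :=
  fun i => if h : ∃ j, ι j = i then y h.choose else 0

theorem ext_in (hι : Function.Injective ι) (y : Fin m → ℕ) (j : Fin m) :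
    ext ι y (ι j) = y j := by
  classical
  unfold ext
  have h1 : ∃ j', ι j' = ι j := ⟨j, rfl⟩
  rw [dif_pos h1, hι h1.choose_spec]

theorem ext_off (y : Fin m → ℕ) {i : Fin n} (hi : ∀ j, ι j ≠ i) : ext ι y i = 0 := by
  classical
  unfold ext
  rw [dif_neg (fun ⟨j, hj⟩ => hi j hj)]

theorem incl2_mono (hι : Function.Injective ι) (y : Fin m → ℕ) :
    incl2 ι (mono y) = mono (ext ι y) := by
  unfold incl2
  rw [aeval_mono, mono_eq_prod]
  refine Fintype.prod_of_injective ι hι _ _ ?_ ?_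
  · intro i hi
    rw [ext_off y (fun j hj => hi ⟨j, hj⟩), pow_zero]
  · intro j
    rw [ext_in hι]

theorem wt_split (hι : Function.Injective ι) {y u : Fin n → ℕ}
    (h : ∀ i, (∀ j, ι j ≠ i) → y i = u i) :
    ∃ C : ℕ → ℕ, wt y = C + wt (fun j => y (ι j)) ∧ wt u = C + wt (fun j => u (ι j)) := by
  classical
  refine ⟨fun s => ∑ i ∈ (Finset.univ.image ι)ᶜ, u i / 2 ^ s % 2, ?_, ?_⟩
  · funext s
    rw [Pi.add_apply]
    unfold wt
    rw [← Finset.sum_compl_add_sum (Finset.univ.image ι),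
      Finset.sum_image (fun a _ b _ hab => hι hab)]
    congr 1
    refine Finset.sum_congr rfl fun i hi => ?_
    rw [Finset.mem_compl, Finset.mem_image] at hi
    rw [h i (fun j hj => hi ⟨j, Finset.mem_univ j, hj⟩)]
  · funext s
    rw [Pi.add_apply]
    unfold wt
    rw [← Finset.sum_compl_add_sum (Finset.univ.image ι),
      Finset.sum_image (fun a _ b _ hab => hι hab)]

theorem lexLT_add {a b C : ℕ → ℕ} : LexLT (C + a) (C + b) ↔ LexLT a b := by
  constructor
  · rintro ⟨i, h1, h2⟩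
    refine ⟨i, fun j hj => ?_, ?_⟩
    · have := h1 j hj
      rw [Pi.add_apply, Pi.add_apply] at this
      omega
    · rw [Pi.add_apply, Pi.add_apply] at h2
      omega
  · rintro ⟨i, h1, h2⟩
    refine ⟨i, fun j hj => ?_, ?_⟩
    · rw [Pi.add_apply, Pi.add_apply, h1 j hj]
    · rw [Pi.add_apply, Pi.add_apply]
      omega

theorem nlt_iff (hι : StrictMono ι) {y u : Fin n → ℕ}
    (h : ∀ i, (∀ j, ι j ≠ i) → y i = u i) :
    NLT y u ↔ NLT (fun j => y (ι j)) (fun j => u (ι j)) := by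
  obtain ⟨C, h1, h2⟩ := wt_split hι.injective h
  unfold NLT
  rw [h1, h2, lexLT_add, add_right_inj]
  have h3 : LexF y u ↔ LexF (fun j => y (ι j)) (fun j => u (ι j)) := by
    constructor
    · rintro ⟨i, h4, h5⟩
      have h6 : ∃ j, ι j = i := by
        by_contra hcon
        rw [h i (fun j hj => hcon ⟨j, hj⟩)] at h5
        exact absurd h5 (lt_irrefl _)
      obtain ⟨j, rfl⟩ := h6
      exact ⟨j, fun l hl => h4 _ (hι hl), h5⟩
    · rintro ⟨j, h4, h5⟩
      refine ⟨ι j, fun i hi => ?_, h5⟩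
      by_cases h6 : ∃ l, ι l = i
      · obtain ⟨l, rfl⟩ := h6
        exact h4 l (hι.lt_iff_lt.mp hi)
      · exact h i (fun l hl => h6 ⟨l, hl⟩)
  rw [h3]

theorem adm_sub (hι : StrictMono ι) {t : Fin n → ℕ} (h0 : ∀ i, (∀ j, ι j ≠ i) → t i = 0)
    (h : Adm t) : Adm (fun j => t (ι j)) := by
  have hinj := hι.injective
  have he : ext ι (fun j => t (ι j)) = t := by
    funext i
    by_cases h6 : ∃ l, ι l = i
    · obtain ⟨l, rfl⟩ := h6
      rw [ext_in hinj]
    · rw [ext_off _ (fun l hl => h6 ⟨l, hl⟩), h0 i (fun l hl => h6 ⟨l, hl⟩)]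
  refine adm_transport (incl2 ι).toLinearMap
    (fun g hg => Submodule.mem_sup_left (aeval_hits _ (fun _ => lin_X _) hg)) ?_
    (fun y hy => ?_) h
  · rw [AlgHom.toLinearMap_apply, incl2_mono hinj, he, CharTwo.add_self_eq_zero]
    exact Submodule.zero_mem _
  · rw [AlgHom.toLinearMap_apply, incl2_mono hinj]
    refine Submodule.mem_sup_right (mono_mem_msp ?_)
    rw [nlt_iff hι (fun i hi => by rw [ext_off y hi, h0 i hi])]
    have h7 : (fun j => ext ι y (ι j)) = y := by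
      funext j
      rw [ext_in hinj]
    rw [h7]
    exact nlt_of_monLT hy

theorem exists_emb {n : ℕ} (D : Finset (Fin n)) :
    ∃ (m : ℕ) (ι : Fin m → Fin n), StrictMono ι ∧ ∀ i, i ∉ D ↔ ∃ j, ι j = i := by
  refine ⟨_, (Dᶜ).orderEmbOfFin rfl, OrderEmbedding.strictMono _, fun i => ?_⟩
  rw [← Finset.mem_compl, ← Finset.mem_coe, ← Finset.range_orderEmbOfFin (Dᶜ) rfl]
  rfl

end del

/-! ### the sieve -/

/-- the monomials kept by the sieve -/
def Kept {n : ℕ} (k : ℕ) (t : Fin n → ℕ) (D : Finset (Fin n)) (z : Fin n → ℕ) : Prop :=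
  (∀ i ∈ D, z i = t i) ∧ ∀ i, i ∉ D → z i % 2 ^ k = 2 ^ k - 1

/-- a linear map which preserves hit polynomials and halves `k` times, the exponents on `D` are
dropped -/
structure Sv {n m : ℕ} (k : ℕ) (t : Fin n → ℕ) (D : Finset (Fin n)) (ι : Fin m → Fin n)
    (Λ : MvPolynomial (Fin n) (ZMod 2) →ₗ[ZMod 2] MvPolynomial (Fin m) (ZMod 2)) : Prop where
  strict : StrictMono ι
  range : ∀ i, i ∉ D ↔ ∃ j, ι j = i
  hits_mem : ∀ g ∈ hits n, Λ g ∈ hits m
  pos : ∀ z : Fin n → ℕ, Kept k t D z → Λ (mono z) = mono (fun j => z (ι j) / 2 ^ k)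
  neg : ∀ z : Fin n → ℕ, ¬ Kept k t D z → Λ (mono z) = 0
  adm : Adm t → Adm (fun j => t (ι j) / 2 ^ k)

theorem mem_of_off {n m : ℕ} {D : Finset (Fin n)} {ι : Fin m → Fin n}
    (hr : ∀ i, i ∉ D ↔ ∃ j, ι j = i) {i : Fin n} (hi : ∀ j, ι j ≠ i) : i ∈ D := by
  by_contra hcon
  obtain ⟨j, hj⟩ := (hr i).mp hcon
  exact hi j hj

theorem off_of_mem {n m : ℕ} {D : Finset (Fin n)} {ι : Fin m → Fin n}
    (hr : ∀ i, i ∉ D ↔ ∃ j, ι j = i) {i : Fin n} (hi : i ∈ D) : ∀ j, ι j ≠ i :=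
  fun j hj => (hr i).mpr ⟨j, hj⟩ hi

theorem sv_zero {n m : ℕ} {t : Fin n → ℕ} {D : Finset (Fin n)} {ι : Fin m → Fin n}
    (hι : StrictMono ι) (hr : ∀ i, i ∉ D ↔ ∃ j, ι j = i) (hD : ∀ i ∈ D, t i = 0) :
    Sv 0 t D ι (dele ι).toLinearMap where
  strict := hι
  range := hr
  hits_mem := fun g hg => dele_hits hg
  pos := by
    intro z hz
    rw [AlgHom.toLinearMap_apply, dele_mono_pos hι.injective]
    · congr 1
      funext j
      rw [pow_zero, Nat.div_one]
    · intro i hi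
      have h1 := mem_of_off hr hi
      rw [hz.1 i h1, hD i h1]
  neg := by
    intro z hz
    have h1 : ∃ i ∈ D, z i ≠ t i := by
      by_contra hcon
      push Not at hcon
      exact hz ⟨hcon, fun i _ => by simp [Nat.mod_one]⟩
    obtain ⟨i, hi, hi'⟩ := h1
    rw [hD i hi] at hi'
    rw [AlgHom.toLinearMap_apply]
    exact dele_mono_neg (off_of_mem hr hi) hi'
  adm := by
    intro h
    have h1 := adm_sub hι (fun i hi => hD i (mem_of_off hr hi)) h
    have h2 : (fun j => t (ι j) / 2 ^ 0) = fun j => t (ι j) := by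
      funext j
      rw [pow_zero, Nat.div_one]
    rw [h2]
    exact h1

theorem spike_half {a x : ℕ} (h : x = 2 ^ a - 1) (h0 : x ≠ 0) :
    1 ≤ a ∧ x % 2 = 1 ∧ x / 2 = 2 ^ (a - 1) - 1 := by
  rcases a with _ | a
  · rw [pow_zero] at h
    omega
  · have h1 := Nat.one_le_two_pow (n := a)
    rw [pow_succ] at h
    rw [Nat.add_sub_cancel]
    omega

theorem exists_sv (k : ℕ) : ∀ {n : ℕ} (t : Fin n → ℕ) (D : Finset (Fin n)),
    (∀ i ∈ D, ∃ a ≤ k, t i = 2 ^ a - 1) → (∀ i, i ∉ D → t i % 2 ^ k = 2 ^ k - 1) →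
    ∃ (m : ℕ) (ι : Fin m → Fin n)
      (Λ : MvPolynomial (Fin n) (ZMod 2) →ₗ[ZMod 2] MvPolynomial (Fin m) (ZMod 2)),
      Sv k t D ι Λ := by
  induction k with
  | zero =>
    intro n t D hD _
    obtain ⟨m, ι, hι, hr⟩ := exists_emb D
    refine ⟨m, ι, (dele ι).toLinearMap, sv_zero hι hr fun i hi => ?_⟩
    obtain ⟨a, ha, hai⟩ := hD i hi
    have ha0 : a = 0 := by omega
    rw [hai, ha0]
    rfl
  | succ k ih =>
    intro n t D hD hk
    classical
    obtain ⟨m1, ι1, hι1, hr1⟩ := exists_emb (D.filter (fun i => t i = 0))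
    set D1 : Finset (Fin m1) := Finset.univ.filter (fun j => ι1 j ∈ D) with hD1
    have hmem1 : ∀ j, j ∈ D1 ↔ ι1 j ∈ D := by
      intro j
      rw [hD1, Finset.mem_filter]
      exact ⟨fun h => h.2, fun h => ⟨Finset.mem_univ j, h⟩⟩
    have hne : ∀ j, ι1 j ∈ D → t (ι1 j) ≠ 0 := by
      intro j hj h0
      exact (hr1 (ι1 j)).mpr ⟨j, rfl⟩ (Finset.mem_filter.mpr ⟨hj, h0⟩)
    have hodd : ∀ j, t (ι1 j) % 2 = 1 := by
      intro j
      by_cases hj : ι1 j ∈ D
      · obtain ⟨a, -, hai⟩ := hD _ hj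
        exact (spike_half hai (hne j hj)).2.1
      · exact ((mod_succ_iff k _).mp (hk _ hj)).1
    obtain ⟨m, ι2, Λ2, S2⟩ := ih (fun j => t (ι1 j) / 2) D1
      (fun j hj => by
        obtain ⟨a, ha, hai⟩ := hD _ ((hmem1 j).mp hj)
        obtain ⟨h1, -, h3⟩ := spike_half hai (hne j ((hmem1 j).mp hj))
        exact ⟨a - 1, by omega, h3⟩)
      (fun j hj => ((mod_succ_iff k _).mp (hk _ (fun h => hj ((hmem1 j).mpr h)))).2)
    have hkept : ∀ z : Fin n → ℕ, Kept (k + 1) t D z ↔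
        ((∀ i, (∀ j, ι1 j ≠ i) → z i = 0) ∧ (∀ j, z (ι1 j) % 2 = 1) ∧
          Kept k (fun j => t (ι1 j) / 2) D1 (fun j => z (ι1 j) / 2)) := by
      intro z
      constructor
      · rintro ⟨h1, h2⟩
        refine ⟨fun i hi => ?_, fun j => ?_, fun j hj => ?_, fun j hj => ?_⟩
        · have h3 := Finset.mem_filter.mp (mem_of_off hr1 hi)
          rw [h1 i h3.1, h3.2]
        · by_cases hj : ι1 j ∈ D
          · rw [h1 _ hj]; exact hodd j
          · exact ((mod_succ_iff k _).mp (h2 _ hj)).1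
        · show z (ι1 j) / 2 = t (ι1 j) / 2
          rw [h1 _ ((hmem1 j).mp hj)]
        · exact ((mod_succ_iff k _).mp (h2 _ (fun h => hj ((hmem1 j).mpr h)))).2
      · rintro ⟨h1, h2, h3, h4⟩
        refine ⟨fun i hi => ?_, fun i hi => ?_⟩
        · by_cases h5 : ∃ j, ι1 j = i
          · obtain ⟨j, rfl⟩ := h5
            have h6 : z (ι1 j) / 2 = t (ι1 j) / 2 := h3 j ((hmem1 j).mpr hi)
            have h7 := h2 j
            have h8 := hodd j
            omega
          · have h6 : ∀ j, ι1 j ≠ i := fun j hj => h5 ⟨j, hj⟩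
            have h7 := Finset.mem_filter.mp (mem_of_off hr1 h6)
            rw [h1 i h6, h7.2]
        · have h5 : ∃ j, ι1 j = i :=
            (hr1 i).mp (fun h => hi (Finset.mem_filter.mp h).1)
          obtain ⟨j, rfl⟩ := h5
          exact (mod_succ_iff k _).mpr ⟨h2 j, h4 j (fun h => hi ((hmem1 j).mp h))⟩
    refine ⟨m, fun j => ι1 (ι2 j), Λ2 ∘ₗ psi ∘ₗ (dele ι1).toLinearMap, ?_, ?_, ?_, ?_, ?_, ?_⟩
    · exact hι1.comp S2.strict
    · intro i
      constructor
      · intro hi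
        obtain ⟨j, rfl⟩ := (hr1 i).mp (fun h => hi (Finset.mem_filter.mp h).1)
        obtain ⟨l, rfl⟩ := (S2.range j).mp (fun h => hi ((hmem1 j).mp h))
        exact ⟨l, rfl⟩
      · rintro ⟨l, rfl⟩ hi
        exact (S2.range (ι2 l)).mpr ⟨l, rfl⟩ ((hmem1 _).mpr hi)
    · intro g hg
      exact S2.hits_mem _ (psi_hits (dele_hits hg))
    · intro z hz
      obtain ⟨h1, h2, h3⟩ := (hkept z).mp hz
      rw [LinearMap.comp_apply, LinearMap.comp_apply, AlgHom.toLinearMap_apply,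
        dele_mono_pos hι1.injective h1, psi_mono, if_pos h2, S2.pos _ h3]
      congr 1
      funext j
      rw [Nat.div_div_eq_div_mul, pow_succ']
    · intro z hz
      rw [LinearMap.comp_apply, LinearMap.comp_apply, AlgHom.toLinearMap_apply]
      by_cases h1 : ∀ i, (∀ j, ι1 j ≠ i) → z i = 0
      · rw [dele_mono_pos hι1.injective h1, psi_mono]
        by_cases h2 : ∀ j, z (ι1 j) % 2 = 1
        · rw [if_pos h2]
          exact S2.neg _ (fun h3 => hz ((hkept z).mpr ⟨h1, h2, h3⟩))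
        · rw [if_neg h2, map_zero]
      · push Not at h1
        obtain ⟨i, hi, hi'⟩ := h1
        rw [dele_mono_neg hi hi', map_zero, map_zero]
    · intro h
      have h1 : Adm (fun j => t (ι1 j)) :=
        adm_sub hι1 (fun i hi => (Finset.mem_filter.mp (mem_of_off hr1 hi)).2) h
      have h2 := S2.adm (adm_half h1)
      have h3 : (fun j => t (ι1 (ι2 j)) / 2 ^ (k + 1)) = fun j => t (ι1 (ι2 j)) / 2 / 2 ^ k := by
        funext j
        rw [Nat.div_div_eq_div_mul, pow_succ']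
      rw [h3]
      exact h2

/-! ### transfer of the order through the sieve -/

section transfer

variable {n m k : ℕ} {t : Fin n → ℕ} {D : Finset (Fin n)} {ι : Fin m → Fin n}
  {Λ : MvPolynomial (Fin n) (ZMod 2) →ₗ[ZMod 2] MvPolynomial (Fin m) (ZMod 2)}

theorem Sv.out (V : Sv k t D ι Λ) (j : Fin m) : ι j ∉ D := (V.range _).mpr ⟨j, rfl⟩

theorem Sv.nlt (V : Sv k t D ι Λ) (ht : Kept k t D t) {z : Fin n → ℕ} (hz : Kept k t D z)
    (h : NLT z t) : NLT (fun j => z (ι j) / 2 ^ k) (fun j => t (ι j) / 2 ^ k) := by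
  have h1 := (nlt_iff V.strict (fun i hi => hz.1 i (mem_of_off V.range hi))).mp h
  exact nlt_halfk k (fun j => hz.2 _ (V.out j)) (fun j => ht.2 _ (V.out j)) h1

theorem Sv.lt (V : Sv k t D ι Λ) (ht : Kept k t D t) {z : Fin n → ℕ} (hz : Kept k t D z)
    (h : LexLT (wt z) (wt t)) :
    LexLT (wt (fun j => z (ι j) / 2 ^ k)) (wt (fun j => t (ι j) / 2 ^ k)) := by
  obtain ⟨C, h1, h2⟩ := wt_split V.strict.injective
    (fun i hi => hz.1 i (mem_of_off V.range hi) : ∀ i, (∀ j, ι j ≠ i) → z i = t i)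
  rw [h1, h2, lexLT_add] at h
  exact lexLT_halfk k (fun j => hz.2 _ (V.out j)) (fun j => ht.2 _ (V.out j)) h

theorem Sv.le (V : Sv k t D ι Λ) (ht : Kept k t D t) {z : Fin n → ℕ} (hz : Kept k t D z)
    (h : LexLE (wt z) (wt t)) :
    LexLE (wt (fun j => z (ι j) / 2 ^ k)) (wt (fun j => t (ι j) / 2 ^ k)) := by
  rcases h with h | h
  · left
    obtain ⟨C, h1, h2⟩ := wt_split V.strict.injective
      (fun i hi => hz.1 i (mem_of_off V.range hi) : ∀ i, (∀ j, ι j ≠ i) → z i = t i)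
    rw [h1, h2, add_right_inj] at h
    funext s
    rw [wt_halfk k (fun j => z (ι j)), wt_halfk k (fun j => t (ι j)), h]
  · right
    exact V.lt ht hz h

theorem Sv.msp_nlt (V : Sv k t D ι Λ) (ht : Kept k t D t)
    {f : MvPolynomial (Fin n) (ZMod 2)} (hf : f ∈ msp (fun z => NLT z t)) :
    Λ f ∈ msp (fun z => NLT z (fun j => t (ι j) / 2 ^ k)) := by
  refine map_msp Λ _ (fun z hz => ?_) hf
  by_cases h : Kept k t D z
  · rw [V.pos z h]
    exact mono_mem_msp (V.nlt ht h hz)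
  · rw [V.neg z h]
    exact Submodule.zero_mem _

end transfer

end Pool.Agent.SUC
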