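import Pool.Agent.SUC.OmegaB
import Pool.Agent.SUC.Sieve
import Pool.Agent.HitD5.OpsAB

set_option autoImplicit false

/-!
# The operators AB, G0 and C for any number of variables, with small spikes dropped
-/

namespace Pool.Agent.SUC

open Pool.Agent.Helper60.Hit MvPolynomial Pool.Agent.CTL45 Pool.Agent.HitD5

/-! ### AB and G0 -/

section gen

variable {n m k r u : ℕ} {w : ℕ → Fin (n + 1)} {e e0 : Fin (n + 1) → ℕ}

/-- the common principle -/
theorem adm_of_sieve2 (S : Wk w r u e e0) {D : Finset (Fin (n + 1))} {ι : Fin m → Fin (n + 1)}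
    {Λ : MvPolynomial (Fin (n + 1)) (ZMod 2) →ₗ[ZMod 2] MvPolynomial (Fin m) (ZMod 2)}
    (V : Sv k e0 D ι Λ) (ht : Kept k e0 D e0)
    (K : MvPolynomial (Fin m) (ZMod 2) →ₗ[ZMod 2] MvPolynomial (Fin m) (ZMod 2))
    (hK : ∀ g ∈ hits m, K g ∈ hits m) (P : (Fin m → ℕ) → Prop) [DecidablePred P]
    (hKm : ∀ z, K (mono z) = if P z then mono z else 0)
    (hPt : P (fun j => e0 (ι j) / 2 ^ k))
    (hbad : ∀ z : Fin (n + 1) → ℕ, Kept k e0 D z → Bad w r u e0 z →
      P (fun j => z (ι j) / 2 ^ k) →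
        NLT (fun j => z (ι j) / 2 ^ k) (fun j => e0 (ι j) / 2 ^ k))
    (h : Adm e0) : Adm e := by
  have hA := V.adm h
  have hsmall : ∀ z : Fin (n + 1) → ℕ, (NLT z e0 ∨ Bad w r u e0 z) →
      (K ∘ₗ Λ) (mono z) ∈ msp (fun y => NLT y (fun j => e0 (ι j) / 2 ^ k)) := by
    intro z hz
    rw [LinearMap.comp_apply]
    by_cases h1 : Kept k e0 D z
    · rw [V.pos z h1, hKm]
      split_ifs with h2
      · refine mono_mem_msp ?_
        rcases hz with hz | hz
        · exact V.nlt ht h1 hz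
        · exact hbad z h1 hz h2
      · exact Submodule.zero_mem _
    · rw [V.neg z h1, map_zero]; exact Submodule.zero_mem _
  refine adm_transport ((K ∘ₗ Λ) ∘ₗ TS w r u) (fun g hg => ?_) ?_ (fun y hy => ?_) hA
  · exact Submodule.mem_sup_left (hK _ (V.hits_mem _ (TS_hits w r u hg)))
  · have h1 := map_msp (K ∘ₗ Λ) _ (fun y hy => hsmall y (Or.inl hy)) S.full
    rw [map_add] at h1
    have h2 : (K ∘ₗ Λ) (mono e0) = mono (fun j => e0 (ι j) / 2 ^ k) := by
      rw [LinearMap.comp_apply, V.pos e0 ht, hKm, if_pos hPt]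
    rw [h2] at h1
    exact Submodule.mem_sup_right h1
  · exact Submodule.mem_sup_right (map_msp (K ∘ₗ Λ) _ (fun z hz => hsmall z hz) (S.TA hy))

theorem not_small {k r x : ℕ} (hk : k < r) (hx : x = 2 ^ r - 1) : ¬ ∃ a ≤ k, x = 2 ^ a - 1 := by
  rintro ⟨a, ha, h⟩
  have h1 : 2 ^ a < 2 ^ r := Nat.pow_lt_pow_right (by norm_num) (by omega)
  have h2 := Nat.one_le_two_pow (n := a)
  omega

/-- the places with a small spike, for `k`-fold halving -/
noncomputable def dd (k : ℕ) (e0 : Fin n → ℕ) : Finset (Fin n) := by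
  classical
  exact Finset.univ.filter (fun i => ∃ a ≤ k, e0 i = 2 ^ a - 1)

theorem mem_dd {k : ℕ} {e0 : Fin n → ℕ} {i : Fin n} :
    i ∈ dd k e0 ↔ ∃ a ≤ k, e0 i = 2 ^ a - 1 := by
  classical
  unfold dd
  rw [Finset.mem_filter]
  exact ⟨fun h => h.2, fun h => ⟨Finset.mem_univ i, h⟩⟩

theorem kept_dd {p : Fin n} {k : ℕ} {e0 : Fin n → ℕ} (h0 : e0 p = 0)
    (h : ∀ i, i ≠ p → e0 i % 2 ^ k = 2 ^ k - 1 ∨ ∃ a ≤ k, e0 i = 2 ^ a - 1) :
    Kept k e0 (dd k e0) e0 := by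
  refine ⟨fun i _ => rfl, fun i hi => ?_⟩
  rw [mem_dd] at hi
  have hip : i ≠ p := by
    rintro rfl
    exact hi ⟨0, Nat.zero_le k, by rw [h0]; rfl⟩
  exact (h i hip).resolve_right hi

/-- operator AB: every exponent is congruent to `-1` modulo `2 ^ (r - 1)` or is of the form
`2 ^ a - 1` with `a ≤ r - 1` -/
theorem Wk.AB2 (S : Wk w r u e e0)
    (h : ∀ i, i ≠ w 0 → e0 i % 2 ^ (r - 1) = 2 ^ (r - 1) - 1 ∨
      ∃ a ≤ r - 1, e0 i = 2 ^ a - 1) (hadm : Adm e0) : Adm e := by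
  classical
  have hr : 0 < r := lt_of_le_of_lt (Nat.zero_le _) S.hu
  obtain ⟨k, rfl⟩ : ∃ k, r = k + 1 := ⟨r - 1, by omega⟩
  rw [Nat.add_sub_cancel] at h
  have ht := kept_dd S.e0_eq_zero h
  obtain ⟨m, ι, Λ, V⟩ := exists_sv k e0 (dd k e0) (fun i hi => mem_dd.mp hi) ht.2
  obtain ⟨K, hK, hKm⟩ := exists_keep
    (Finset.univ.filter (fun b : Fin m => ∃ j < u, w (j + 1) = ι b))
  have hpow := Nat.one_le_two_pow (n := k)
  refine adm_of_sieve2 S V ht K hK _ hKm ?_ ?_ hadm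
  · intro b hb
    rw [Finset.mem_filter] at hb
    obtain ⟨-, j, hj, hb⟩ := hb
    show e0 (ι b) / 2 ^ k ≠ 0
    rw [← hb, S.e0_w hj, pow_succ]
    have h1 : 2 ^ k * 2 - 1 = (2 ^ k - 1) + 2 ^ k * 1 := by omega
    rw [h1, Nat.add_mul_div_left _ _ (by positivity)]
    exact Nat.succ_ne_zero _
  · rintro z hz ⟨-, j, hj, -, hlt⟩ hP
    exfalso
    have hnd : w (j + 1) ∉ dd k e0 := fun hmem =>
      not_small (Nat.lt_succ_self k) (S.e0_w hj) (mem_dd.mp hmem)
    obtain ⟨b, hb⟩ := (V.range _).mp hnd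
    refine hP b (Finset.mem_filter.mpr ⟨Finset.mem_univ _, j, hj, hb.symm⟩) ?_
    show z (ι b) / 2 ^ k = 0
    have h1 := hz.2 _ hnd
    rw [hb]
    have h2 := Nat.div_add_mod (z (w (j + 1))) (2 ^ k)
    rw [h1] at h2
    rw [pow_succ] at hlt
    by_contra h3
    have h4 : 2 ^ k * 1 ≤ 2 ^ k * (z (w (j + 1)) / 2 ^ k) :=
      Nat.mul_le_mul_left _ (Nat.one_le_iff_ne_zero.mpr h3)
    omega

/-- operator G0: every exponent is congruent to `-1` modulo `2 ^ k` or is of the form `2 ^ a - 1`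
with `a ≤ k`, the ones in the gaps are of the latter kind -/
theorem Wk.G2 (S : Wk w r u e e0) {k : ℕ}
    (h : ∀ i, i ≠ w 0 → e0 i % 2 ^ k = 2 ^ k - 1 ∨ ∃ a ≤ k, e0 i = 2 ^ a - 1)
    (hgap : ∀ j < u, ∀ i, w j < i → i < w (j + 1) → ∃ a ≤ k, e0 i = 2 ^ a - 1)
    (hadm : Adm e0) : Adm e := by
  classical
  have ht := kept_dd S.e0_eq_zero h
  obtain ⟨m, ι, Λ, V⟩ := exists_sv k e0 (dd k e0) (fun i hi => mem_dd.mp hi) ht.2
  refine adm_of_sieve2 S V ht LinearMap.id (fun g hg => hg) (fun _ => True)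
    (fun z => by rw [if_pos trivial]; rfl) trivial ?_ hadm
  rintro z hz ⟨hwt, j, hj, hpre, hlt⟩ -
  refine V.nlt ht hz (Or.inr ⟨hwt, w (j + 1), fun i hi => ?_, ?_⟩)
  · rcases le_or_gt i (w j) with h1 | h1
    · exact hpre i h1
    · exact hz.1 i (mem_dd.mpr (hgap j hj i h1 hi))
  · rw [S.e0_w hj]
    exact hlt

end gen

/-! ### C -/

theorem div_lt_of_mod {a c k : ℕ} (ha : a % 2 ^ k = 2 ^ k - 1) (hc : c % 2 ^ k = 2 ^ k - 1)
    (h : a < c) : a / 2 ^ k < c / 2 ^ k := by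
  have h1 := Nat.div_add_mod a (2 ^ k)
  have h2 := Nat.div_add_mod c (2 ^ k)
  by_contra hcon
  push Not at hcon
  have h3 := Nat.mul_le_mul_left (2 ^ k) hcon
  omega

section tone

variable {n k : ℕ} {w : ℕ → Fin (n + 1)} {e e0 : Fin (n + 1) → ℕ}

/-- the second summand of the operator -/
noncomputable def tone (w : ℕ → Fin (n + 1)) (r : ℕ) :
    MvPolynomial (Fin (n + 1)) (ZMod 2) →ₗ[ZMod 2] MvPolynomial (Fin (n + 1)) (ZMod 2) :=
  CM (w 0) (MM w r 1) ∘ₗ PP w 1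

theorem tone_mono {r : ℕ} (h : Inc w r) (hr : 1 ≤ r) (y : Fin (n + 1) → ℕ) :
    tone w r (mono y) = Cr (MM w r 1) (y (w 1)) * mono (bs w 1 y) := by
  unfold tone
  rw [LinearMap.comp_apply, PP_mono, CM_mono, (cyc_spec h y 1 hr).1]
  rfl

theorem TS_one {r : ℕ} (h : Inc w r) (hr : 1 ≤ r) (y : Fin (n + 1) → ℕ) :
    TS w r 1 (mono y) = Cr (MM w r 0) (y (w 0)) * mono (bs w 0 y) + tone w r (mono y) := by
  rw [TS_mono h 1 hr, Finset.sum_range_succ, Finset.sum_range_one, tone_mono h hr]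

theorem tone_mem {r : ℕ} (h : Inc w r) (hr : 1 ≤ r) (y : Fin (n + 1) → ℕ) :
    tone w r (mono y) ∈ msp (fun z => (∀ i < w 1, i ≠ w 0 → z i = y i) ∧
      z (w 1) = y (w 0) ∧ LexLE (wt z) (wt y)) := by
  rw [tone_mono h hr]
  refine summand_mem fun c hc => ?_
  refine ⟨fun i hi hi0 => ?_, ?_, term_le h hr hc⟩
  · have hc0 : c i = 0 := good_zero hc (fun hmem =>
      absurd (hi.trans (h.lt_of_mem (le_refl 1) hmem)) (lt_irrefl _))
    rw [Pi.add_apply, hc0, zero_add]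
    refine bs_other h y hr ?_
    intro j hj
    have hj' : j = 0 ∨ j = 1 := by omega
    rcases hj' with rfl | rfl
    · exact hi0
    · exact ne_of_lt hi
  · rw [Pi.add_apply, good_zero hc (h.notMem le_rfl hr), zero_add]
    exact bs_succ h y hr Nat.zero_lt_one

theorem tone_hits {r : ℕ} {g : MvPolynomial (Fin (n + 1)) (ZMod 2)} (hg : g ∈ hits (n + 1)) :
    tone w r g ∈ hits (n + 1) := by
  unfold tone
  rw [LinearMap.comp_apply]
  exact CM_hits _ _ (PP_hits w 1 hg)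

theorem e0_low (S : Wk w (k + 2) 1 e e0) {i : Fin (n + 1)} (hi : i < w 1) (h0 : i ≠ w 0) :
    e0 i = e i :=
  S.e0_of_notMem (fun hmem =>
    absurd (hi.trans (S.inc.lt_of_mem (le_refl 1) hmem)) (lt_irrefl _)) h0

end tone

/-- the data for C: the sieve `Lam` sends the kept monomials to monomials in `m` variables, `b` is
the place of the spike; the halved exponents are `3` modulo `4` before the new place, `3` modulo
`4` or `1` between the new place and the spike, and exactly one of them is even -/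
structure Cd {n m : ℕ} (k : ℕ) (p q : Fin (n + 1)) (e0 : Fin (n + 1) → ℕ)
    (D : Finset (Fin (n + 1))) (ι : Fin m → Fin (n + 1))
    (Lam : MvPolynomial (Fin (n + 1)) (ZMod 2) →ₗ[ZMod 2] MvPolynomial (Fin m) (ZMod 2))
    (B : Finset (Fin m)) (b : Fin m) : Prop where
  strict : StrictMono ι
  range : ∀ i, i ∉ D ↔ ∃ j, ι j = i
  hits_mem : ∀ g ∈ hits (n + 1), Lam g ∈ hits m
  pos : ∀ z : Fin (n + 1) → ℕ, (Kept k e0 D z ∧ ∀ j ∈ B, z (ι j) / 2 ^ k ≠ 0) →
    Lam (mono z) = mono (fun j => z (ι j) / 2 ^ k)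
  neg : ∀ z : Fin (n + 1) → ℕ, ¬ (Kept k e0 D z ∧ ∀ j ∈ B, z (ι j) / 2 ^ k ≠ 0) →
    Lam (mono z) = 0
  kept : Kept k e0 D e0
  lt : ∀ z : Fin (n + 1) → ℕ, Kept k e0 D z → LexLT (wt z) (wt e0) →
    LexLT (wt (fun j => z (ι j) / 2 ^ k)) (wt (fun j => e0 (ι j) / 2 ^ k))
  le : ∀ z : Fin (n + 1) → ℕ, Kept k e0 D z → LexLE (wt z) (wt e0) →
    LexLE (wt (fun j => z (ι j) / 2 ^ k)) (wt (fun j => e0 (ι j) / 2 ^ k))
  nlt : ∀ z : Fin (n + 1) → ℕ, Kept k e0 D z → NLT z e0 →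
    NLT (fun j => z (ι j) / 2 ^ k) (fun j => e0 (ι j) / 2 ^ k)
  hpD : p ∈ D
  hpq : p < q
  hb : ι b = q
  htb : e0 (ι b) / 2 ^ k = 3
  one : ∀ j ∈ B, e0 (ι j) / 2 ^ k = 1
  front : ∀ j, ι j < p → e0 (ι j) / 2 ^ k % 4 = 3
  mid : ∀ j < b, e0 (ι j) / 2 ^ k % 4 = 3 ∨ (e0 (ι j) / 2 ^ k = 1 ∧ j ∈ B)
  hw : wt (fun j => e0 (ι j) / 2 ^ k) 0 = m - 1

/-- the places behind `p`, without `b` -/
def jj {n m : ℕ} (p : Fin (n + 1)) (ι : Fin m → Fin (n + 1)) (b : Fin m) : Finset (Fin m) :=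
  Finset.univ.filter (fun j => j ≠ b ∧ p < ι j)

theorem notMem_jj {n m : ℕ} (p : Fin (n + 1)) (ι : Fin m → Fin (n + 1)) (b : Fin m) :
    b ∉ jj p ι b := by
  unfold jj
  rw [Finset.mem_filter]
  rintro ⟨-, h, -⟩
  exact h rfl

section core

variable {n m k : ℕ} {p q : Fin (n + 1)} {e0 : Fin (n + 1) → ℕ} {D : Finset (Fin (n + 1))}
  {ι : Fin m → Fin (n + 1)}
  {Lam : MvPolynomial (Fin (n + 1)) (ZMod 2) →ₗ[ZMod 2] MvPolynomial (Fin m) (ZMod 2)}
  {B : Finset (Fin m)} {b : Fin m}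

theorem Cd.ne_p (C : Cd k p q e0 D ι Lam B b) (j : Fin m) : ι j ≠ p := by
  intro h
  exact (C.range (ι j)).mpr ⟨j, rfl⟩ (by rw [h]; exact C.hpD)

theorem Cd.out (C : Cd k p q e0 D ι Lam B b) (j : Fin m) : ι j ∉ D :=
  (C.range (ι j)).mpr ⟨j, rfl⟩

theorem Cd.lt_of_notMem (C : Cd k p q e0 D ι Lam B b) {i : Fin m} (hi : i ≠ b)
    (h : i ∉ jj p ι b) : ι i < p := by
  unfold jj at h
  rw [Finset.mem_filter, not_and_or, not_and_or] at h
  rcases h with h | h | h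
  · exact absurd (Finset.mem_univ i) h
  · exact absurd hi h
  · exact lt_of_le_of_ne (not_lt.mp h) (C.ne_p i)

theorem Cd.low_le (C : Cd k p q e0 D ι Lam B b) :
    hits m ⊔ msp (fun z => wt z 0 < m - 1) ≤
      hits m ⊔ msp (fun y => NLT y (fun j => e0 (ι j) / 2 ^ k)) := by
  refine sup_le_sup_left (msp_mono fun z hz =>
    Or.inl ⟨0, fun l hl => absurd hl (Nat.not_lt_zero l), ?_⟩) _
  rw [C.hw]
  exact hz

theorem Cd.msp_nlt (C : Cd k p q e0 D ι Lam B b)
    {f : MvPolynomial (Fin (n + 1)) (ZMod 2)} (hf : f ∈ msp (fun z => NLT z e0)) :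
    Lam f ∈ msp (fun z => NLT z (fun j => e0 (ι j) / 2 ^ k)) := by
  refine map_msp Lam _ (fun z hz => ?_) hf
  by_cases h : Kept k e0 D z ∧ ∀ j ∈ B, z (ι j) / 2 ^ k ≠ 0
  · rw [C.pos z h]
    exact mono_mem_msp (C.nlt z h.1 hz)
  · rw [C.neg z h]
    exact Submodule.zero_mem _

/-- terms with the exponent `2 ^ (k + 2) - 1` at the place `q` -/
theorem Cd.RL (C : Cd k p q e0 D ι Lam B b) {z : Fin (n + 1) → ℕ}
    (hzq : z q = 2 ^ (k + 2) - 1)
    (hpre : (∀ i < q, i ≠ p → z i = e0 i) ∨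
      ∃ f < q, f ≠ p ∧ (∀ i < f, i ≠ p → z i = e0 i) ∧ z f < e0 f)
    (hle : LexLE (wt z) (wt e0)) :
    rop b (jj p ι b) (Lam (mono z)) ∈
      hits m ⊔ msp (fun y => NLT y (fun j => e0 (ι j) / 2 ^ k)) := by
  by_cases h : Kept k e0 D z ∧ ∀ j ∈ B, z (ι j) / 2 ^ k ≠ 0
  · rw [C.pos z h]
    refine Submodule.mem_sup_right ?_
    rcases C.le z h.1 hle with hw | hw
    · refine rop_three (notMem_jj p ι b) C.hw C.htb (fun i hi => ?_) ?_ ?_ hw
      · rcases C.mid i hi with h5 | ⟨h5, h6⟩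
        · exact Or.inl h5
        · exact Or.inr ⟨h5, h.2 i h6⟩
      · show z (ι b) / 2 ^ k = 3
        rw [C.hb, hzq, pow_add]
        have h5 := Nat.one_le_two_pow (n := k)
        rw [Nat.div_eq_iff (by omega)]
        omega
      · rcases hpre with hpre | ⟨f, hfq, hfp, hf, hf'⟩
        · refine Or.inl fun i hi => ?_
          show z (ι i) / 2 ^ k = e0 (ι i) / 2 ^ k
          rw [hpre _ ?_ (C.ne_p i)]
          rw [← C.hb]
          exact C.strict hi
        · have hfD : f ∉ D := by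
            intro hmem
            rw [h.1.1 f hmem] at hf'
            exact absurd hf' (lt_irrefl _)
          obtain ⟨f, rfl⟩ := (C.range f).mp hfD
          refine Or.inr ⟨f, ?_, fun i hi => ?_, ?_⟩
          · rw [← C.hb] at hfq
            exact C.strict.lt_iff_lt.mp hfq
          · show z (ι i) / 2 ^ k = e0 (ι i) / 2 ^ k
            rw [hf _ (C.strict hi) (C.ne_p i)]
          · exact div_lt_of_mod (h.1.2 _ hfD) (C.kept.2 _ hfD) hf'
    · exact rop_lt (notMem_jj p ι b) hw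
  · rw [C.neg z h, map_zero]
    exact Submodule.zero_mem _

/-- terms with a smaller exponent at the place `q` -/
theorem Cd.RS (C : Cd k p q e0 D ι Lam B b) {z : Fin (n + 1) → ℕ}
    (hzq : z q < 2 ^ (k + 2) - 1) (hpre : ∀ i < p, z i = e0 i)
    (hle : LexLE (wt z) (wt e0)) :
    Lam (mono z) + rop b (jj p ι b) (Lam (mono z)) ∈
      hits m ⊔ msp (fun y => NLT y (fun j => e0 (ι j) / 2 ^ k)) := by
  by_cases h : Kept k e0 D z ∧ ∀ j ∈ B, z (ι j) / 2 ^ k ≠ 0
  · rw [C.pos z h]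
    rcases C.le z h.1 hle with hw | hw
    · refine rop_small (notMem_jj p ι b) C.hw ?_ hw ?_
      · show z (ι b) / 2 ^ k < 3
        have h5 := h.1.2 _ (C.out b)
        rw [C.hb] at h5 ⊢
        have h6 := Nat.div_add_mod (z q) (2 ^ k)
        have h7 := Nat.one_le_two_pow (n := k)
        by_contra hcon
        push Not at hcon
        have h8 := Nat.mul_le_mul_left (2 ^ k) hcon
        rw [pow_add] at hzq
        omega
      · intro i hi hiJ
        have h5 := C.lt_of_notMem hi hiJ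
        show z (ι i) / 2 ^ k % 4 = 3
        rw [hpre _ h5]
        exact C.front i h5
    · exact Submodule.mem_sup_right (Submodule.add_mem _ (mono_mem_msp (Or.inl hw))
        (rop_lt (notMem_jj p ι b) hw))
  · rw [C.neg z h, map_zero, add_zero]
    exact Submodule.zero_mem _

/-- terms with a first difference before the place `p` -/
theorem Cd.RP (C : Cd k p q e0 D ι Lam B b) {z : Fin (n + 1) → ℕ} {f : Fin (n + 1)}
    (hfp : f < p) (hf : ∀ i < f, z i = e0 i) (hf' : z f < e0 f)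
    (hle : LexLE (wt z) (wt e0)) :
    rop b (jj p ι b) (Lam (mono z)) ∈
      hits m ⊔ msp (fun y => NLT y (fun j => e0 (ι j) / 2 ^ k)) := by
  by_cases h : Kept k e0 D z ∧ ∀ j ∈ B, z (ι j) / 2 ^ k ≠ 0
  · rw [C.pos z h]
    refine Submodule.mem_sup_right ?_
    have hfD : f ∉ D := by
      intro hmem
      rw [h.1.1 f hmem] at hf'
      exact absurd hf' (lt_irrefl _)
    obtain ⟨f, rfl⟩ := (C.range f).mp hfD
    refine rop_front (f := f) (notMem_jj p ι b) (C.le z h.1 hle)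
      (fun i hi => ?_) (div_lt_of_mod (h.1.2 _ hfD) (C.kept.2 _ hfD) hf') (fun i hi => ⟨?_, ?_⟩)
    · show z (ι i) / 2 ^ k = e0 (ι i) / 2 ^ k
      rw [hf _ (C.strict hi)]
    · rintro rfl
      have h5 : ι i ≤ ι f := C.strict.monotone hi
      rw [C.hb] at h5
      exact absurd (C.hpq.trans (lt_of_le_of_lt h5 hfp)) (lt_irrefl _)
    · intro hmem
      unfold jj at hmem
      rw [Finset.mem_filter] at hmem
      have h5 : ι i ≤ ι f := C.strict.monotone hi
      exact absurd (hmem.2.2.trans (lt_of_le_of_lt h5 hfp)) (lt_irrefl _)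
  · rw [C.neg z h, map_zero]
    exact Submodule.zero_mem _

/-- terms of smaller weight -/
theorem Cd.RW (C : Cd k p q e0 D ι Lam B b) {z : Fin (n + 1) → ℕ}
    (hlt : LexLT (wt z) (wt e0)) :
    rop b (jj p ι b) (Lam (mono z)) ∈
      hits m ⊔ msp (fun y => NLT y (fun j => e0 (ι j) / 2 ^ k)) := by
  by_cases h : Kept k e0 D z ∧ ∀ j ∈ B, z (ι j) / 2 ^ k ≠ 0
  · rw [C.pos z h]
    exact Submodule.mem_sup_right (rop_lt (notMem_jj p ι b) (C.lt z h.1 hlt))
  · rw [C.neg z h, map_zero]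
    exact Submodule.zero_mem _

end core

section op

variable {n m k : ℕ} {w : ℕ → Fin (n + 1)} {e e0 : Fin (n + 1) → ℕ}
  {D : Finset (Fin (n + 1))} {ι : Fin m → Fin (n + 1)}
  {Lam : MvPolynomial (Fin (n + 1)) (ZMod 2) →ₗ[ZMod 2] MvPolynomial (Fin m) (ZMod 2)}
  {B : Finset (Fin m)} {b : Fin m}

/-- the operator of C -/
noncomputable def psic (w : ℕ → Fin (n + 1)) (k : ℕ) (ι : Fin m → Fin (n + 1))
    (Lam : MvPolynomial (Fin (n + 1)) (ZMod 2) →ₗ[ZMod 2] MvPolynomial (Fin m) (ZMod 2))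
    (b : Fin m) :
    MvPolynomial (Fin (n + 1)) (ZMod 2) →ₗ[ZMod 2] MvPolynomial (Fin m) (ZMod 2) :=
  Lam ∘ₗ TS w (k + 2) 1 + rop b (jj (w 0) ι b) ∘ₗ Lam ∘ₗ tone w (k + 2)

theorem psic_apply (b : Fin m) (f : MvPolynomial (Fin (n + 1)) (ZMod 2)) :
    psic w k ι Lam b f = Lam (TS w (k + 2) 1 f) +
      rop b (jj (w 0) ι b) (Lam (tone w (k + 2) f)) := rfl

theorem psic_hits (C : Cd k (w 0) (w 1) e0 D ι Lam B b)
    {g : MvPolynomial (Fin (n + 1)) (ZMod 2)} (hg : g ∈ hits (n + 1)) :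
    psic w k ι Lam b g ∈ hits m ⊔ msp (fun y => NLT y (fun j => e0 (ι j) / 2 ^ k)) := by
  rw [psic_apply]
  exact Submodule.add_mem _ (Submodule.mem_sup_left (C.hits_mem _ (TS_hits w _ _ hg)))
    (C.low_le (rop_hits (notMem_jj (w 0) ι b) (C.hits_mem _ (tone_hits hg))))

/-- transport of a property of the terms of `tone` through `rop` and `Lam` -/
theorem RT (h : Inc w (k + 2)) (y : Fin (n + 1) → ℕ)
    (N : Submodule (ZMod 2) (MvPolynomial (Fin m) (ZMod 2)))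
    (hN : ∀ z : Fin (n + 1) → ℕ, (∀ i < w 1, i ≠ w 0 → z i = y i) → z (w 1) = y (w 0) →
      LexLE (wt z) (wt y) → rop b (jj (w 0) ι b) (Lam (mono z)) ∈ N) :
    rop b (jj (w 0) ι b) (Lam (tone w (k + 2) (mono y))) ∈ N := by
  have h5 := map_msp (rop b (jj (w 0) ι b) ∘ₗ Lam) N (fun z hz => ?_)
    (tone_mem h (by omega) y)
  · rw [LinearMap.comp_apply] at h5
    exact h5
  · rw [LinearMap.comp_apply]
    exact hN z hz.1 hz.2.1 hz.2.2

theorem RT2 (h : Inc w (k + 2)) (y : Fin (n + 1) → ℕ)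
    (N : Submodule (ZMod 2) (MvPolynomial (Fin m) (ZMod 2)))
    (hN : ∀ z : Fin (n + 1) → ℕ, (∀ i < w 1, i ≠ w 0 → z i = y i) → z (w 1) = y (w 0) →
      LexLE (wt z) (wt y) → Lam (mono z) + rop b (jj (w 0) ι b) (Lam (mono z)) ∈ N) :
    Lam (tone w (k + 2) (mono y)) +
      rop b (jj (w 0) ι b) (Lam (tone w (k + 2) (mono y))) ∈ N := by
  have h5 := map_msp (Lam + rop b (jj (w 0) ι b) ∘ₗ Lam) N (fun z hz => ?_)
    (tone_mem h (by omega) y)
  · rw [LinearMap.add_apply, LinearMap.comp_apply] at h5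
    exact h5
  · rw [LinearMap.add_apply, LinearMap.comp_apply]
    exact hN z hz.1 hz.2.1 hz.2.2

theorem psic_full (S : Wk w (k + 2) 1 e e0) (C : Cd k (w 0) (w 1) e0 D ι Lam B b) :
    psic w k ι Lam b (mono e) + mono (fun j => e0 (ι j) / 2 ^ k) ∈
      hits m ⊔ msp (fun y => NLT y (fun j => e0 (ι j) / 2 ^ k)) := by
  have hkb : Kept k e0 D e0 ∧ ∀ j ∈ B, e0 (ι j) / 2 ^ k ≠ 0 :=
    ⟨C.kept, fun j hj => by rw [C.one j hj]; norm_num⟩
  have hmono0 : Lam (mono e0) = mono (fun j => e0 (ι j) / 2 ^ k) := C.pos e0 hkb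
  have e1 : psic w k ι Lam b (mono e) + mono (fun j => e0 (ι j) / 2 ^ k) =
      Lam (TS w (k + 2) 1 (mono e) + mono e0) +
        rop b (jj (w 0) ι b) (Lam (tone w (k + 2) (mono e))) := by
    rw [map_add, hmono0, psic_apply, add_right_comm]
  rw [e1]
  refine Submodule.add_mem _ (Submodule.mem_sup_right (C.msp_nlt S.full)) ?_
  refine RT S.inc e _ fun z hz1 hz2 hz3 => ?_
  refine C.RL ?_ (Or.inl fun i hi hi0 => ?_) ?_
  · rw [hz2, S.he 0 (by omega)]
  · rw [hz1 i hi hi0, e0_low S hi hi0]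
  · rw [S.hwt]; exact hz3

theorem psic_low (S : Wk w (k + 2) 1 e e0) (C : Cd k (w 0) (w 1) e0 D ι Lam B b)
    {y : Fin (n + 1) → ℕ} (hy : MonLT y e) :
    psic w k ι Lam b (mono y) ∈
      hits m ⊔ msp (fun y => NLT y (fun j => e0 (ι j) / 2 ^ k)) := by
  have hpq : w 0 < w 1 := C.hpq
  have hep : e (w 0) = 2 ^ (k + 2) - 1 := S.he 0 (by omega)
  rw [psic_apply]
  rcases hy.2 with hlt | ⟨hweq, f, hf, hf'⟩
  · -- smaller weight
    refine Submodule.add_mem _ (Submodule.mem_sup_right (C.msp_nlt ?_)) ?_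
    · rw [TS_mono S.inc 1 (by omega)]
      refine Submodule.sum_mem _ fun l hl => summand_mem fun c hc => ?_
      rw [Finset.mem_range] at hl
      refine Or.inl ?_
      rw [S.hwt]
      exact (term_le S.inc (by omega) hc).trans_lt hlt
    · refine RT S.inc y _ fun z hz1 hz2 hz3 => ?_
      refine C.RW ?_
      rw [S.hwt]
      exact hz3.trans_lt hlt
  · rcases lt_trichotomy f (w 0) with h | h | h
    · -- the first difference lies before `w 0`
      refine Submodule.add_mem _ (Submodule.mem_sup_right (C.msp_nlt ?_)) ?_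
      · refine msp_mono (fun z hz => ?_) (S.TAY hy)
        rcases hz with hz | hz
        · exact hz
        · exfalso
          obtain ⟨-, j, hj, -, -, -, hj4⟩ := hz
          have hj0 : j = 0 := by omega
          subst hj0
          rcases hj4 f h with h5 | ⟨m, hm, -⟩
          · rw [h5, e0_low S (h.trans hpq) (ne_of_lt h)] at hf'
            exact absurd hf' (lt_irrefl _)
          · exact absurd hm (Nat.not_lt_zero m)
      · refine RT S.inc y _ fun z hz1 hz2 hz3 => ?_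
        refine C.RP h (fun i hi => ?_) ?_ ?_
        · have hi2 := hi.trans h
          rw [hz1 i (hi2.trans hpq) (ne_of_lt hi2), hf i hi,
            e0_low S (hi2.trans hpq) (ne_of_lt hi2)]
        · rw [hz1 f (h.trans hpq) (ne_of_lt h), e0_low S (h.trans hpq) (ne_of_lt h)]
          exact hf'
        · rw [S.hwt, ← hweq]; exact hz3
    · -- the first difference is at `w 0`
      subst h
      have hT0 : TS w (k + 2) 1 (mono y) = tone w (k + 2) (mono y) := by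
        rw [TS_one S.inc (by omega), Cr_eq_zero, zero_mul, zero_add]
        rw [S.inc.card_MM, Nat.sub_zero, ← hep]
        exact hf'
      rw [hT0]
      refine RT2 S.inc y _ fun z hz1 hz2 hz3 => ?_
      refine C.RS ?_ (fun i hi => ?_) ?_
      · rw [hz2, ← hep]; exact hf'
      · rw [hz1 i (hi.trans hpq) (ne_of_lt hi), hf i hi, e0_low S (hi.trans hpq) (ne_of_lt hi)]
      · rw [S.hwt, ← hweq]; exact hz3
    · -- the first difference lies behind `w 0`
      have hyp : y (w 0) = 2 ^ (k + 2) - 1 := by rw [hf _ h, hep]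
      refine Submodule.add_mem _ (Submodule.mem_sup_right (C.msp_nlt ?_)) ?_
      · refine msp_mono (fun z hz => ?_) (S.TAY hy)
        rcases hz with hz | hz
        · exact hz
        · exfalso
          obtain ⟨-, j, hj, -, -, hj2, -⟩ := hz
          have hj0 : j = 0 := by omega
          subst hj0
          omega
      · refine RT S.inc y _ fun z hz1 hz2 hz3 => ?_
        refine C.RL ?_ ?_ ?_
        · rw [hz2, hyp]
        · rcases lt_or_ge f (w 1) with hf1 | hf1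
          · refine Or.inr ⟨f, hf1, ne_of_gt h, fun i hi hi0 => ?_, ?_⟩
            · rw [hz1 i (hi.trans hf1) hi0, hf i hi, e0_low S (hi.trans hf1) hi0]
            · rw [hz1 f hf1 (ne_of_gt h), e0_low S hf1 (ne_of_gt h)]
              exact hf'
          · refine Or.inl fun i hi hi0 => ?_
            rw [hz1 i hi hi0, hf i (lt_of_lt_of_le hi hf1), e0_low S hi hi0]
        · rw [S.hwt, ← hweq]; exact hz3

theorem mod_of_mod_succ {x k l : ℕ} (h : x % 2 ^ (k + l) = 2 ^ (k + l) - 1) :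
    x % 2 ^ k = 2 ^ k - 1 ∧ x / 2 ^ k % 2 ^ l = 2 ^ l - 1 := by
  have hk := Nat.one_le_two_pow (n := k)
  have hl := Nat.one_le_two_pow (n := l)
  rw [pow_add] at h
  have h1 := Nat.mod_mul (x := x) (a := 2 ^ k) (b := 2 ^ l)
  rw [h] at h1
  have h2 : x % 2 ^ k < 2 ^ k := Nat.mod_lt _ (by omega)
  have h3 : x / 2 ^ k % 2 ^ l < 2 ^ l := Nat.mod_lt _ (by omega)
  have h4 : 2 ^ k * 2 ^ l = 2 ^ k * (2 ^ l - 1) + 2 ^ k := by
    rw [Nat.mul_sub, mul_one]
    have : 2 ^ k * 1 ≤ 2 ^ k * 2 ^ l := Nat.mul_le_mul_left _ hl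
    omega
  have h5 : x / 2 ^ k % 2 ^ l = 2 ^ l - 1 := by
    by_contra hcon
    have h6 : x / 2 ^ k % 2 ^ l + 1 ≤ 2 ^ l - 1 := by omega
    have h7 : 2 ^ k * (x / 2 ^ k % 2 ^ l + 1) ≤ 2 ^ k * (2 ^ l - 1) := Nat.mul_le_mul_left _ h6
    rw [mul_add, mul_one] at h7
    omega
  refine ⟨?_, h5⟩
  rw [h5] at h1
  omega

/-- the operator C for any number of variables, the new variable at any position (`r = k + 2`,
`u = 1`): small spikes `2 ^ a - 1` with `a ≤ k` are allowed anywhere; the other exponents are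
congruent to `-1` modulo `2 ^ (k + 2)` before the new place, congruent to `-1` modulo
`2 ^ (k + 2)` or equal to `2 ^ (k + 1) - 1` between the new place and the spike, and congruent to
`-1` modulo `2 ^ (k + 1)` behind the spike with exactly one exception `q` -/
theorem Wk.C2 (S : Wk w (k + 2) 1 e e0) (q : Fin (n + 1)) (hq : w 1 < q)
    (hqk : e0 q % 2 ^ (k + 1) = 2 ^ k - 1)
    (hlow : ∀ i < w 0, e0 i % 2 ^ (k + 2) = 2 ^ (k + 2) - 1 ∨ ∃ a ≤ k, e0 i = 2 ^ a - 1)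
    (hmid : ∀ i, w 0 < i → i < w 1 →
      e0 i % 2 ^ (k + 2) = 2 ^ (k + 2) - 1 ∨ ∃ a ≤ k + 1, e0 i = 2 ^ a - 1)
    (hhigh : ∀ i, w 1 < i → i ≠ q →
      e0 i % 2 ^ (k + 1) = 2 ^ (k + 1) - 1 ∨ ∃ a ≤ k, e0 i = 2 ^ a - 1)
    (hadm : Adm e0) : Adm e := by
  classical
  have hpq : w 0 < w 1 := S.inc 0 1 (by omega) (by omega)
  have hpow := Nat.one_le_two_pow (n := k)
  have hdvd : 2 ^ k ∣ 2 ^ (k + 1) := pow_dvd_pow 2 (by omega)
  have h00 : e0 (w 0) = 0 := S.e0_eq_zero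
  have hw1 : e0 (w 1) = 2 ^ (k + 2) - 1 := S.e0_w (j := 0) (by omega)
  obtain ⟨D, hD⟩ : ∃ D : Finset (Fin (n + 1)),
      ∀ i, i ∈ D ↔ (i ≠ q ∧ ∃ a ≤ k, e0 i = 2 ^ a - 1) :=
    ⟨Finset.univ.filter (fun i => i ≠ q ∧ ∃ a ≤ k, e0 i = 2 ^ a - 1), fun i => by
      rw [Finset.mem_filter]
      exact ⟨fun h => h.2, fun h => ⟨Finset.mem_univ i, h⟩⟩⟩
  have hp : w 0 ∈ D := (hD _).mpr ⟨ne_of_lt (hpq.trans hq), 0, Nat.zero_le k, by rw [h00]; rfl⟩
  have hqD : q ∉ D := fun h => ((hD q).mp h).1 rfl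
  have hbD : w 1 ∉ D := fun h => not_small (show k < k + 2 by omega) hw1 ((hD _).mp h).2
  -- the exponents outside `D`, without `q`
  have hcase : ∀ i, i ∉ D → i ≠ q → (e0 i % 2 ^ (k + 2) = 2 ^ (k + 2) - 1) ∨
      (w 0 < i ∧ i < w 1 ∧ e0 i = 2 ^ (k + 1) - 1) ∨
      (w 1 < i ∧ e0 i % 2 ^ (k + 1) = 2 ^ (k + 1) - 1) := by
    intro i hi hiq
    have hno : ¬ ∃ a ≤ k, e0 i = 2 ^ a - 1 := fun h => hi ((hD i).mpr ⟨hiq, h⟩)
    rcases lt_trichotomy i (w 0) with h1 | h1 | h1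
    · exact Or.inl ((hlow i h1).resolve_right hno)
    · rw [h1] at hi
      exact absurd hp hi
    · rcases lt_trichotomy i (w 1) with h2 | h2 | h2
      · rcases hmid i h1 h2 with h3 | ⟨a, ha, h3⟩
        · exact Or.inl h3
        · right; left
          refine ⟨h1, h2, ?_⟩
          by_cases hak : a ≤ k
          · exact absurd ⟨a, hak, h3⟩ hno
          · have : a = k + 1 := by omega
            rw [h3, this]
      · left
        rw [h2, hw1]
        exact Nat.mod_eq_of_lt (by have := Nat.one_le_two_pow (n := k + 2); omega)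
      · exact Or.inr (Or.inr ⟨h2, (hhigh i h2 hiq).resolve_right hno⟩)
  have hodd : ∀ i, i ∉ D → i ≠ q → e0 i % 2 ^ (k + 1) = 2 ^ (k + 1) - 1 := by
    intro i hi hiq
    rcases hcase i hi hiq with h1 | ⟨-, -, h1⟩ | ⟨-, h1⟩
    · exact (mod_of_mod_succ (k := k + 1) (l := 1) h1).1
    · rw [h1]
      exact Nat.mod_eq_of_lt (by have := Nat.one_le_two_pow (n := k + 1); omega)
    · exact h1
  have hmodk : ∀ i, i ∉ D → e0 i % 2 ^ k = 2 ^ k - 1 := by
    intro i hi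
    by_cases hiq : i = q
    · rw [hiq, ← Nat.mod_mod_of_dvd _ hdvd, hqk]
      exact Nat.mod_eq_of_lt (by omega)
    · exact (mod_of_mod_succ (k := k) (l := 1) (hodd i hi hiq)).1
  have hkept : Kept k e0 D e0 := ⟨fun _ _ => rfl, hmodk⟩
  obtain ⟨m, ι, Λ, V⟩ := exists_sv k e0 D (fun i hi => ((hD i).mp hi).2) hmodk
  obtain ⟨b, hb⟩ := (V.range _).mp hbD
  obtain ⟨jq, hjq⟩ := (V.range _).mp hqD
  obtain ⟨B, hB⟩ : ∃ B : Finset (Fin m), ∀ j, j ∈ B ↔ e0 (ι j) / 2 ^ k = 1 :=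
    ⟨Finset.univ.filter (fun j => e0 (ι j) / 2 ^ k = 1), fun j => by
      rw [Finset.mem_filter]
      exact ⟨fun h => h.2, fun h => ⟨Finset.mem_univ j, h⟩⟩⟩
  obtain ⟨K, hK, hKm⟩ := exists_keep B
  have hthree : ∀ i, e0 i % 2 ^ (k + 2) = 2 ^ (k + 2) - 1 → e0 i / 2 ^ k % 4 = 3 := by
    intro i hi
    exact (mod_of_mod_succ (k := k) (l := 2) hi).2
  have C : Cd k (w 0) (w 1) e0 D ι (K ∘ₗ Λ) B b := by
    refine ⟨V.strict, V.range, fun g hg => hK _ (V.hits_mem g hg), fun z hz => ?_,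
      fun z hz => ?_, hkept, fun z hz h => V.lt hkept hz h, fun z hz h => V.le hkept hz h,
      fun z hz h => V.nlt hkept hz h, hp, hpq, hb, ?_, fun j hj => (hB j).mp hj, fun j hj => ?_,
      fun j hj => ?_, ?_⟩
    · rw [LinearMap.comp_apply, V.pos z hz.1, hKm, if_pos hz.2]
    · rw [LinearMap.comp_apply]
      by_cases h1 : Kept k e0 D z
      · rw [V.pos z h1, hKm, if_neg (fun h2 => hz ⟨h1, h2⟩)]
      · rw [V.neg z h1, map_zero]
    · rw [hb, hw1, pow_add, Nat.div_eq_iff (by omega)]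
      omega
    · have h1 := V.out j
      have h2 : ι j ≠ q := by
        intro h
        rw [h] at hj
        exact absurd (hj.trans (hpq.trans hq)) (lt_irrefl _)
      rcases hcase _ h1 h2 with h3 | ⟨h3, -, -⟩ | ⟨h3, -⟩
      · exact hthree _ h3
      · exact absurd (h3.trans hj) (lt_irrefl _)
      · exact absurd ((hpq.trans h3).trans hj) (lt_irrefl _)
    · have h0 : ι j < w 1 := by
        rw [← hb]
        exact V.strict hj
      have h1 := V.out j
      have h2 : ι j ≠ q := by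
        intro h
        rw [h] at h0
        exact absurd (h0.trans hq) (lt_irrefl _)
      rcases hcase _ h1 h2 with h3 | ⟨-, -, h3⟩ | ⟨h3, -⟩
      · exact Or.inl (hthree _ h3)
      · right
        have h4 : e0 (ι j) / 2 ^ k = 1 := by
          rw [h3, pow_succ, Nat.div_eq_iff (by omega)]
          omega
        exact ⟨h4, (hB j).mpr h4⟩
      · exact absurd (h3.trans h0) (lt_irrefl _)
    · refine wt_zero_pred (b := jq) ?_ (fun i hi => ?_)
      · show e0 (ι jq) / 2 ^ k % 2 = 0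
        rw [hjq, ← Nat.mod_mul_right_div_self, ← pow_succ, hqk]
        exact Nat.div_eq_of_lt (by omega)
      · show e0 (ι i) / 2 ^ k % 2 = 1
        have h8 : ι i ≠ q := by
          intro h
          rw [← hjq] at h
          exact hi (V.strict.injective h)
        exact (mod_of_mod_succ (k := k) (l := 1) (hodd _ (V.out i) h8)).2
  exact adm_transport (psic w k ι (K ∘ₗ Λ) b) (fun g hg => psic_hits C hg)
    (psic_full S C) (fun y hy => psic_low S C hy) (V.adm hadm)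

end op

end Pool.Agent.SUC
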