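import Pool.Agent.SUC.OpC2
import Pool.Agent.SUC.OmegaC

set_option autoImplicit false

/-!
# The operator C with the exceptional exponent in the gap or behind the spike
-/

namespace Pool.Agent.SUC

open Pool.Agent.Helper60.Hit MvPolynomial Pool.Agent.CTL45 Pool.Agent.HitD5

/-- a correction operator `R` on the polynomials in `m` variables: `Lam` sends the kept monomials
(`z` with `P z`) to monomials in `m` variables, `b` is the place of the spike, `tg` the target -/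
structure Cr3 {n m : ℕ} (k : ℕ) (p q : Fin (n + 1)) (e0 : Fin (n + 1) → ℕ)
    (ι : Fin m → Fin (n + 1)) (P : (Fin (n + 1) → ℕ) → Prop)
    (Lam : MvPolynomial (Fin (n + 1)) (ZMod 2) →ₗ[ZMod 2] MvPolynomial (Fin m) (ZMod 2))
    (R : MvPolynomial (Fin m) (ZMod 2) →ₗ[ZMod 2] MvPolynomial (Fin m) (ZMod 2)) : Prop where
  hpq : p < q
  pos : ∀ z, P z → Lam (mono z) = mono (fun j => z (ι j) / 2 ^ k)
  neg : ∀ z, ¬ P z → Lam (mono z) = 0
  self : P e0
  hits_mem : ∀ g ∈ hits (n + 1), Lam g ∈ hits m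
  nlt : ∀ z, P z → NLT z e0 →
    NLT (fun j => z (ι j) / 2 ^ k) (fun j => e0 (ι j) / 2 ^ k)
  R_hits : ∀ g ∈ hits m, R g ∈ hits m ⊔ msp (fun y => NLT y (fun j => e0 (ι j) / 2 ^ k))
  RL : ∀ z, P z → z q = 2 ^ (k + 2) - 1 →
    ((∀ i < q, i ≠ p → z i = e0 i) ∨
      ∃ f < q, f ≠ p ∧ (∀ i < f, i ≠ p → z i = e0 i) ∧ z f < e0 f) →
    LexLE (wt z) (wt e0) → R (mono (fun j => z (ι j) / 2 ^ k)) ∈
      hits m ⊔ msp (fun y => NLT y (fun j => e0 (ι j) / 2 ^ k))
  RS : ∀ z, P z → z q < 2 ^ (k + 2) - 1 → (∀ i < p, z i = e0 i) →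
    LexLE (wt z) (wt e0) → mono (fun j => z (ι j) / 2 ^ k) + R (mono (fun j => z (ι j) / 2 ^ k)) ∈
      hits m ⊔ msp (fun y => NLT y (fun j => e0 (ι j) / 2 ^ k))
  RP : ∀ z, P z → ∀ f < p, (∀ i < f, z i = e0 i) → z f < e0 f →
    LexLE (wt z) (wt e0) → R (mono (fun j => z (ι j) / 2 ^ k)) ∈
      hits m ⊔ msp (fun y => NLT y (fun j => e0 (ι j) / 2 ^ k))
  RW : ∀ z, P z → LexLT (wt z) (wt e0) → R (mono (fun j => z (ι j) / 2 ^ k)) ∈
      hits m ⊔ msp (fun y => NLT y (fun j => e0 (ι j) / 2 ^ k))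

section op

variable {n m k : ℕ} {w : ℕ → Fin (n + 1)} {e e0 : Fin (n + 1) → ℕ}
  {ι : Fin m → Fin (n + 1)} {P : (Fin (n + 1) → ℕ) → Prop}
  {Lam : MvPolynomial (Fin (n + 1)) (ZMod 2) →ₗ[ZMod 2] MvPolynomial (Fin m) (ZMod 2)}
  {R : MvPolynomial (Fin m) (ZMod 2) →ₗ[ZMod 2] MvPolynomial (Fin m) (ZMod 2)}

theorem Cr3.msp_nlt {p q : Fin (n + 1)} (C : Cr3 k p q e0 ι P Lam R)
    {f : MvPolynomial (Fin (n + 1)) (ZMod 2)} (hf : f ∈ msp (fun z => NLT z e0)) :
    Lam f ∈ msp (fun z => NLT z (fun j => e0 (ι j) / 2 ^ k)) := by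
  refine map_msp Lam _ (fun z hz => ?_) hf
  by_cases h : P z
  · rw [C.pos z h]
    exact mono_mem_msp (C.nlt z h hz)
  · rw [C.neg z h]
    exact Submodule.zero_mem _

/-- the operator -/
noncomputable def psi3 (w : ℕ → Fin (n + 1)) (k : ℕ)
    (Lam : MvPolynomial (Fin (n + 1)) (ZMod 2) →ₗ[ZMod 2] MvPolynomial (Fin m) (ZMod 2))
    (R : MvPolynomial (Fin m) (ZMod 2) →ₗ[ZMod 2] MvPolynomial (Fin m) (ZMod 2)) :
    MvPolynomial (Fin (n + 1)) (ZMod 2) →ₗ[ZMod 2] MvPolynomial (Fin m) (ZMod 2) :=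
  Lam ∘ₗ TS w (k + 2) 1 + R ∘ₗ Lam ∘ₗ tone w (k + 2)

theorem psi3_apply (f : MvPolynomial (Fin (n + 1)) (ZMod 2)) :
    psi3 w k Lam R f = Lam (TS w (k + 2) 1 f) + R (Lam (tone w (k + 2) f)) := rfl

/-- transport of a property of the terms of `tone` through `R` and `Lam` -/
theorem Cr3.RT {p q : Fin (n + 1)} (C : Cr3 k p q e0 ι P Lam R) (h : Inc w (k + 2))
    (y : Fin (n + 1) → ℕ) (N : Submodule (ZMod 2) (MvPolynomial (Fin m) (ZMod 2)))
    (hN : ∀ z : Fin (n + 1) → ℕ, P z → (∀ i < w 1, i ≠ w 0 → z i = y i) → z (w 1) = y (w 0) →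
      LexLE (wt z) (wt y) → R (mono (fun j => z (ι j) / 2 ^ k)) ∈ N) :
    R (Lam (tone w (k + 2) (mono y))) ∈ N := by
  have h5 := map_msp (R ∘ₗ Lam) N (fun z hz => ?_) (tone_mem h (by omega) y)
  · rw [LinearMap.comp_apply] at h5
    exact h5
  · rw [LinearMap.comp_apply]
    by_cases hP : P z
    · rw [C.pos z hP]
      exact hN z hP hz.1 hz.2.1 hz.2.2
    · rw [C.neg z hP, map_zero]
      exact Submodule.zero_mem _

theorem Cr3.RT2 {p q : Fin (n + 1)} (C : Cr3 k p q e0 ι P Lam R) (h : Inc w (k + 2))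
    (y : Fin (n + 1) → ℕ) (N : Submodule (ZMod 2) (MvPolynomial (Fin m) (ZMod 2)))
    (hN : ∀ z : Fin (n + 1) → ℕ, P z → (∀ i < w 1, i ≠ w 0 → z i = y i) → z (w 1) = y (w 0) →
      LexLE (wt z) (wt y) → mono (fun j => z (ι j) / 2 ^ k) +
        R (mono (fun j => z (ι j) / 2 ^ k)) ∈ N) :
    Lam (tone w (k + 2) (mono y)) + R (Lam (tone w (k + 2) (mono y))) ∈ N := by
  have h5 := map_msp (Lam + R ∘ₗ Lam) N (fun z hz => ?_) (tone_mem h (by omega) y)
  · rw [LinearMap.add_apply, LinearMap.comp_apply] at h5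
    exact h5
  · rw [LinearMap.add_apply, LinearMap.comp_apply]
    by_cases hP : P z
    · rw [C.pos z hP]
      exact hN z hP hz.1 hz.2.1 hz.2.2
    · rw [C.neg z hP, map_zero, add_zero]
      exact Submodule.zero_mem _

theorem Cr3.low (C : Cr3 k (w 0) (w 1) e0 ι P Lam R) (S : Wk w (k + 2) 1 e e0)
    {y : Fin (n + 1) → ℕ} (hy : MonLT y e) :
    psi3 w k Lam R (mono y) ∈
      hits m ⊔ msp (fun y => NLT y (fun j => e0 (ι j) / 2 ^ k)) := by
  have hpq : w 0 < w 1 := C.hpq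
  have hep : e (w 0) = 2 ^ (k + 2) - 1 := S.he 0 (by omega)
  rw [psi3_apply]
  rcases hy.2 with hlt | ⟨hweq, f, hf, hf'⟩
  · -- smaller weight
    refine Submodule.add_mem _ (Submodule.mem_sup_right (C.msp_nlt ?_)) ?_
    · rw [TS_mono S.inc 1 (by omega)]
      refine Submodule.sum_mem _ fun l hl => summand_mem fun c hc => ?_
      rw [Finset.mem_range] at hl
      refine Or.inl ?_
      rw [S.hwt]
      exact (term_le S.inc (by omega) hc).trans_lt hlt
    · refine C.RT S.inc y _ fun z hP hz1 hz2 hz3 => ?_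
      refine C.RW z hP ?_
      rw [S.hwt]
      exact hz3.trans_lt hlt
  · rcases lt_trichotomy f (w 0) with h | h | h
    · -- the first difference lies before `w 0`
      refine Submodule.add_mem _ (Submodule.mem_sup_right (C.msp_nlt ?_)) ?_
      · refine msp_mono (fun z hz => ?_) (S.TAY hy)
        rcases hz with hz | hz
        · exact hz
        · exfalso
          obtain ⟨-, j, hj, -, -, -, hj4⟩ := hz
          have hj0 : j = 0 := by omega
          subst hj0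
          rcases hj4 f h with h5 | ⟨m, hm, -⟩
          · rw [h5, e0_low S (h.trans hpq) (ne_of_lt h)] at hf'
            exact absurd hf' (lt_irrefl _)
          · exact absurd hm (Nat.not_lt_zero m)
      · refine C.RT S.inc y _ fun z hP hz1 hz2 hz3 => ?_
        refine C.RP z hP f h (fun i hi => ?_) ?_ ?_
        · have hi2 := hi.trans h
          rw [hz1 i (hi2.trans hpq) (ne_of_lt hi2), hf i hi,
            e0_low S (hi2.trans hpq) (ne_of_lt hi2)]
        · rw [hz1 f (h.trans hpq) (ne_of_lt h), e0_low S (h.trans hpq) (ne_of_lt h)]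
          exact hf'
        · rw [S.hwt, ← hweq]; exact hz3
    · -- the first difference is at `w 0`
      subst h
      have hT0 : TS w (k + 2) 1 (mono y) = tone w (k + 2) (mono y) := by
        rw [TS_one S.inc (by omega), Cr_eq_zero, zero_mul, zero_add]
        rw [S.inc.card_MM, Nat.sub_zero, ← hep]
        exact hf'
      rw [hT0]
      refine C.RT2 S.inc y _ fun z hP hz1 hz2 hz3 => ?_
      refine C.RS z hP ?_ (fun i hi => ?_) ?_
      · rw [hz2, ← hep]; exact hf'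
      · rw [hz1 i (hi.trans hpq) (ne_of_lt hi), hf i hi, e0_low S (hi.trans hpq) (ne_of_lt hi)]
      · rw [S.hwt, ← hweq]; exact hz3
    · -- the first difference lies behind `w 0`
      have hyp : y (w 0) = 2 ^ (k + 2) - 1 := by rw [hf _ h, hep]
      refine Submodule.add_mem _ (Submodule.mem_sup_right (C.msp_nlt ?_)) ?_
      · refine msp_mono (fun z hz => ?_) (S.TAY hy)
        rcases hz with hz | hz
        · exact hz
        · exfalso
          obtain ⟨-, j, hj, -, -, hj2, -⟩ := hz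
          have hj0 : j = 0 := by omega
          subst hj0
          omega
      · refine C.RT S.inc y _ fun z hP hz1 hz2 hz3 => ?_
        refine C.RL z hP ?_ ?_ ?_
        · rw [hz2, hyp]
        · rcases lt_or_ge f (w 1) with hf1 | hf1
          · refine Or.inr ⟨f, hf1, ne_of_gt h, fun i hi hi0 => ?_, ?_⟩
            · rw [hz1 i (hi.trans hf1) hi0, hf i hi, e0_low S (hi.trans hf1) hi0]
            · rw [hz1 f hf1 (ne_of_gt h), e0_low S hf1 (ne_of_gt h)]
              exact hf'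
          · refine Or.inl fun i hi hi0 => ?_
            rw [hz1 i hi hi0, hf i (lt_of_lt_of_le hi hf1), e0_low S hi hi0]
        · rw [S.hwt, ← hweq]; exact hz3

/-- transport of admissibility by a correction operator -/
theorem Cr3.adm (C : Cr3 k (w 0) (w 1) e0 ι P Lam R) (S : Wk w (k + 2) 1 e e0)
    (h : Adm (fun j => e0 (ι j) / 2 ^ k)) : Adm e := by
  refine adm_transport (psi3 w k Lam R) (fun g hg => ?_) ?_ (fun y hy => C.low S hy) h
  · rw [psi3_apply]
    exact Submodule.add_mem _ (Submodule.mem_sup_left (C.hits_mem _ (TS_hits w _ _ hg)))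
      (C.R_hits _ (C.hits_mem _ (tone_hits hg)))
  · have hmono0 : Lam (mono e0) = mono (fun j => e0 (ι j) / 2 ^ k) := C.pos e0 C.self
    have e1 : psi3 w k Lam R (mono e) + mono (fun j => e0 (ι j) / 2 ^ k) =
        Lam (TS w (k + 2) 1 (mono e) + mono e0) + R (Lam (tone w (k + 2) (mono e))) := by
      rw [map_add, hmono0, psi3_apply, add_right_comm]
    rw [e1]
    refine Submodule.add_mem _ (Submodule.mem_sup_right (C.msp_nlt S.full)) ?_
    refine C.RT S.inc e _ fun z hP hz1 hz2 hz3 => ?_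
    refine C.RL z hP ?_ (Or.inl fun i hi hi0 => ?_) ?_
    · rw [hz2, S.he 0 (by omega)]
    · rw [hz1 i hi hi0, e0_low S hi hi0]
    · rw [S.hwt]; exact hz3

/-- the exceptional exponent lies in the gap and is congruent to `2 ^ k - 1` modulo
`2 ^ (k + 2)` -/
theorem Wk.C3 (S : Wk w (k + 2) 1 e e0) (q : Fin (n + 1)) (hpq' : w 0 < q) (hq : q < w 1)
    (hqk : e0 q % 2 ^ (k + 2) = 2 ^ k - 1)
    (hlow : ∀ i < w 0, e0 i % 2 ^ (k + 2) = 2 ^ (k + 2) - 1 ∨ ∃ a ≤ k, e0 i = 2 ^ a - 1)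
    (hmid : ∀ i, w 0 < i → i < q →
      e0 i % 2 ^ (k + 2) = 2 ^ (k + 2) - 1 ∨ ∃ a ≤ k + 1, e0 i = 2 ^ a - 1)
    (hhigh : ∀ i, q < i →
      e0 i % 2 ^ (k + 1) = 2 ^ (k + 1) - 1 ∨ ∃ a ≤ k, e0 i = 2 ^ a - 1)
    (hadm : Adm e0) : Adm e := by
  classical
  have hpq : w 0 < w 1 := hpq'.trans hq
  have hpow := Nat.one_le_two_pow (n := k)
  have h00 : e0 (w 0) = 0 := S.e0_eq_zero
  have hw1 : e0 (w 1) = 2 ^ (k + 2) - 1 := S.e0_w (j := 0) (by omega)
  obtain ⟨D, hD⟩ : ∃ D : Finset (Fin (n + 1)),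
      ∀ i, i ∈ D ↔ (i ≠ q ∧ ∃ a ≤ k, e0 i = 2 ^ a - 1) :=
    ⟨Finset.univ.filter (fun i => i ≠ q ∧ ∃ a ≤ k, e0 i = 2 ^ a - 1), fun i => by
      rw [Finset.mem_filter]
      exact ⟨fun h => h.2, fun h => ⟨Finset.mem_univ i, h⟩⟩⟩
  have hp : w 0 ∈ D := (hD _).mpr ⟨ne_of_lt hpq', 0, Nat.zero_le k, by rw [h00]; rfl⟩
  have hqD : q ∉ D := fun h => ((hD q).mp h).1 rfl
  have hbD : w 1 ∉ D := fun h => not_small (show k < k + 2 by omega) hw1 ((hD _).mp h).2
  -- the exceptional exponent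
  have hq4 : e0 q % 2 ^ k = 2 ^ k - 1 ∧ e0 q / 2 ^ k % 4 = 0 := by
    have h1 := Nat.mod_mul (x := e0 q) (a := 2 ^ k) (b := 4)
    have h2 : 2 ^ k * 4 = 2 ^ (k + 2) := by rw [pow_add]; norm_num
    rw [h2, hqk] at h1
    have h3 : e0 q % 2 ^ k < 2 ^ k := Nat.mod_lt _ (by omega)
    have h4 : e0 q / 2 ^ k % 4 = 0 := by
      by_contra hcon
      have h5 : 2 ^ k * 1 ≤ 2 ^ k * (e0 q / 2 ^ k % 4) :=
        Nat.mul_le_mul_left _ (Nat.one_le_iff_ne_zero.mpr hcon)
      omega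
    rw [h4, mul_zero, add_zero] at h1
    exact ⟨h1.symm, h4⟩
  -- the exponents outside `D`, without `q`
  have hcase : ∀ i, i ∉ D → i ≠ q →
      (i < w 0 ∧ e0 i % 2 ^ (k + 2) = 2 ^ (k + 2) - 1) ∨
      (w 0 < i ∧ i < q ∧ (e0 i % 2 ^ (k + 2) = 2 ^ (k + 2) - 1 ∨ e0 i = 2 ^ (k + 1) - 1)) ∨
      (q < i ∧ e0 i % 2 ^ (k + 1) = 2 ^ (k + 1) - 1) := by
    intro i hi hiq
    have hno : ¬ ∃ a ≤ k, e0 i = 2 ^ a - 1 := fun h => hi ((hD i).mpr ⟨hiq, h⟩)
    rcases lt_trichotomy i (w 0) with h1 | h1 | h1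
    · exact Or.inl ⟨h1, (hlow i h1).resolve_right hno⟩
    · rw [h1] at hi
      exact absurd hp hi
    · rcases lt_trichotomy i q with h2 | h2 | h2
      · right; left
        refine ⟨h1, h2, ?_⟩
        rcases hmid i h1 h2 with h3 | ⟨a, ha, h3⟩
        · exact Or.inl h3
        · right
          by_cases hak : a ≤ k
          · exact absurd ⟨a, hak, h3⟩ hno
          · have : a = k + 1 := by omega
            rw [h3, this]
      · exact absurd h2 hiq
      · exact Or.inr (Or.inr ⟨h2, (hhigh i h2).resolve_right hno⟩)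
  have hodd : ∀ i, i ∉ D → i ≠ q → e0 i % 2 ^ (k + 1) = 2 ^ (k + 1) - 1 := by
    intro i hi hiq
    rcases hcase i hi hiq with ⟨-, h1⟩ | ⟨-, -, h1 | h1⟩ | ⟨-, h1⟩
    · exact (mod_of_mod_succ (k := k + 1) (l := 1) h1).1
    · exact (mod_of_mod_succ (k := k + 1) (l := 1) h1).1
    · rw [h1]
      exact Nat.mod_eq_of_lt (by have := Nat.one_le_two_pow (n := k + 1); omega)
    · exact h1
  have hmodk : ∀ i, i ∉ D → e0 i % 2 ^ k = 2 ^ k - 1 := by
    intro i hi
    by_cases hiq : i = q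
    · rw [hiq]; exact hq4.1
    · exact (mod_of_mod_succ (k := k) (l := 1) (hodd i hi hiq)).1
  have hkept : Kept k e0 D e0 := ⟨fun _ _ => rfl, hmodk⟩
  obtain ⟨m, ι, Λ, V⟩ := exists_sv k e0 D (fun i hi => ((hD i).mp hi).2) hmodk
  obtain ⟨b, hb⟩ := (V.range _).mp hbD
  obtain ⟨a, ha⟩ := (V.range _).mp hqD
  obtain ⟨B, hB⟩ : ∃ B : Finset (Fin m), ∀ j, j ∈ B ↔ e0 (ι j) / 2 ^ k = 1 :=
    ⟨Finset.univ.filter (fun j => e0 (ι j) / 2 ^ k = 1), fun j => by
      rw [Finset.mem_filter]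
      exact ⟨fun h => h.2, fun h => ⟨Finset.mem_univ j, h⟩⟩⟩
  obtain ⟨K, hK, hKm⟩ := exists_keep B
  have hthree : ∀ i, e0 i % 2 ^ (k + 2) = 2 ^ (k + 2) - 1 → e0 i / 2 ^ k % 4 = 3 := by
    intro i hi
    exact (mod_of_mod_succ (k := k) (l := 2) hi).2
  have hnep : ∀ j, ι j ≠ w 0 := fun j h => V.out j (by rw [h]; exact hp)
  have hab : a < b := by
    refine V.strict.lt_iff_lt.mp ?_
    rw [ha, hb]
    exact hq
  have haJ : a ∈ jj (w 0) ι b := by
    unfold jj
    rw [Finset.mem_filter]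
    exact ⟨Finset.mem_univ _, ne_of_lt hab, by rw [ha]; exact hpq'⟩
  have hw : wt (fun j => e0 (ι j) / 2 ^ k) 0 = m - 1 := by
    refine wt_zero_pred (b := a) ?_ (fun i hi => ?_)
    · show e0 (ι a) / 2 ^ k % 2 = 0
      rw [ha]
      have := hq4.2
      omega
    · show e0 (ι i) / 2 ^ k % 2 = 1
      have h8 : ι i ≠ q := by
        intro h
        rw [← ha] at h
        exact hi (V.strict.injective h)
      exact (mod_of_mod_succ (k := k) (l := 1) (hodd _ (V.out i) h8)).2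
  have hfront : ∀ j, ι j < w 0 → e0 (ι j) / 2 ^ k % 4 = 3 := by
    intro j hj
    have h2 : ι j ≠ q := ne_of_lt (hj.trans hpq')
    rcases hcase _ (V.out j) h2 with ⟨-, h3⟩ | ⟨h3, -, -⟩ | ⟨h3, -⟩
    · exact hthree _ h3
    · exact absurd (h3.trans hj) (lt_irrefl _)
    · exact absurd ((hpq'.trans h3).trans hj) (lt_irrefl _)
  have hmid2 : ∀ j < a, e0 (ι j) / 2 ^ k % 4 = 3 ∨ (e0 (ι j) / 2 ^ k = 1 ∧ j ∈ B) := by
    intro j hj
    have h0 : ι j < q := by
      rw [← ha]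
      exact V.strict hj
    rcases hcase _ (V.out j) (ne_of_lt h0) with ⟨-, h3⟩ | ⟨-, -, h3 | h3⟩ | ⟨h3, -⟩
    · exact Or.inl (hthree _ h3)
    · exact Or.inl (hthree _ h3)
    · right
      have h4 : e0 (ι j) / 2 ^ k = 1 := by
        rw [h3, pow_succ, Nat.div_eq_iff (by omega)]
        omega
      exact ⟨h4, (hB j).mpr h4⟩
    · exact absurd (h3.trans h0) (lt_irrefl _)
  have hnJ : b ∉ jj (w 0) ι b := notMem_jj (w 0) ι b
  have hlowle : hits m ⊔ msp (fun z => wt z 0 < m - 1) ≤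
      hits m ⊔ msp (fun y => NLT y (fun j => e0 (ι j) / 2 ^ k)) := by
    refine sup_le_sup_left (msp_mono fun z hz =>
      Or.inl ⟨0, fun l hl => absurd hl (Nat.not_lt_zero l), ?_⟩) _
    rw [hw]
    exact hz
  -- a first difference is not in `D`
  have hfnd : ∀ z : Fin (n + 1) → ℕ, Kept k e0 D z → ∀ f, z f < e0 f → ∃ f', ι f' = f := by
    intro z hz f hf'
    refine (V.range f).mp (fun hmem => ?_)
    rw [hz.1 f hmem] at hf'
    exact absurd hf' (lt_irrefl _)
  have C : Cr3 k (w 0) (w 1) e0 ι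
      (fun z => Kept k e0 D z ∧ ∀ j ∈ B, z (ι j) / 2 ^ k ≠ 0) (K ∘ₗ Λ)
      (rop3 a b (jj (w 0) ι b)) := by
    refine ⟨hpq, fun z hz => ?_, fun z hz => ?_, ⟨hkept, fun j hj => ?_⟩,
      fun g hg => hK _ (V.hits_mem g hg), fun z hz h => V.nlt hkept hz.1 h, fun g hg => ?_,
      fun z hz hzq hpre hle => ?_, fun z hz hzq hpre hle => ?_,
      fun z hz f hfp hf hf' hle => ?_, fun z hz hlt => ?_⟩
    · rw [LinearMap.comp_apply, V.pos z hz.1, hKm, if_pos hz.2]
    · rw [LinearMap.comp_apply]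
      by_cases h1 : Kept k e0 D z
      · rw [V.pos z h1, hKm, if_neg (fun h2 => hz ⟨h1, h2⟩)]
      · rw [V.neg z h1, map_zero]
    · rw [(hB j).mp hj]; norm_num
    · exact rop3_mem hab (Submodule.mem_sup_left hg) (hlowle (rop_hits hnJ hg))
    · -- RL
      rcases V.le hkept hz.1 hle with hw' | hw'
      · refine rop3_three hab hnJ haJ hw ?_ (fun i hi => ?_) ?_ ?_ hw'
        · show e0 (ι a) / 2 ^ k % 4 = 0
          rw [ha]; exact hq4.2
        · rcases hmid2 i hi with h5 | ⟨h5, h6⟩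
          · exact Or.inl h5
          · exact Or.inr ⟨h5, hz.2 i h6⟩
        · show z (ι b) / 2 ^ k = 3
          rw [hb, hzq, pow_add, Nat.div_eq_iff (by omega)]
          omega
        · rcases hpre with hpre | ⟨f, hfq, hfp, hf, hf'⟩
          · refine Or.inl fun i hi => ?_
            show z (ι i) / 2 ^ k = e0 (ι i) / 2 ^ k
            rw [hpre _ ?_ (hnep i)]
            rw [← hb]
            exact V.strict hi
          · obtain ⟨f, rfl⟩ := hfnd z hz.1 f hf'
            refine Or.inr ⟨f, ?_, fun i hi => ?_, ?_⟩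
            · rw [← hb] at hfq
              exact V.strict.lt_iff_lt.mp hfq
            · show z (ι i) / 2 ^ k = e0 (ι i) / 2 ^ k
              rw [hf _ (V.strict hi) (hnep i)]
            · exact div_lt_of_mod (hz.1.2 _ (V.out f)) (hkept.2 _ (V.out f)) hf'
      · exact rop3_mem hab (Submodule.mem_sup_right (mono_mem_msp (Or.inl hw')))
          (Submodule.mem_sup_right (rop_lt hnJ hw'))
    · -- RS
      refine rop3_small hab ?_
      rcases V.le hkept hz.1 hle with hw' | hw'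
      · refine rop_small hnJ hw ?_ hw' ?_
        · show z (ι b) / 2 ^ k < 3
          have h5 := hz.1.2 _ (V.out b)
          rw [hb] at h5 ⊢
          have h6 := Nat.div_add_mod (z (w 1)) (2 ^ k)
          by_contra hcon
          push Not at hcon
          have h8 := Nat.mul_le_mul_left (2 ^ k) hcon
          rw [pow_add] at hzq
          omega
        · intro i hi hiJ
          have h5 : ι i < w 0 := by
            unfold jj at hiJ
            rw [Finset.mem_filter, not_and_or, not_and_or] at hiJ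
            rcases hiJ with h | h | h
            · exact absurd (Finset.mem_univ i) h
            · exact absurd hi h
            · exact lt_of_le_of_ne (not_lt.mp h) (hnep i)
          show z (ι i) / 2 ^ k % 4 = 3
          rw [hpre _ h5]
          exact hfront i h5
      · exact Submodule.mem_sup_right (Submodule.add_mem _ (mono_mem_msp (Or.inl hw'))
          (rop_lt hnJ hw'))
    · -- RP
      obtain ⟨f, rfl⟩ := hfnd z hz.1 f hf'
      have hlt' : z (ι f) / 2 ^ k < e0 (ι f) / 2 ^ k :=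
        div_lt_of_mod (hz.1.2 _ (V.out f)) (hkept.2 _ (V.out f)) hf'
      have heq' : ∀ i < f, z (ι i) / 2 ^ k = e0 (ι i) / 2 ^ k := by
        intro i hi
        rw [hf _ (V.strict hi)]
      have hle' := V.le hkept hz.1 hle
      refine rop3_mem hab (Submodule.mem_sup_right (mono_mem_msp ?_))
        (Submodule.mem_sup_right (rop_front (f := f) hnJ hle' heq' hlt'
          (fun i hi => ⟨?_, ?_⟩)))
      · rcases hle' with h5 | h5
        · exact Or.inr ⟨h5, f, heq', hlt'⟩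
        · exact Or.inl h5
      · rintro rfl
        have h5 : ι i ≤ ι f := V.strict.monotone hi
        rw [hb] at h5
        exact absurd (hpq.trans (lt_of_le_of_lt h5 hfp)) (lt_irrefl _)
      · intro hmem
        unfold jj at hmem
        rw [Finset.mem_filter] at hmem
        have h5 : ι i ≤ ι f := V.strict.monotone hi
        exact absurd (hmem.2.2.trans (lt_of_le_of_lt h5 hfp)) (lt_irrefl _)
    · -- RW
      have hlt' := V.lt hkept hz.1 hlt
      exact rop3_mem hab (Submodule.mem_sup_right (mono_mem_msp (Or.inl hlt')))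
        (Submodule.mem_sup_right (rop_lt hnJ hlt'))
  exact C.adm S (V.adm hadm)

/-- the exceptional exponent lies anywhere behind the new place -/
theorem Wk.C4 (S : Wk w (k + 2) 1 e e0) (q : Fin (n + 1)) (hpq' : w 0 < q) (hq : q ≠ w 1)
    (hqk : e0 q % 2 ^ (k + 1) = 2 ^ k - 1) (hqg : q < w 1 → e0 q % 2 ^ (k + 2) = 2 ^ k - 1)
    (hlow : ∀ i < w 0, e0 i % 2 ^ (k + 2) = 2 ^ (k + 2) - 1 ∨ ∃ a ≤ k, e0 i = 2 ^ a - 1)
    (hmid : ∀ i, w 0 < i → i < w 1 → i < q →
      e0 i % 2 ^ (k + 2) = 2 ^ (k + 2) - 1 ∨ ∃ a ≤ k + 1, e0 i = 2 ^ a - 1)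
    (hhigh : ∀ i, w 0 < i → (w 1 < i ∨ q < i) → i ≠ q →
      e0 i % 2 ^ (k + 1) = 2 ^ (k + 1) - 1 ∨ ∃ a ≤ k, e0 i = 2 ^ a - 1)
    (hadm : Adm e0) : Adm e := by
  have hpq : w 0 < w 1 := S.inc 0 1 (by omega) (by omega)
  rcases lt_or_gt_of_ne hq with h | h
  · exact Wk.C3 S q hpq' h (hqg h) hlow (fun i h1 h2 => hmid i h1 (h2.trans h) h2)
      (fun i h1 => hhigh i (hpq'.trans h1) (Or.inr h1) (ne_of_gt h1)) hadm
  · exact Wk.C2 S q h hqk hlow (fun i h1 h2 => hmid i h1 h2 (h2.trans h))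
      (fun i h1 h2 => hhigh i (hpq.trans h1) (Or.inl h1) h2) hadm

end op

end Pool.Agent.SUC
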